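import Mathlib

set_option autoImplicit false

/-!
# Regular geodesics in virtually nilpotent groups: definitions

Words over a type `α` of letters, `v : α → G` the value of a letter, `val v w` the value of a word,
`Geo v w` geodesic words, `len v g` the word length.
-/

namespace Pool.Agent.NilGeo

variable {G : Type*} [Group G] {α : Type*}

/-- The value of a word. -/
def val (v : α → G) (w : List α) : G := (w.map v).prod

/-- A word is geodesic if no shorter word has the same value. -/
def Geo (v : α → G) (w : List α) : Prop :=
  ∀ u : List α, val v u = val v w → w.length ≤ u.length

/-- The word length of `g`: the smallest length of a word with value `g`. -/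
noncomputable def len (v : α → G) (g : G) : ℕ :=
  sInf {n | ∃ w : List α, val v w = g ∧ w.length = n}

@[simp] theorem val_nil (v : α → G) : val v [] = 1 := rfl

@[simp] theorem val_cons (v : α → G) (a : α) (w : List α) : val v (a :: w) = v a * val v w := by
  simp [val]

@[simp] theorem val_append (v : α → G) (w u : List α) : val v (w ++ u) = val v w * val v u := by
  simp [val]

theorem val_singleton (v : α → G) (a : α) : val v [a] = v a := by
  simp [val]

end Pool.Agent.NilGeo
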