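import Mathlib
import Pool.Agent.NilGeo.Defs

set_option autoImplicit false

/-!
# Package NG1: basic facts on the word length

Definitions in `Defs.lean`: `val v w = (w.map v).prod`, `Geo v w`, `len v g = sInf {|w| : val v w = g}`.
Hypotheses used below: `hsurj : ∀ g, ∃ w, val v w = g` (the letters generate `G` as a monoid),
`hsym : ∀ a, ∃ b, v b = (v a)⁻¹`.

* `len_exists`: `Nat.sInf_mem` of a nonempty set.
* `len_le`: `Nat.sInf_le`.
* `len_one`: the empty word.
* `len_mul_le`: append words given by `len_exists`.
* `len_inv_le`: for a word `w` there is a word `w'` of the same length with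
  `val v w' = (val v w)⁻¹` (induction on `w`, append the letter inverse to the head at the end).
* `len_conj_le`: `len (g⁻¹ * z * g) ≤ len z + 2 * len g`, from the previous ones.
* `geo_iff`: `Geo v w ↔ len v (val v w) = w.length` (in fact `w.length ≤ len` and `len_le`).
* `ball_finite`: the ball is contained in the image under `val v` of the finite set of words of
  length at most `n` (`List.finite_length_le` needs `Finite α`).
* `len_pow_le`: induction.
* `len_letter`: `len_le` for the word `[a]`.
-/

namespace Pool.Agent.NilGeo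

variable {G : Type*} [Group G] {α : Type*}

theorem len_exists (v : α → G) (hsurj : ∀ g, ∃ w, val v w = g) (g : G) :
    ∃ w, val v w = g ∧ w.length = len v g := by
  have h : {n | ∃ w : List α, val v w = g ∧ w.length = n}.Nonempty := by
    obtain ⟨w, hw⟩ := hsurj g
    exact ⟨w.length, w, hw, rfl⟩
  exact Nat.sInf_mem h

theorem len_le (v : α → G) {w : List α} {g : G} (h : val v w = g) : len v g ≤ w.length := by
  exact Nat.sInf_le ⟨w, h, rfl⟩

theorem len_one (v : α → G) : len v (1 : G) = 0 := by
  have h := len_le v (w := []) (g := (1 : G)) rfl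
  simpa using h

theorem len_mul_le (v : α → G) (hsurj : ∀ g, ∃ w, val v w = g) (g h : G) :
    len v (g * h) ≤ len v g + len v h := by
  obtain ⟨w, hw, hl⟩ := len_exists v hsurj g
  obtain ⟨u, hu, hm⟩ := len_exists v hsurj h
  have h1 := len_le v (w := w ++ u) (g := g * h) (by rw [val_append, hw, hu])
  rw [List.length_append] at h1
  omega

theorem len_inv_le (v : α → G) (hsym : ∀ a, ∃ b, v b = (v a)⁻¹)
    (hsurj : ∀ g, ∃ w, val v w = g) (g : G) : len v g⁻¹ ≤ len v g := by
  obtain ⟨w, hw, hl⟩ := len_exists v hsurj g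
  have key : ∀ w : List α, ∃ w' : List α, w'.length = w.length ∧ val v w' = (val v w)⁻¹ := by
    intro w
    induction w with
    | nil => exact ⟨[], rfl, by simp⟩
    | cons a w ih =>
      obtain ⟨w', h1, h2⟩ := ih
      obtain ⟨b, hb⟩ := hsym a
      exact ⟨w' ++ [b], by simp [h1], by
        rw [val_append, h2, val_singleton, hb, val_cons, mul_inv_rev]⟩
  obtain ⟨w', h1, h2⟩ := key w
  have h3 := len_le v (w := w') (g := g⁻¹) (by rw [h2, hw])
  omega

theorem len_conj_le (v : α → G) (hsym : ∀ a, ∃ b, v b = (v a)⁻¹)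
    (hsurj : ∀ g, ∃ w, val v w = g) (g z : G) :
    len v (g⁻¹ * z * g) ≤ len v z + 2 * len v g := by
  have h1 := len_mul_le v hsurj (g⁻¹ * z) g
  have h2 := len_mul_le v hsurj g⁻¹ z
  have h3 := len_inv_le v hsym hsurj g
  omega

theorem geo_iff (v : α → G) (hsurj : ∀ g, ∃ w, val v w = g) (w : List α) :
    Geo v w ↔ len v (val v w) = w.length := by
  constructor
  · intro h
    obtain ⟨u, hu, hl⟩ := len_exists v hsurj (val v w)
    have h1 := h u hu
    have h2 := len_le v (w := w) rfl
    omega
  · intro h u hu
    have h1 := len_le v hu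
    omega

theorem ball_finite [Finite α] (v : α → G) (hsurj : ∀ g, ∃ w, val v w = g) (n : ℕ) :
    {g : G | len v g ≤ n}.Finite := by
  refine ((List.finite_length_le α n).image (val v)).subset ?_
  intro g hg
  obtain ⟨w, hw, hl⟩ := len_exists v hsurj g
  exact ⟨w, by rw [Set.mem_setOf_eq, hl]; exact hg, hw⟩

theorem len_pow_le (v : α → G) (hsurj : ∀ g, ∃ w, val v w = g) (g : G) (n : ℕ) :
    len v (g ^ n) ≤ n * len v g := by
  induction n with
  | zero => rw [pow_zero, len_one, zero_mul]
  | succ n ih =>
    have h1 := len_mul_le v hsurj (g ^ n) g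
    rw [pow_succ, Nat.succ_mul]
    omega

theorem len_letter (v : α → G) (a : α) : len v (v a) ≤ 1 := by
  simpa using len_le v (w := [a]) (val_singleton v a)

/-- An element of length 0 is trivial. -/
theorem eq_one_of_len_eq_zero (v : α → G) (hsurj : ∀ g, ∃ w, val v w = g) {g : G}
    (h : len v g = 0) : g = 1 := by
  obtain ⟨w, hw, hl⟩ := len_exists v hsurj g
  rw [h] at hl
  rw [← hw, List.length_eq_zero_iff.1 hl, val_nil]

end Pool.Agent.NilGeo
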