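import Mathlib

set_option autoImplicit false

/-!
# Package NG12: the last term of the lower central series is finitely generated

`H` normal in `G` and finitely generated, `lcs i = H.lowerCentralSeries i` (indexed from 0). Claim:
for every `i` there is a finite `S ⊆ lcs i` with `lcs i ≤ closure S ⊔ lcs (i + 1)`. For
`lcs (k + 1) = ⊥` it follows that `lcs k = closure S` is finitely generated.

Proof by induction on `i`. `i = 0`: a finite generating set of `H`. Step: let `S` be a set for `i`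
and `X` a finite generating set of `H`. Let `S' = {⁅s, x⁆ | s ∈ S, x ∈ X}` (finite, contained in
`lcs (i + 1)`) and `K = closure S' ⊔ lcs (i + 2)`. To show: `⁅p, h⁆ ∈ K` for `p ∈ lcs i`, `h ∈ H`
(then `lcs (i + 1) = ⁅lcs i, H⁆ ≤ K` by `Subgroup.commutator_le`).
* Fix `x ∈ X`. The set of `p ∈ lcs i` with `⁅p, x⁆ ∈ K` is closed under products and inverses:
  `⁅p p', x⁆ = (p ⁅p', x⁆ p⁻¹) ⁅p, x⁆` and `p ⁅p', x⁆ p⁻¹ = ⁅p, ⁅p', x⁆⁆ ⁅p', x⁆` with
  `⁅p, ⁅p', x⁆⁆ ∈ lcs (i + 2)`, because `⁅p', x⁆ ∈ lcs (i + 1)`, `p ∈ H` and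
  `⁅p, c⁆ = ⁅c, p⁆⁻¹`; similarly `⁅p⁻¹, x⁆ = p⁻¹ ⁅p, x⁆⁻¹ p = ⁅p⁻¹, ⁅p, x⁆⁻¹⁆ ⁅p, x⁆⁻¹`. It
  contains `S` and `lcs (i + 1)` (there `⁅p, x⁆ ∈ lcs (i + 2)`), hence all of `lcs i`
  (`Subgroup.closure_induction` for `lcs i ≤ closure (S ∪ lcs (i + 1))`, carrying `p ∈ lcs i`).
* Fix `p ∈ lcs i`. The set of `h ∈ H` with `⁅p, h⁆ ∈ K` is closed under products and inverses:
  `⁅p, h h'⁆ = ⁅p, h⁆ (h ⁅p, h'⁆ h⁻¹)` and `h c h⁻¹ = ⁅h, c⁆ c`. It contains `X`, so it is `H`.
(All lower central subgroups are normal in `G`: `Subgroup.lowerCentralSeries_normal`.)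
-/

open scoped commutatorElement

namespace Pool.Agent.NilGeo

private theorem lcs_le {G : Type*} [Group G] (H : Subgroup G) (i : ℕ) :
    H.lowerCentralSeries i ≤ H := H.lowerCentralSeries_antitone (Nat.zero_le i)

private theorem lcs_comm {G : Type*} [Group G] (H : Subgroup G) (i : ℕ) {p h : G}
    (hp : p ∈ H.lowerCentralSeries i) (hh : h ∈ H) : ⁅p, h⁆ ∈ H.lowerCentralSeries (i + 1) := by
  rw [Subgroup.lowerCentralSeries_succ]
  exact Subgroup.commutator_mem_commutator hp hh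

private theorem lcs_step {G : Type*} [Group G] (H : Subgroup G) (i : ℕ) (S X : Set G)
    (hSi : S ⊆ H.lowerCentralSeries i)
    (hS : H.lowerCentralSeries i ≤ Subgroup.closure S ⊔ H.lowerCentralSeries (i + 1))
    (hX : Subgroup.closure X = H) :
    H.lowerCentralSeries (i + 1) ≤
      Subgroup.closure (Set.image2 (fun s x => ⁅s, x⁆) S X) ⊔ H.lowerCentralSeries (i + 2) := by
  set K := Subgroup.closure (Set.image2 (fun s x => ⁅s, x⁆) S X) ⊔ H.lowerCentralSeries (i + 2)
    with hK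
  have hXH : ∀ x ∈ X, x ∈ H := fun x hx => hX ▸ Subgroup.subset_closure hx
  have hconj : ∀ h ∈ H, ∀ c ∈ H.lowerCentralSeries (i + 1), c ∈ K → h * c * h⁻¹ ∈ K := by
    intro h hh c hc hcK
    have h1 : ⁅h, c⁆ ∈ H.lowerCentralSeries (i + 2) := by
      have h2 := inv_mem (lcs_comm H (i + 1) hc hh)
      rwa [commutatorElement_inv] at h2
    have h2 : h * c * h⁻¹ = ⁅h, c⁆ * c := by
      rw [commutatorElement_def]
      group
    rw [h2]
    exact mul_mem ((le_sup_right : H.lowerCentralSeries (i + 2) ≤ K) h1) hcK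
  have hA : ∀ x ∈ X, ∀ p ∈ H.lowerCentralSeries i, ⁅p, x⁆ ∈ K := by
    intro x hx
    let T : Subgroup G :=
      { carrier := {p | p ∈ H.lowerCentralSeries i ∧ ⁅p, x⁆ ∈ K}
        one_mem' := ⟨one_mem _, by
          rw [commutatorElement_one_left]
          exact one_mem _⟩
        mul_mem' := by
          rintro p p' ⟨h1, h2⟩ ⟨h3, h4⟩
          refine ⟨mul_mem h1 h3, ?_⟩
          have h5 : ⁅p * p', x⁆ = (p * ⁅p', x⁆ * p⁻¹) * ⁅p, x⁆ := by
            simp only [commutatorElement_def]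
            group
          rw [h5]
          exact mul_mem (hconj p (lcs_le H i h1) _ (lcs_comm H i h3 (hXH x hx)) h4) h2
        inv_mem' := by
          rintro p ⟨h1, h2⟩
          refine ⟨inv_mem h1, ?_⟩
          have h5 : ⁅p⁻¹, x⁆ = p⁻¹ * ⁅p, x⁆⁻¹ * p⁻¹⁻¹ := by
            simp only [commutatorElement_def]
            group
          rw [h5]
          exact hconj p⁻¹ (inv_mem (lcs_le H i h1)) _
            (inv_mem (lcs_comm H i h1 (hXH x hx))) (inv_mem h2) }
    have hT : H.lowerCentralSeries i ≤ T := by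
      refine hS.trans (sup_le ((Subgroup.closure_le T).2 fun s hs => ?_) fun p hp => ?_)
      · refine ⟨hSi hs, (le_sup_left : _ ≤ K) (Subgroup.subset_closure ?_)⟩
        exact Set.mem_image2_of_mem hs hx
      · refine ⟨H.lowerCentralSeries_antitone (Nat.le_succ i) hp, ?_⟩
        exact (le_sup_right : H.lowerCentralSeries (i + 2) ≤ K)
          (lcs_comm H (i + 1) hp (hXH x hx))
    exact fun p hp => (hT hp).2
  rw [Subgroup.lowerCentralSeries_succ, Subgroup.commutator_le]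
  intro p hp
  let T : Subgroup G :=
    { carrier := {h | h ∈ H ∧ ⁅p, h⁆ ∈ K}
      one_mem' := ⟨one_mem _, by
        rw [commutatorElement_one_right]
        exact one_mem _⟩
      mul_mem' := by
        rintro h h' ⟨h1, h2⟩ ⟨h3, h4⟩
        refine ⟨mul_mem h1 h3, ?_⟩
        have h5 : ⁅p, h * h'⁆ = ⁅p, h⁆ * (h * ⁅p, h'⁆ * h⁻¹) := by
          simp only [commutatorElement_def]
          group
        rw [h5]
        exact mul_mem h2 (hconj h h1 _ (lcs_comm H i hp h3) h4)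
      inv_mem' := by
        rintro h ⟨h1, h2⟩
        refine ⟨inv_mem h1, ?_⟩
        have h5 : ⁅p, h⁻¹⁆ = h⁻¹ * ⁅p, h⁆⁻¹ * h⁻¹⁻¹ := by
          simp only [commutatorElement_def]
          group
        rw [h5]
        exact hconj h⁻¹ (inv_mem h1) _ (inv_mem (lcs_comm H i hp h1)) (inv_mem h2) }
  have hT : H ≤ T := by
    rw [← hX, Subgroup.closure_le]
    exact fun x hx => ⟨hXH x hx, hA x hx p hp⟩
  exact fun h hh => (hT hh).2

theorem fg_lcs {G : Type*} [Group G] (H : Subgroup G) [H.Normal] (hfg : H.FG) (k : ℕ)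
    (hk : H.lowerCentralSeries (k + 1) = ⊥) : (H.lowerCentralSeries k).FG := by
  obtain ⟨X, hX⟩ := hfg
  have key : ∀ i, ∃ S : Set G, S.Finite ∧ S ⊆ H.lowerCentralSeries i ∧
      H.lowerCentralSeries i ≤ Subgroup.closure S ⊔ H.lowerCentralSeries (i + 1) := by
    intro i
    induction i with
    | zero =>
      refine ⟨(X : Set G), X.finite_toSet, ?_, ?_⟩
      · rw [Subgroup.lowerCentralSeries_zero, ← hX]
        exact Subgroup.subset_closure
      · rw [Subgroup.lowerCentralSeries_zero, hX]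
        exact le_sup_left
    | succ i ih =>
      obtain ⟨S, hSf, hSi, hS⟩ := ih
      refine ⟨Set.image2 (fun s x => ⁅s, x⁆) S X, hSf.image2 _ X.finite_toSet, ?_,
        lcs_step H i S X hSi hS hX⟩
      rintro _ ⟨s, hs, x, hx, rfl⟩
      exact lcs_comm H i (hSi hs) (hX ▸ Subgroup.subset_closure hx)
  obtain ⟨S, hSf, hSi, hS⟩ := key k
  rw [hk, sup_bot_eq] at hS
  refine ⟨hSf.toFinset, ?_⟩
  rw [hSf.coe_toFinset]
  exact le_antisymm ((Subgroup.closure_le _).2 hSi) hS

end Pool.Agent.NilGeo
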