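import Mathlib

set_option autoImplicit false

/-!
# Cost calculus for products in a filtered group

`Γ` is a group with subgroups `F 1 ≥ F 2 ≥ …`; a letter of level `j ≤ k` costs `n ^ (k - j)`,
elements of the deep subgroup `D = F (k + 1)` are free.
-/

namespace Pool.Agent.NilGeo

variable {Γ : Type*} [Group Γ]

/-- `Rep D k X n c g`: the element `g` is a product of letters `x ∈ X j` of levels `j ≤ k`, each
occurrence with cost `n ^ (k - j)`, and of elements of `D` (free), with total cost at most `c`. -/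
inductive Rep (D : Subgroup Γ) (k : ℕ) (X : ℕ → Set Γ) (n : ℕ) : ℝ → Γ → Prop
  | one {c : ℝ} : 0 ≤ c → Rep D k X n c 1
  | letter {j : ℕ} {x : Γ} {c : ℝ} {g : Γ} : j ≤ k → x ∈ X j → Rep D k X n c g →
      Rep D k X n ((n : ℝ) ^ (k - j) + c) (x * g)
  | deep {d : Γ} {c : ℝ} {g : Γ} : d ∈ D → Rep D k X n c g → Rep D k X n c (d * g)
  | mono {c c' : ℝ} {g : Γ} : c ≤ c' → Rep D k X n c g → Rep D k X n c' g

/-- `cm x h = h⁻¹ x⁻¹ h x`, so that `x⁻¹ h x = h * cm x h`. -/
def cm (x h : Γ) : Γ := h⁻¹ * x⁻¹ * h * x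

theorem cm_spec (x h : Γ) : x⁻¹ * h * x = h * cm x h := by
  simp only [cm]; group

/-- The extended family of letters after the letter `x` of level `i` has been moved to the front:
all letters except `x` at level `i`, and the iterated commutators `(cm x)^[l] h`, `l ≥ 1`, of
letters `h` of level `j'`, at level `j' + i * l`. -/
def ext (X : ℕ → Set Γ) (i : ℕ) (x : Γ) : ℕ → Set Γ := fun j =>
  {g | (g ∈ X j ∧ ¬ (j = i ∧ g = x)) ∨
    ∃ l : ℕ, 1 ≤ l ∧ ∃ j' : ℕ, j' + i * l = j ∧ ∃ h ∈ X j', g = (cm x)^[l] h}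

/-- A filtration of the group `Γ`. -/
structure Filt (F : ℕ → Subgroup Γ) : Prop where
  anti : Antitone F
  normal : ∀ j, (F j).Normal
  comm : ∀ i j, 1 ≤ i → 1 ≤ j → ∀ x ∈ F i, ∀ h ∈ F j, h⁻¹ * x⁻¹ * h * x ∈ F (j + i)

end Pool.Agent.NilGeo
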