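import Mathlib
import Pool.Agent.NilGeo.Rep

set_option autoImplicit false

/-!
# Package NG5: closure properties of `Rep` and of the extended family `ext`

All definitions are in `Rep.lean`.

* `Rep.nonneg`, `Rep.mul`, `Rep.monoFam`, `Rep.mem`: induction on the (first) `Rep`.
* `Rep.single`: `x = x * 1`, `Rep.deepSingle`: `d = d * 1`.
* `Rep.pow`: induction on `m` with `Rep.mul`.
* `Rep.bound`: if every letter `x ∈ X j` (`j ≤ k`) satisfies `|ψ x| ≤ B * n ^ (k - j)`, elements of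
  `D` satisfy `ψ d = 0`, all letters and `D` lie in `W`, and `ψ` is additive on `W`, then
  `|ψ g| ≤ B * c`: induction (carry along `g ∈ W`, from `Rep.mem`).
* `ext_level`: for `g ∈ ext X i x j` of the second kind, `g = (cm x)^[l] h`, `h ∈ X j'`,
  `j' + i * l = j`; `iter_mem` says `(cm x)^[l] h ∈ F (j' + i * l)` (induction on `l` with
  `Function.iterate_succ_apply'` and `Filt.comm i (j' + i * l)`; note `1 ≤ j'` because `X j'` is
  empty for `j' < i`).
* `ext_lt`: for `j < i` the set `ext X i x j` is empty: second kind needs `X j'` nonempty with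
  `j' ≤ j < i`.
* `ext_eq`: level `i`: second kind needs `j' + i * l = i`, `l ≥ 1`, so `j' = 0 < i` and `X j'` empty.
* `ext_finite`: for fixed `j` the pairs `(l, j')` with `j' + i * l = j` satisfy `l ≤ j`, `j' ≤ j`
  (`i ≥ 1`), so the set is contained in a finite union of finite sets.
-/

namespace Pool.Agent.NilGeo

variable {Γ : Type*} [Group Γ]

theorem Rep.nonneg {D : Subgroup Γ} {k : ℕ} {X : ℕ → Set Γ} {n : ℕ} {c : ℝ} {g : Γ}
    (h : Rep D k X n c g) : 0 ≤ c := by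
  induction h with
  | one hc => exact hc
  | letter _ _ _ ih => exact add_nonneg (by positivity) ih
  | deep _ _ ih => exact ih
  | mono hc _ ih => exact ih.trans hc

theorem Rep.mul {D : Subgroup Γ} {k : ℕ} {X : ℕ → Set Γ} {n : ℕ} {c c' : ℝ} {g g' : Γ}
    (h : Rep D k X n c g) (h' : Rep D k X n c' g') : Rep D k X n (c + c') (g * g') := by
  induction h with
  | one hc =>
    rw [one_mul]
    exact Rep.mono (le_add_of_nonneg_left hc) h'
  | letter hj hx _ ih =>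
    rw [add_assoc, mul_assoc]
    exact Rep.letter hj hx ih
  | deep hd _ ih =>
    rw [mul_assoc]
    exact Rep.deep hd ih
  | mono hc _ ih => exact Rep.mono (by linarith) ih

theorem Rep.monoFam {D : Subgroup Γ} {k : ℕ} {X X' : ℕ → Set Γ} {n : ℕ} {c : ℝ} {g : Γ}
    (hX : ∀ j ≤ k, X j ⊆ X' j) (h : Rep D k X n c g) : Rep D k X' n c g := by
  induction h with
  | one hc => exact Rep.one hc
  | letter hj hx _ ih => exact Rep.letter hj (hX _ hj hx) ih
  | deep hd _ ih => exact Rep.deep hd ih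
  | mono hc _ ih => exact Rep.mono hc ih

theorem Rep.single {D : Subgroup Γ} {k : ℕ} {X : ℕ → Set Γ} {n j : ℕ} {x : Γ}
    (hj : j ≤ k) (hx : x ∈ X j) : Rep D k X n ((n : ℝ) ^ (k - j)) x := by
  have h := Rep.letter (D := D) (n := n) hj hx (Rep.one le_rfl)
  rwa [add_zero, mul_one] at h

theorem Rep.deepSingle {D : Subgroup Γ} {k : ℕ} {X : ℕ → Set Γ} {n : ℕ} {d : Γ} {c : ℝ}
    (hc : 0 ≤ c) (hd : d ∈ D) : Rep D k X n c d := by
  have h := Rep.deep (k := k) (X := X) (n := n) hd (Rep.one hc)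
  rwa [mul_one] at h

theorem Rep.pow {D : Subgroup Γ} {k : ℕ} {X : ℕ → Set Γ} {n : ℕ} {c : ℝ} {g : Γ}
    (h : Rep D k X n c g) (m : ℕ) : Rep D k X n (m * c) (g ^ m) := by
  induction m with
  | zero =>
    rw [pow_zero]
    exact Rep.one (by simp)
  | succ m ih =>
    have h1 := ih.mul h
    have e : ((m + 1 : ℕ) : ℝ) * c = m * c + c := by push_cast; ring
    rw [pow_succ, e]
    exact h1

theorem Rep.mem {D W : Subgroup Γ} {k : ℕ} {X : ℕ → Set Γ} {n : ℕ} {c : ℝ} {g : Γ}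
    (hD : D ≤ W) (hX : ∀ j ≤ k, ∀ x ∈ X j, x ∈ W) (h : Rep D k X n c g) : g ∈ W := by
  induction h with
  | one _ => exact W.one_mem
  | letter hj hx _ ih => exact W.mul_mem (hX _ hj _ hx) ih
  | deep hd _ ih => exact W.mul_mem (hD hd) ih
  | mono _ _ ih => exact ih

theorem Rep.bound {D W : Subgroup Γ} {k : ℕ} {X : ℕ → Set Γ} {n : ℕ} {c : ℝ} {g : Γ}
    (hD : D ≤ W) (hX : ∀ j ≤ k, ∀ x ∈ X j, x ∈ W) (ψ : Γ → ℝ)
    (hψ : ∀ a ∈ W, ∀ b ∈ W, ψ (a * b) = ψ a + ψ b) (hψD : ∀ d ∈ D, ψ d = 0) (B : ℝ) (hB : 0 ≤ B)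
    (hψX : ∀ j ≤ k, ∀ x ∈ X j, |ψ x| ≤ B * (n : ℝ) ^ (k - j))
    (h : Rep D k X n c g) : |ψ g| ≤ B * c := by
  have h1 : ψ 1 = 0 := hψD 1 D.one_mem
  induction h with
  | one hc =>
    rw [h1, abs_zero]
    exact mul_nonneg hB hc
  | letter hj hx hr ih =>
    rw [hψ _ (hX _ hj _ hx) _ (hr.mem hD hX), mul_add]
    exact (abs_add_le _ _).trans (add_le_add (hψX _ hj _ hx) ih)
  | deep hd hr ih =>
    rw [hψ _ (hD hd) _ (hr.mem hD hX), hψD _ hd, zero_add]
    exact ih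
  | mono hc _ ih => exact ih.trans (mul_le_mul_of_nonneg_left hc hB)

theorem iter_mem {F : ℕ → Subgroup Γ} (hF : Filt F) {i : ℕ} (hi : 1 ≤ i) {x : Γ} (hx : x ∈ F i)
    {j : ℕ} (hj : 1 ≤ j) {h : Γ} (hh : h ∈ F j) (l : ℕ) : (cm x)^[l] h ∈ F (j + i * l) := by
  induction l with
  | zero =>
    rw [Nat.mul_zero, Nat.add_zero]
    exact hh
  | succ l ih =>
    rw [Function.iterate_succ_apply']
    have h1 := hF.comm i (j + i * l) hi (by omega) x hx _ ih
    have e : j + i * (l + 1) = j + i * l + i := by ring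
    rw [e]
    exact h1

theorem ext_level {F : ℕ → Subgroup Γ} (hF : Filt F) {X : ℕ → Set Γ} {k i : ℕ} (hi : 1 ≤ i)
    (hX : ∀ j ≤ k, X j ⊆ F j) (hXi : ∀ j < i, X j = ∅) {x : Γ} (hx : x ∈ F i) :
    ∀ j ≤ k, ext X i x j ⊆ F j := by
  intro j hj g hg
  rcases hg with ⟨hg, -⟩ | ⟨l, hl, j', he, h, hh, rfl⟩
  · exact hX j hj hg
  · have h1 : 1 ≤ j' := by
      by_contra h0
      rw [hXi j' (by omega)] at hh
      exact hh
    have h2 := iter_mem hF hi hx h1 (hX j' (by omega) hh) l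
    rwa [he] at h2

theorem ext_lt {X : ℕ → Set Γ} {i : ℕ} (hXi : ∀ j < i, X j = ∅) (x : Γ) :
    ∀ j < i, ext X i x j = ∅ := by
  intro j hj
  rw [Set.eq_empty_iff_forall_notMem]
  intro g hg
  rcases hg with ⟨hg, -⟩ | ⟨l, hl, j', he, h, hh, rfl⟩
  · rw [hXi j hj] at hg
    exact hg
  · rw [hXi j' (by omega)] at hh
    exact hh

theorem ext_eq {X : ℕ → Set Γ} {i : ℕ} (hi : 1 ≤ i) (hXi : ∀ j < i, X j = ∅) (x : Γ) :
    ext X i x i = X i \ {x} := by
  ext g
  constructor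
  · rintro (⟨hg, h1⟩ | ⟨l, hl, j', he, h, hh, rfl⟩)
    · exact ⟨hg, fun h2 => h1 ⟨rfl, h2⟩⟩
    · exfalso
      have h1 : i * 1 ≤ i * l := Nat.mul_le_mul_left i hl
      rw [hXi j' (by omega)] at hh
      exact hh
  · rintro ⟨hg, h1⟩
    exact Or.inl ⟨hg, fun h2 => h1 h2.2⟩

theorem ext_finite {X : ℕ → Set Γ} {i : ℕ} (hi : 1 ≤ i) (hX : ∀ j, (X j).Finite) (x : Γ) :
    ∀ j, (ext X i x j).Finite := by
  intro j
  have h1 : (⋃ l ∈ Finset.range (j + 1), ⋃ j' ∈ Finset.range (j + 1),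
      (cm x)^[l] '' X j').Finite :=
    (Finset.range (j + 1)).finite_toSet.biUnion fun l _ =>
      (Finset.range (j + 1)).finite_toSet.biUnion fun j' _ => (hX j').image _
  refine ((hX j).union h1).subset ?_
  rintro g (⟨hg, -⟩ | ⟨l, hl, j', he, h, hh, rfl⟩)
  · exact Or.inl hg
  · refine Or.inr ?_
    have h2 : 1 * l ≤ i * l := Nat.mul_le_mul_right l hi
    simp only [Set.mem_iUnion]
    exact ⟨l, Finset.mem_range.2 (by omega), j', Finset.mem_range.2 (by omega), h, hh, rfl⟩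

end Pool.Agent.NilGeo
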