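import Mathlib
import Pool.Agent.NilGeo.RepMul

set_option autoImplicit false

/-!
# Package NG7: the property `PB` and its top level `PB k`

`PB F k A φ i` says: for every finite family of letters `X j ⊆ F j` (`i ≤ j ≤ k`) and every `K`
there is `C` with `|φ z| ≤ C n^k` for all `n ≥ 1` and all `z ∈ A` which have a representation of
cost at most `K n^k`.

`extend`: `φ` is additive on `A ≤ F k` and vanishes on `A ∩ F (k + 1)`; it extends to an additive
function `ψ` on `F k` which vanishes on `F (k + 1)`.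
Proof. Let `W = ↥(F k)` and `N = (F (k + 1)).subgroupOf (F k)`, normal in `W`
(`Subgroup.Normal.subgroupOf`, `hF.normal (k+1)`). For `x, h ∈ F k`, `h⁻¹ x⁻¹ h x ∈ F (k + k)`
`≤ F (k + 1)` (`hF.comm`, `hF.anti`, `1 ≤ k`), so `Q = W ⧸ N` is commutative; let `A'` be the image
of `A.subgroupOf (F k)` in `Q`. The function `φ` defines an additive function
`A' → ℝ` : if `a, b ∈ A` have the same image then `a⁻¹ b ∈ A ∩ F (k + 1)`, so `φ b = φ a`
(`φ 1 = 0`, `φ a⁻¹ = - φ a`). `ℝ` is divisible, so `Module.Baer.of_divisible` and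
`Module.Baer.extension_property_addMonoidHom` (for the inclusion `Additive A' →+ Additive Q`)
extend it to `Additive Q →+ ℝ`. (Alternatively: take `CommGroup Q` via
`{ QuotientGroup.Quotient.group N with mul_comm := … }`.) Let `ψ g` be its value at the class of
`g` if `g ∈ F k` and `0` otherwise.

`pb_top`: take `ψ` from `extend`. If `X j = ∅` for `j < k`, only the finite set `X k` matters: with
`B` a bound for `|ψ x|`, `x ∈ X k`, `Rep.bound` (with `W = F k`, `D = F (k + 1)`; letters `x ∈ X j`,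
`j ≤ k`, have `j = k`, cost `n^0 = 1`) gives `|φ z| = |ψ z| ≤ B * (K n^k)`.
-/

namespace Pool.Agent.NilGeo

variable {Γ : Type*} [Group Γ]

/-- The bound at level `i`. -/
def PB (F : ℕ → Subgroup Γ) (k : ℕ) (A : Subgroup Γ) (φ : Γ → ℝ) (i : ℕ) : Prop :=
  ∀ X : ℕ → Set Γ, (∀ j, (X j).Finite) → (∀ j ≤ k, X j ⊆ F j) → (∀ j < i, X j = ∅) →
    ∀ K : ℝ, ∃ C : ℝ, ∀ n : ℕ, 1 ≤ n → ∀ z ∈ A,
      Rep (F (k + 1)) k X n (K * (n : ℝ) ^ k) z → |φ z| ≤ C * (n : ℝ) ^ k

theorem extend {F : ℕ → Subgroup Γ} (hF : Filt F) {k : ℕ} (hk : 1 ≤ k) (A : Subgroup Γ)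
    (hAF : A ≤ F k) (φ : Γ → ℝ) (hφ : ∀ a ∈ A, ∀ b ∈ A, φ (a * b) = φ a + φ b)
    (h0 : ∀ a ∈ A, a ∈ F (k + 1) → φ a = 0) :
    ∃ ψ : Γ → ℝ, (∀ a ∈ F k, ∀ b ∈ F k, ψ (a * b) = ψ a + ψ b) ∧ (∀ a ∈ A, ψ a = φ a) ∧
      ∀ a ∈ F (k + 1), ψ a = 0 := by
  classical
  have hn : ((F (k + 1)).subgroupOf (F k)).Normal := by
    have := hF.normal (k + 1)
    exact Subgroup.Normal.subgroupOf this (F k)
  let _ : CommGroup (F k ⧸ (F (k + 1)).subgroupOf (F k)) :=
    { QuotientGroup.Quotient.group ((F (k + 1)).subgroupOf (F k)) with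
      mul_comm := by
        intro a b
        induction a using QuotientGroup.induction_on with
        | H x =>
          induction b using QuotientGroup.induction_on with
          | H h =>
            have h1 := hF.anti (show k + 1 ≤ k + k by omega)
              (hF.comm k k hk hk x.1 x.2 h.1 h.2)
            have h2 : (x * h)⁻¹ * (h * x) ∈ (F (k + 1)).subgroupOf (F k) := by
              rw [Subgroup.mem_subgroupOf]
              have e : (((x * h)⁻¹ * (h * x) : F k) : Γ) = h.1⁻¹ * x.1⁻¹ * h.1 * x.1 := by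
                push_cast
                group
              rw [e]
              exact h1
            exact QuotientGroup.eq.mpr h2 }
  let mk : F k →* F k ⧸ (F (k + 1)).subgroupOf (F k) :=
    { toFun := fun x => (x : F k ⧸ (F (k + 1)).subgroupOf (F k))
      map_one' := rfl
      map_mul' := fun _ _ => rfl }
  have hmk : ∀ x y : F k, mk x = mk y ↔ x.1⁻¹ * y.1 ∈ F (k + 1) := by
    intro x y
    refine QuotientGroup.eq.trans ?_
    rw [Subgroup.mem_subgroupOf]
    exact Iff.rfl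
  let p : A →* F k ⧸ (F (k + 1)).subgroupOf (F k) := mk.comp (Subgroup.inclusion hAF)
  have hφ1 : φ 1 = 0 := h0 1 A.one_mem (F (k + 1)).one_mem
  have hφi : ∀ a ∈ A, φ a⁻¹ = - φ a := by
    intro a ha
    have h2 := hφ a⁻¹ (A.inv_mem ha) a ha
    rw [inv_mul_cancel, hφ1] at h2
    linarith
  have hwd : ∀ a b : A, p a = p b → φ a = φ b := by
    intro a b hab
    have h2 := (hmk _ _).mp hab
    have h3 := h0 (a.1⁻¹ * b.1) (A.mul_mem (A.inv_mem a.2) b.2) h2
    rw [hφ _ (A.inv_mem a.2) _ b.2, hφi _ a.2] at h3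
    linarith
  have hc : ∀ r : p.range, ∃ a : A, p a = r := fun r => r.2
  choose c hc using hc
  let g : Additive p.range →+ ℝ :=
    AddMonoidHom.mk' (fun r => φ (c (Additive.toMul r))) (by
      intro r s
      rw [← hφ _ (c (Additive.toMul r)).2 _ (c (Additive.toMul s)).2]
      refine hwd (c (Additive.toMul (r + s))) (c (Additive.toMul r) * c (Additive.toMul s)) ?_
      rw [map_mul, hc, hc, hc]
      rfl)
  let f : Additive p.range →+ Additive (F k ⧸ (F (k + 1)).subgroupOf (F k)) :=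
    MonoidHom.toAdditive p.range.subtype
  have hf : Function.Injective f := fun a b hab => by
    apply Additive.toMul.injective
    exact Subtype.ext hab
  obtain ⟨e, he⟩ := (Module.Baer.of_divisible ℝ).extension_property_addMonoidHom f hf g
  have hg : ∀ a : A, e (Additive.ofMul (p a)) = φ a := by
    intro a
    have h2 := DFunLike.congr_fun he (Additive.ofMul (⟨p a, a, rfl⟩ : p.range))
    refine Eq.trans h2 ?_
    exact hwd _ _ (hc ⟨p a, a, rfl⟩)
  refine ⟨fun x => if hx : x ∈ F k then e (Additive.ofMul (mk ⟨x, hx⟩)) else 0, ?_, ?_, ?_⟩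
  · intro a ha b hb
    simp only [dif_pos ha, dif_pos hb, dif_pos ((F k).mul_mem ha hb)]
    rw [← map_add, ← ofMul_mul, ← map_mul]
    rfl
  · intro a ha
    simp only [dif_pos (hAF ha)]
    exact hg ⟨a, ha⟩
  · intro a ha
    have ha' : a ∈ F k := hF.anti (Nat.le_succ k) ha
    simp only [dif_pos ha']
    have h2 : mk ⟨a, ha'⟩ = mk 1 := by
      rw [hmk]
      simpa using ha
    rw [h2, map_one]
    exact map_zero e

theorem pb_top {F : ℕ → Subgroup Γ} (hF : Filt F) {k : ℕ} (hk : 1 ≤ k) (A : Subgroup Γ)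
    (hAF : A ≤ F k) (φ : Γ → ℝ) (hφ : ∀ a ∈ A, ∀ b ∈ A, φ (a * b) = φ a + φ b)
    (h0 : ∀ a ∈ A, a ∈ F (k + 1) → φ a = 0) : PB F k A φ k := by
  obtain ⟨ψ, h1, h2, h3⟩ := extend hF hk A hAF φ hφ h0
  intro X hfin hXF hX K
  obtain ⟨B, hB⟩ : ∃ B : ℝ, ∀ x ∈ X k, |ψ x| ≤ B := by
    obtain ⟨B, hB⟩ := ((hfin k).image (fun x => |ψ x|)).bddAbove
    exact ⟨B, fun x hx => hB ⟨x, hx, rfl⟩⟩
  refine ⟨max B 0 * K, fun n hn z hz hr => ?_⟩
  rw [← h2 z hz, mul_assoc]
  refine Rep.bound (W := F k) (hF.anti (Nat.le_succ k)) ?_ ψ h1 h3 (max B 0)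
    (le_max_right _ _) ?_ hr
  · intro j hj x hx
    rcases Nat.lt_or_eq_of_le hj with h | h
    · rw [hX j h] at hx
      exact absurd hx (Set.notMem_empty _)
    · subst h
      exact hXF _ le_rfl hx
  · intro j hj x hx
    rcases Nat.lt_or_eq_of_le hj with h | h
    · rw [hX j h] at hx
      exact absurd hx (Set.notMem_empty _)
    · subst h
      rw [Nat.sub_self, pow_zero, mul_one]
      exact (hB x hx).trans (le_max_left _ _)

end Pool.Agent.NilGeo
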