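import Mathlib
import Pool.Agent.NilGeo.RepMul

set_option autoImplicit false

/-!
# Package NG6: moving a letter to the front

`conj_rep`: let `x ∈ F i` and let `h ∈ X j`, `i ≤ j ≤ k`, not the pair `(j, h) = (i, x)`. For all
`s, l` the element `x^{-s} (cm x)^[l] h x^s` has a representation over `ext X i x` of cost
`κ l * (1 + 1 / n^i) ^ s`, where `κ l = n^(k - (j + i l))` if `j + i l ≤ k` and `κ l = 0` otherwise.

Proof: induction on `s`, for all `l`. `s = 0`: if `j + i l ≤ k` the element `(cm x)^[l] h` is a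
letter of `ext X i x` of level `j + i l` (for `l = 0` of the first kind, for `l ≥ 1` of the second
kind): `Rep.single`; otherwise it lies in `F (j + i l) ≤ F (k + 1)` (`iter_mem`):
`Rep.deepSingle`. Step: with `c_l = (cm x)^[l] h`, `x⁻¹ c_l x = c_l * c_{l+1}` (`cm_spec`,
`Function.iterate_succ_apply'`), so
`x^{-(s+1)} c_l x^(s+1) = (x^{-s} c_l x^s) (x^{-s} c_{l+1} x^s)` and the cost is at most
`(κ l + κ (l+1)) (1 + 1/n^i)^s ≤ κ l (1 + 1/n^i)^(s+1)`, since `κ (l+1) ≤ κ l / n^i` (if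
`j + i (l+1) ≤ k` then `n^(k - (j + i l)) = n^(k - (j + i (l+1))) * n^i`).

`move`: induction on `Rep`, for all `c` with `c ≤ K n^k`.
* `one`: `e = 0`, `g' = 1` (`0 ≤ exp K * c`).
* `letter`: `g = x' * g1`, `x' ∈ X j`, `c = n^(k-j) + c1`; induction hypothesis for `g1`
  (`c1 ≤ c ≤ K n^k`): `g1 = x^e g1'`. If `j = i` and `x' = x`: `g = x^(e+1) g1'`, and
  `(e + 1) n^(k-i) ≤ c1 + n^(k-i) = c`; the representation of `g1'` by `mono`. Otherwise
  `g = x^e (x^{-e} x' x^e) g1'`, and `conj_rep` with `l = 0`, `s = e` gives for `x^{-e} x' x^e` the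
  cost `n^(k-j) (1 + 1/n^i)^e ≤ n^(k-j) exp (e / n^i) ≤ n^(k-j) exp K`, because
  `e n^(k-i) ≤ c1 ≤ K n^k = K n^(k-i) n^i` gives `e ≤ K n^i` (`Real.add_one_le_exp`,
  `Real.exp_nat_mul`); `Rep.mul`.
* `deep`: `d * g1 = x^e (x^{-e} d x^e) g1'`, and `x^{-e} d x^e ∈ F (k+1)` by normality.
* `mono`: clear.
-/

namespace Pool.Agent.NilGeo

variable {Γ : Type*} [Group Γ]

theorem conj_rep {F : ℕ → Subgroup Γ} (hF : Filt F) {k i : ℕ} (hi : 1 ≤ i)
    {X : ℕ → Set Γ} {x : Γ} (hx : x ∈ F i)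
    (n : ℕ) (hn : 1 ≤ n) {j : ℕ} (hij : i ≤ j) {h : Γ} (hh : h ∈ X j) (hhF : h ∈ F j)
    (hne : ¬ (j = i ∧ h = x)) (s l : ℕ) :
    Rep (F (k + 1)) k (ext X i x) n
      ((if j + i * l ≤ k then (n : ℝ) ^ (k - (j + i * l)) else 0) * (1 + 1 / (n : ℝ) ^ i) ^ s)
      ((x ^ s)⁻¹ * (cm x)^[l] h * x ^ s) := by
  have hn' : (1 : ℝ) ≤ n := by exact_mod_cast hn
  have hn0 : (0 : ℝ) < n := by linarith
  have hj : 1 ≤ j := le_trans hi hij
  have hT : (0 : ℝ) ≤ 1 + 1 / (n : ℝ) ^ i := by positivity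
  have hkap : ∀ l : ℕ, (if j + i * (l + 1) ≤ k then (n : ℝ) ^ (k - (j + i * (l + 1))) else 0) ≤
      (if j + i * l ≤ k then (n : ℝ) ^ (k - (j + i * l)) else 0) * (1 / (n : ℝ) ^ i) := by
    intro l
    have e1 : j + i * (l + 1) = j + i * l + i := by ring
    by_cases h1 : j + i * (l + 1) ≤ k
    · rw [if_pos h1, if_pos (by omega)]
      have e2 : k - (j + i * l) = (k - (j + i * (l + 1))) + i := by omega
      rw [e2, pow_add]
      have h3 : (n : ℝ) ^ i ≠ 0 := by positivity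
      field_simp
      exact le_rfl
    · rw [if_neg h1]
      split_ifs <;> positivity
  induction s generalizing l with
  | zero =>
    simp only [pow_zero, mul_one, inv_one, one_mul]
    by_cases hl : j + i * l ≤ k
    · rw [if_pos hl]
      apply Rep.single hl
      rcases Nat.eq_zero_or_pos l with rfl | hl0
      · left
        exact ⟨by simpa using hh, by simpa using hne⟩
      · right
        exact ⟨l, hl0, j, rfl, h, hh, rfl⟩
    · rw [if_neg hl]
      apply Rep.deepSingle le_rfl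
      exact hF.anti (by omega : k + 1 ≤ j + i * l) (iter_mem hF hi hx hj hhF l)
  | succ s ih =>
    have e : (x ^ (s + 1))⁻¹ * (cm x)^[l] h * x ^ (s + 1) =
        ((x ^ s)⁻¹ * (cm x)^[l] h * x ^ s) * ((x ^ s)⁻¹ * (cm x)^[l + 1] h * x ^ s) := by
      rw [Function.iterate_succ_apply']
      have h1 := cm_spec x ((cm x)^[l] h)
      have h2 : (x ^ (s + 1))⁻¹ * (cm x)^[l] h * x ^ (s + 1) =
          (x ^ s)⁻¹ * (x⁻¹ * (cm x)^[l] h * x) * x ^ s := by
        rw [pow_succ', mul_inv_rev]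
        simp only [mul_assoc]
      rw [h2, h1]
      simp only [mul_assoc]
      rw [mul_inv_cancel_left]
    rw [e]
    refine Rep.mono ?_ ((ih l).mul (ih (l + 1)))
    rw [← add_mul, pow_succ', ← mul_assoc]
    apply mul_le_mul_of_nonneg_right _ (pow_nonneg hT s)
    have h7 : ∀ a t : ℝ, a * (1 + t) = a + a * t := fun a t => by ring
    rw [h7]
    have h8 := hkap l
    linarith

theorem move {F : ℕ → Subgroup Γ} (hF : Filt F) {k i : ℕ} (hi : 1 ≤ i) (hik : i ≤ k)
    {X : ℕ → Set Γ} (hX : ∀ j ≤ k, X j ⊆ F j) (hXi : ∀ j < i, X j = ∅) {x : Γ} (hx : x ∈ F i)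
    (n : ℕ) (hn : 1 ≤ n) (K : ℝ) (hK : 0 ≤ K) {c : ℝ} (hc : c ≤ K * (n : ℝ) ^ k) {g : Γ}
    (h : Rep (F (k + 1)) k X n c g) :
    ∃ (e : ℕ) (g' : Γ), g = x ^ e * g' ∧ (e : ℝ) * (n : ℝ) ^ (k - i) ≤ c ∧
      Rep (F (k + 1)) k (ext X i x) n (Real.exp K * c) g' := by
  have hn' : (1 : ℝ) ≤ n := by exact_mod_cast hn
  have hn0 : (0 : ℝ) < n := by linarith
  have hE : 0 < Real.exp K := Real.exp_pos K
  induction h with
  | one h0 =>
    exact ⟨0, 1, by simp, by simpa using h0, Rep.one (by positivity)⟩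
  | @letter j x' c1 g1 hj hx' hr ih =>
    have hc1 : c1 ≤ K * (n : ℝ) ^ k := by
      have : (0 : ℝ) ≤ (n : ℝ) ^ (k - j) := by positivity
      linarith
    obtain ⟨e, g', rfl, he, hg'⟩ := ih hc1
    by_cases hne : j = i ∧ x' = x
    · obtain ⟨rfl, rfl⟩ := hne
      refine ⟨e + 1, g', ?_, ?_, ?_⟩
      · rw [pow_succ', mul_assoc]
      · push_cast
        rw [add_mul, one_mul]
        linarith
      · refine Rep.mono ?_ hg'
        apply mul_le_mul_of_nonneg_left _ hE.le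
        have : (0 : ℝ) ≤ (n : ℝ) ^ (k - j) := by positivity
        linarith
    · have hij : i ≤ j := by
        by_contra h0
        rw [hXi j (by omega)] at hx'
        exact hx'
      refine ⟨e, (x ^ e)⁻¹ * x' * x ^ e * g', ?_, ?_, ?_⟩
      · simp only [mul_assoc]
        rw [mul_inv_cancel_left]
      · have : (0 : ℝ) ≤ (n : ℝ) ^ (k - j) := by positivity
        linarith
      · have h1 := conj_rep hF (k := k) hi hx n hn hij hx' (hX j hj hx') hne e 0
        simp only [Nat.mul_zero, Nat.add_zero, if_pos hj] at h1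
        rw [mul_add]
        refine Rep.mul (Rep.mono ?_ h1) hg'
        rw [mul_comm (Real.exp K)]
        apply mul_le_mul_of_nonneg_left _ (by positivity)
        have hni : (0 : ℝ) < (n : ℝ) ^ i := by positivity
        have hki : (0 : ℝ) < (n : ℝ) ^ (k - i) := by positivity
        have h2 : (e : ℝ) ≤ K * (n : ℝ) ^ i := by
          have h3 : (e : ℝ) * (n : ℝ) ^ (k - i) ≤ K * (n : ℝ) ^ i * (n : ℝ) ^ (k - i) := by
            rw [mul_assoc, ← pow_add, Nat.add_sub_cancel' hik]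
            exact he.trans hc1
          exact le_of_mul_le_mul_right h3 hki
        have h4 : (1 + 1 / (n : ℝ) ^ i) ^ e ≤ Real.exp (1 / (n : ℝ) ^ i) ^ e := by
          apply pow_le_pow_left₀ (by positivity)
          rw [add_comm]
          exact Real.add_one_le_exp _
        refine h4.trans ?_
        rw [← Real.exp_nat_mul]
        apply Real.exp_le_exp.2
        rw [mul_one_div, div_le_iff₀ hni]
        exact h2
  | @deep d c1 g1 hd hr ih =>
    obtain ⟨e, g', rfl, he, hg'⟩ := ih hc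
    refine ⟨e, (x ^ e)⁻¹ * d * x ^ e * g', ?_, he, ?_⟩
    · simp only [mul_assoc]
      rw [mul_inv_cancel_left]
    · apply Rep.deep _ hg'
      have h1 := (hF.normal (k + 1)).conj_mem d hd (x ^ e)⁻¹
      rwa [inv_inv] at h1
  | @mono c1 c2 g1 hcc hr ih =>
    obtain ⟨e, g', hg, he, hg'⟩ := ih (hcc.trans hc)
    exact ⟨e, g', hg, he.trans hcc, Rep.mono (mul_le_mul_of_nonneg_left hcc hE.le) hg'⟩

end Pool.Agent.NilGeo
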