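import Mathlib
import Pool.Agent.NilGeo.Move
import Pool.Agent.NilGeo.DTop

set_option autoImplicit false

/-!
# Package NG8: from level `i + 1` to level `i`

`closure_rep`: let `S ⊆ F i` be finite, `1 ≤ i < k` and `g ∈ closure (S ∪ F (i + 1))`. There are a
finite `T ⊆ F (i + 1)` and `c0 ≥ 0` such that for all `n ≥ 1` both `g` and `g⁻¹` have
representations of cost `c0 n^(k - i)` over the family with `sym S = {y | y ∈ S ∨ y⁻¹ ∈ S}` at
level `i` and `T` at level `i + 1` (and `∅` otherwise).
Proof: `Subgroup.closure_induction`: for `g ∈ S`: `T = ∅`, `c0 = 1` (`g, g⁻¹ ∈ sym S`); for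
`g ∈ F (i + 1)`: `T = {g, g⁻¹}`, `c0 = 1` (a letter of level `i + 1` costs
`n^(k - (i+1)) ≤ n^(k - i)`, here `i + 1 ≤ k`); `1`: `T = ∅`, `c0 = 0`; products: `T ∪ T'`,
`c0 + c0'` (`Rep.monoFam`, `Rep.mul`); inverses: the same `T`, `c0`.

`pb_step`. Claim: for every finite `S ⊆ F i`: for every finite family `X` with `X j ⊆ F j`
(`j ≤ k`), `X j = ∅` for `j < i`, `X i ⊆ sym S` and every `K` there is a `C` as in `PB`.
(`PB i` follows with `S = X i`, which is finite.) Induction on `S` (`Finset.induction_on`).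
* `S = ∅`: `X i = ∅`, so `X j = ∅` for all `j < i + 1` and `PB (i + 1)` applies.
* `insert x S` (`x ∈ F i`): replacing `K` by `max K 0` we may assume `K ≥ 0` (`Rep.mono`). Put
  `X1 = ext X i x`, `X2 = ext X1 i x⁻¹`. By `ext_eq`, `X2 i = (X i \ {x}) \ {x⁻¹} ⊆ sym S`;
  `ext_level`, `ext_lt`, `ext_finite` give the other properties of `X1`, `X2`. Let
  `K1 = exp K * K`, `K2 = exp K1 * K1`. For `z ∈ A` with a representation of cost `K n^k`: `move`
  gives `z = x^e z1`, `e n^(k-i) ≤ K n^k`, `z1` of cost `exp K * (K n^k) = K1 n^k` over `X1`; again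
  `z1 = (x⁻¹)^f z2`, `f n^(k-i) ≤ K1 n^k`, `z2` of cost `K2 n^k` over `X2`. So `z = x^m z2`,
  `m = e - f ∈ ℤ`. Let `L` be the additive subgroup of all `m : ℤ` with
  `x^m ∈ U := closure (S ∪ F (i + 1))`; `L` is generated by some `p : ℤ`
  (`Int.subgroup_cyclic`). `z2 ∈ U` by `Rep.mem` (letters of level `i` are in `sym S ⊆ U`, letters
  of level `> i` in `F (i + 1)`), `z ∈ A ≤ F (i + 1) ≤ U` (`A ≤ F k`, antitone), so `m ∈ L`:
  `m = p m'` (choose `m' = 0` if `p = 0`), and `|m'| ≤ |m| ≤ e + f`. Apply `closure_rep` to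
  `g = x^p ∈ U`: family `Y` and `c0` (they depend only on `x`, `S`). Then `x^m = (x^p)^m'` has cost
  `|m'| c0 n^(k-i) ≤ c0 (K + K1) n^k` over `Y` (`Rep.pow`, for negative `m'` use the representation
  of `(x^p)⁻¹`; `Rep.mono`). So `z = x^m z2` has cost at most `(c0 (K + K1) + K2) n^k` over the
  family `X3 j = X2 j ∪ Y j`, which satisfies the hypotheses of the induction hypothesis for `S`.
-/

namespace Pool.Agent.NilGeo

variable {Γ : Type*} [Group Γ]

theorem closure_rep {F : ℕ → Subgroup Γ} {k i : ℕ} (hik : i < k) (S : Finset Γ)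
    {g : Γ} (hg : g ∈ Subgroup.closure ((S : Set Γ) ∪ (F (i + 1) : Set Γ))) :
    ∃ (T : Set Γ) (c0 : ℝ), T.Finite ∧ T ⊆ F (i + 1) ∧ 0 ≤ c0 ∧ ∀ n : ℕ, 1 ≤ n →
      Rep (F (k + 1)) k (fun j => if j = i then {y | y ∈ S ∨ y⁻¹ ∈ S} else
        if j = i + 1 then T else ∅) n (c0 * (n : ℝ) ^ (k - i)) g ∧
      Rep (F (k + 1)) k (fun j => if j = i then {y | y ∈ S ∨ y⁻¹ ∈ S} else
        if j = i + 1 then T else ∅) n (c0 * (n : ℝ) ^ (k - i)) g⁻¹ := by
  induction hg using Subgroup.closure_induction with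
  | mem g hg =>
    rcases hg with hg | hg
    · refine ⟨∅, 1, Set.finite_empty, Set.empty_subset _, zero_le_one, fun n _ => ?_⟩
      have h1 : g ∈ (fun j => if j = i then {y | y ∈ S ∨ y⁻¹ ∈ S} else
          if j = i + 1 then (∅ : Set Γ) else ∅) i := by
        beta_reduce
        rw [if_pos rfl]
        exact Or.inl (Finset.mem_coe.1 hg)
      have h2 : g⁻¹ ∈ (fun j => if j = i then {y | y ∈ S ∨ y⁻¹ ∈ S} else
          if j = i + 1 then (∅ : Set Γ) else ∅) i := by
        beta_reduce
        rw [if_pos rfl]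
        refine Or.inr ?_
        rw [inv_inv]
        exact Finset.mem_coe.1 hg
      rw [one_mul]
      exact ⟨Rep.single hik.le h1, Rep.single hik.le h2⟩
    · refine ⟨{g, g⁻¹}, 1, Set.toFinite _, ?_, zero_le_one, fun n hn => ?_⟩
      · rintro y (rfl | rfl)
        · exact hg
        · exact (F (i + 1)).inv_mem hg
      · have hne : ¬ (i + 1 = i) := by omega
        have h1 : g ∈ (fun j => if j = i then {y | y ∈ S ∨ y⁻¹ ∈ S} else
            if j = i + 1 then ({g, g⁻¹} : Set Γ) else ∅) (i + 1) := by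
          beta_reduce
          rw [if_neg hne, if_pos rfl]
          exact Or.inl rfl
        have h2 : g⁻¹ ∈ (fun j => if j = i then {y | y ∈ S ∨ y⁻¹ ∈ S} else
            if j = i + 1 then ({g, g⁻¹} : Set Γ) else ∅) (i + 1) := by
          beta_reduce
          rw [if_neg hne, if_pos rfl]
          exact Or.inr rfl
        have hn1 : (1 : ℝ) ≤ n := by exact_mod_cast hn
        have hc : (n : ℝ) ^ (k - (i + 1)) ≤ 1 * (n : ℝ) ^ (k - i) := by
          rw [one_mul]
          exact pow_le_pow_right₀ hn1 (by omega)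
        exact ⟨(Rep.single (j := i + 1) hik h1).mono hc, (Rep.single (j := i + 1) hik h2).mono hc⟩
  | one =>
    refine ⟨∅, 0, Set.finite_empty, Set.empty_subset _, le_rfl, fun n _ => ?_⟩
    rw [inv_one, zero_mul]
    exact ⟨Rep.one le_rfl, Rep.one le_rfl⟩
  | mul g g' _ _ h h' =>
    obtain ⟨T, c, hT, hTF, hc, hr⟩ := h
    obtain ⟨T', c', hT', hTF', hc', hr'⟩ := h'
    refine ⟨T ∪ T', c + c', hT.union hT', Set.union_subset hTF hTF', add_nonneg hc hc',
      fun n hn => ?_⟩
    have m1 : ∀ j ≤ k, (fun j => if j = i then {y | y ∈ S ∨ y⁻¹ ∈ S} else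
        if j = i + 1 then T else ∅) j ⊆ (fun j => if j = i then {y | y ∈ S ∨ y⁻¹ ∈ S} else
        if j = i + 1 then T ∪ T' else ∅) j := by
      intro j _
      beta_reduce
      split_ifs
      · exact subset_rfl
      · exact Set.subset_union_left
      · exact subset_rfl
    have m2 : ∀ j ≤ k, (fun j => if j = i then {y | y ∈ S ∨ y⁻¹ ∈ S} else
        if j = i + 1 then T' else ∅) j ⊆ (fun j => if j = i then {y | y ∈ S ∨ y⁻¹ ∈ S} else
        if j = i + 1 then T ∪ T' else ∅) j := by
      intro j _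
      beta_reduce
      split_ifs
      · exact subset_rfl
      · exact Set.subset_union_right
      · exact subset_rfl
    obtain ⟨a1, a2⟩ := hr n hn
    obtain ⟨b1, b2⟩ := hr' n hn
    constructor
    · rw [add_mul]
      exact (a1.monoFam m1).mul (b1.monoFam m2)
    · rw [mul_inv_rev, add_comm c c', add_mul]
      exact (b2.monoFam m2).mul (a2.monoFam m1)
  | inv g _ h =>
    obtain ⟨T, c, hT, hTF, hc, hr⟩ := h
    refine ⟨T, c, hT, hTF, hc, fun n hn => ?_⟩
    rw [inv_inv]
    exact ⟨(hr n hn).2, (hr n hn).1⟩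

theorem pb_step {F : ℕ → Subgroup Γ} (hF : Filt F) {k i : ℕ} (hi : 1 ≤ i) (hik : i < k)
    (A : Subgroup Γ) (hAF : A ≤ F k) (φ : Γ → ℝ) (h : PB F k A φ (i + 1)) : PB F k A φ i := by
  have key : ∀ S : Finset Γ, (∀ y ∈ S, y ∈ F i) → ∀ X : ℕ → Set Γ, (∀ j, (X j).Finite) →
      (∀ j ≤ k, X j ⊆ F j) → (∀ j < i, X j = ∅) → X i ⊆ {y | y ∈ S ∨ y⁻¹ ∈ S} →
      ∀ K : ℝ, ∃ C : ℝ, ∀ n : ℕ, 1 ≤ n → ∀ z ∈ A,
        Rep (F (k + 1)) k X n (K * (n : ℝ) ^ k) z → |φ z| ≤ C * (n : ℝ) ^ k := by
    classical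
    intro S
    induction S using Finset.induction_on with
    | empty =>
      intro _ X hfin hXF hX0 hXi K
      refine h X hfin hXF (fun j hj => ?_) K
      rcases Nat.lt_or_ge j i with h1 | h1
      · exact hX0 j h1
      · have h2 : j = i := by omega
        subst h2
        refine Set.eq_empty_of_forall_notMem fun y hy => ?_
        have h3 := hXi hy
        simp at h3
    | insert x S hxS ih =>
      intro hSF X hfin hXF hX0 hXi K
      have hx : x ∈ F i := hSF x (Finset.mem_insert_self x S)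
      have hx' : x⁻¹ ∈ F i := (F i).inv_mem hx
      have hSF' : ∀ y ∈ S, y ∈ F i := fun y hy => hSF y (Finset.mem_insert_of_mem hy)
      obtain ⟨K0, hK0⟩ : ∃ K0 : ℝ, K0 = max K 0 := ⟨_, rfl⟩
      have hK00 : 0 ≤ K0 := hK0 ▸ le_max_right K 0
      have hK0K : K ≤ K0 := hK0 ▸ le_max_left K 0
      obtain ⟨K1, hK1⟩ : ∃ K1 : ℝ, K1 = Real.exp K0 * K0 := ⟨_, rfl⟩
      have hK10 : 0 ≤ K1 := hK1 ▸ mul_nonneg (Real.exp_pos _).le hK00
      obtain ⟨K2, hK2⟩ : ∃ K2 : ℝ, K2 = Real.exp K1 * K1 := ⟨_, rfl⟩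
      -- the two families
      have f1 := ext_finite hi hfin x
      have g1 := ext_level hF hi hXF hX0 hx
      have e1 := ext_lt hX0 x
      have i1 := ext_eq hi hX0 x
      have f2 := ext_finite hi f1 x⁻¹
      have g2 := ext_level hF hi g1 e1 hx'
      have e2 := ext_lt e1 x⁻¹
      have i2 := ext_eq hi e1 x⁻¹
      have s2 : ext (ext X i x) i x⁻¹ i ⊆ {y | y ∈ S ∨ y⁻¹ ∈ S} := by
        rw [i2, i1]
        rintro y ⟨⟨h1, h2⟩, h3⟩
        rw [Set.mem_singleton_iff] at h2 h3
        rcases hXi h1 with h4 | h4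
        · rcases Finset.mem_insert.1 h4 with h5 | h5
          · exact absurd h5 h2
          · exact Or.inl h5
        · rcases Finset.mem_insert.1 h4 with h5 | h5
          · exact absurd (by rw [← h5, inv_inv]) h3
          · exact Or.inr h5
      -- the subgroup
      obtain ⟨U, hU⟩ : ∃ U : Subgroup Γ,
        U = Subgroup.closure ((S : Set Γ) ∪ (F (i + 1) : Set Γ)) := ⟨_, rfl⟩
      have hSU : ∀ y ∈ S, y ∈ U :=
        fun y hy => hU ▸ Subgroup.subset_closure (Or.inl (Finset.mem_coe.2 hy))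
      have hFU : F (i + 1) ≤ U :=
        fun y hy => hU ▸ Subgroup.subset_closure (Or.inr hy)
      let L : AddSubgroup ℤ :=
        { carrier := {m | x ^ m ∈ U}
          zero_mem' := by
            change x ^ (0 : ℤ) ∈ U
            rw [zpow_zero]
            exact Subgroup.one_mem _
          add_mem' := by
            intro a b ha hb
            change x ^ (a + b) ∈ U
            rw [zpow_add]
            exact Subgroup.mul_mem _ ha hb
          neg_mem' := by
            intro a ha
            change x ^ (-a) ∈ U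
            rw [zpow_neg]
            exact Subgroup.inv_mem _ ha }
      obtain ⟨p, hp⟩ := Int.subgroup_cyclic L
      have hpU : x ^ p ∈ U := by
        have h1 : p ∈ L := by
          rw [hp]
          exact AddSubgroup.subset_closure rfl
        exact h1
      obtain ⟨T, c0, hT, hTF, hc0, hr⟩ := closure_rep (F := F) hik S (hU ▸ hpU)
      -- the family `X3`
      obtain ⟨Y, hY⟩ : ∃ Y : ℕ → Set Γ, Y = fun j => if j = i then {y | y ∈ S ∨ y⁻¹ ∈ S} else
        if j = i + 1 then T else ∅ := ⟨_, rfl⟩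
      have hYi : Y i = {y | y ∈ S ∨ y⁻¹ ∈ S} := by
        rw [hY]
        beta_reduce
        rw [if_pos rfl]
      have hYi1 : Y (i + 1) = T := by
        rw [hY]
        beta_reduce
        rw [if_neg (by omega), if_pos rfl]
      have hYj : ∀ j, j ≠ i → j ≠ i + 1 → Y j = ∅ := by
        intro j h1 h2
        rw [hY]
        beta_reduce
        rw [if_neg h1, if_neg h2]
      rw [← hY] at hr
      have hSfin : {y : Γ | y ∈ S ∨ y⁻¹ ∈ S}.Finite := by
        refine ((S.finite_toSet).union (S.image (·⁻¹)).finite_toSet).subset ?_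
        rintro y (h1 | h1)
        · exact Or.inl h1
        · refine Or.inr ?_
          rw [Finset.mem_coe, Finset.mem_image]
          exact ⟨y⁻¹, h1, inv_inv y⟩
      have hYfin : ∀ j, (Y j).Finite := by
        intro j
        by_cases h1 : j = i
        · rw [h1, hYi]; exact hSfin
        · by_cases h2 : j = i + 1
          · rw [h2, hYi1]; exact hT
          · rw [hYj j h1 h2]; exact Set.finite_empty
      have hYF : ∀ j ≤ k, Y j ⊆ F j := by
        intro j _
        by_cases h1 : j = i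
        · rw [h1, hYi]
          rintro y (h3 | h3)
          · exact hSF' y h3
          · have h4 := (F i).inv_mem (hSF' _ h3)
            rwa [inv_inv] at h4
        · by_cases h2 : j = i + 1
          · rw [h2, hYi1]; exact hTF
          · rw [hYj j h1 h2]; exact Set.empty_subset _
      obtain ⟨C, hC⟩ := ih hSF' (fun j => ext (ext X i x) i x⁻¹ j ∪ Y j)
        (fun j => (f2 j).union (hYfin j)) (fun j hj => Set.union_subset (g2 j hj) (hYF j hj))
        (fun j hj => by
          rw [e2 j hj, hYj j (by omega) (by omega), Set.union_empty])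
        (Set.union_subset s2 hYi.le) (c0 * (K0 + K1) + K2)
      refine ⟨C, fun n hn z hz hrep => hC n hn z hz ?_⟩
      have hnk : (0 : ℝ) ≤ (n : ℝ) ^ k := by positivity
      have hrep' : Rep (F (k + 1)) k X n (K0 * (n : ℝ) ^ k) z :=
        hrep.mono (mul_le_mul_of_nonneg_right hK0K hnk)
      obtain ⟨e, z1, hz1, he, hr1⟩ := move hF hi hik.le hXF hX0 hx n hn K0 hK00 le_rfl hrep'
      rw [← mul_assoc, ← hK1] at hr1
      obtain ⟨f, z2, hz2, hf, hr2⟩ := move hF hi hik.le g1 e1 hx' n hn K1 hK10 le_rfl hr1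
      rw [← mul_assoc, ← hK2] at hr2
      have hzm : z = x ^ ((e : ℤ) - f) * z2 := by
        rw [hz1, hz2, zpow_sub, zpow_natCast, zpow_natCast, inv_pow, mul_assoc]
      have hz2U : z2 ∈ U := by
        refine Rep.mem ((hF.anti (by omega : i + 1 ≤ k + 1)).trans hFU) ?_ hr2
        intro j hj y hy
        rcases lt_trichotomy j i with h1 | h1 | h1
        · rw [e2 j h1] at hy
          exact absurd hy (Set.notMem_empty y)
        · rw [h1] at hy
          rcases s2 hy with h3 | h3
          · exact hSU y h3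
          · have h4 := Subgroup.inv_mem _ (hSU _ h3)
            rwa [inv_inv] at h4
        · exact hFU (hF.anti (by omega : i + 1 ≤ j) (g2 j hj hy))
      have hzU : z ∈ U :=
        hFU (hF.anti (by omega : i + 1 ≤ k) (hAF hz))
      have hmL : (e : ℤ) - f ∈ L := by
        change x ^ ((e : ℤ) - f) ∈ U
        have h1 : x ^ ((e : ℤ) - f) = z * z2⁻¹ := by rw [hzm, mul_inv_cancel_right]
        rw [h1]
        exact Subgroup.mul_mem _ hzU (Subgroup.inv_mem _ hz2U)
      obtain ⟨m, hm1, hm2⟩ : ∃ m : ℤ, p * m = (e : ℤ) - f ∧ |m| ≤ |(e : ℤ) - f| := by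
        rw [hp, AddSubgroup.mem_closure_singleton] at hmL
        obtain ⟨m, hm⟩ := hmL
        rw [smul_eq_mul] at hm
        by_cases hp0 : p = 0
        · refine ⟨0, ?_, ?_⟩
          · rw [← hm, hp0]
            ring
          · rw [abs_zero]
            exact abs_nonneg _
        · refine ⟨m, by rw [← hm]; ring, ?_⟩
          rw [← hm, abs_mul]
          exact le_mul_of_one_le_right (abs_nonneg m) (Int.one_le_abs hp0)
      have hcost : (m.natAbs : ℝ) * (c0 * (n : ℝ) ^ (k - i)) ≤
          c0 * (K0 + K1) * (n : ℝ) ^ k := by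
        have h1 : (m.natAbs : ℝ) ≤ e + f := by
          have h2 : |(e : ℤ) - f| ≤ e + f := by
            rw [abs_le]
            constructor <;> omega
          have h3 : (m.natAbs : ℤ) ≤ e + f := by
            rw [Int.natCast_natAbs]
            exact hm2.trans h2
          exact_mod_cast h3
        have hnki : (0 : ℝ) ≤ (n : ℝ) ^ (k - i) := by positivity
        calc (m.natAbs : ℝ) * (c0 * (n : ℝ) ^ (k - i))
            ≤ (e + f) * (c0 * (n : ℝ) ^ (k - i)) :=
              mul_le_mul_of_nonneg_right h1 (mul_nonneg hc0 hnki)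
          _ = c0 * (e * (n : ℝ) ^ (k - i) + f * (n : ℝ) ^ (k - i)) := by ring
          _ ≤ c0 * (K0 * (n : ℝ) ^ k + K1 * (n : ℝ) ^ k) :=
              mul_le_mul_of_nonneg_left (add_le_add he hf) hc0
          _ = _ := by ring
      have hrm : Rep (F (k + 1)) k Y n (c0 * (K0 + K1) * (n : ℝ) ^ k) (x ^ ((e : ℤ) - f)) := by
        rw [← hm1, zpow_mul]
        rcases Int.natAbs_eq m with h1 | h1
        · rw [h1, zpow_natCast]
          exact ((hr n hn).1.pow _).mono hcost
        · rw [h1, zpow_neg, zpow_natCast, ← inv_pow]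
          exact ((hr n hn).2.pow _).mono hcost
      rw [hzm, add_mul]
      exact (hrm.monoFam fun j _ => Set.subset_union_right).mul
        (hr2.monoFam fun j _ => Set.subset_union_left)
  intro X hfin hXF hX0 K
  refine key (hfin i).toFinset (fun y hy => hXF i hik.le ((hfin i).mem_toFinset.1 hy)) X hfin hXF
    hX0 (fun y hy => Or.inl ((hfin i).mem_toFinset.2 hy)) K

end Pool.Agent.NilGeo
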