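import Mathlib
import Pool.Agent.NilGeo.Rep

set_option autoImplicit false

/-!
# Package NG9: the lower central series gives a filtration

`Subgroup.lowerCentralSeries S n` is indexed from 0: `lcs 0 = S`, `lcs (n + 1) = ⁅lcs n, S⁆`
(by `rfl`).

`comm_lcs`: `⁅lcs i, lcs j⁆ ≤ lcs (i + j + 1)` for `S = ⊤`. Induction on `j`, for all `i`. `j = 0`:
definition. Step: let `N = lcs (i + j + 2)` (normal). By induction
`⁅⁅⊤, lcs i⁆, lcs j⁆ = ⁅lcs (i + 1), lcs j⁆ ≤ N` (`Subgroup.commutator_comm`) and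
`⁅⁅lcs i, lcs j⁆, ⊤⁆ ≤ ⁅lcs (i + j + 1), ⊤⁆ = N`. The three subgroups lemma
`Subgroup.commutator_commutator_eq_bot_of_rotate` applied to the images in the quotient `Γ ⧸ N`
(`Subgroup.map_commutator`, `Subgroup.map_eq_bot_iff`/`QuotientGroup.ker_mk'`) with
`H₁ = lcs j`, `H₂ = ⊤`, `H₃ = lcs i` gives `⁅⁅lcs j, ⊤⁆, lcs i⁆ ≤ N`, i.e.
`⁅lcs i, lcs (j + 1)⁆ ≤ N`.

`filt_lcs`: for a central subgroup `A` the subgroups `Fil A k j = lcs (j - 1) ⊔ (A if j ≤ k, else ⊥)`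
(natural subtraction, so `Fil A k 0 = Fil A k 1 = ⊤` for `k ≥ 1`) form a filtration `Filt`.
* `anti`: `lowerCentralSeries_antitone`, and for `j ≤ j'`, `j' ≤ k` implies `j ≤ k`.
* `normal`: the sup of two normal subgroups; `A ≤ center Γ` is normal.
* `comm i j`: `x = x' a`, `h = h' b` with `x' ∈ lcs (i - 1)`, `h' ∈ lcs (j - 1)`, `a, b` central
  (`Subgroup.mem_sup` for the normal subgroup / `Subgroup.mul_mem_sup`; e.g.
  `Subgroup.mem_sup_of_normal_right`). Then `h⁻¹ x⁻¹ h x = h'⁻¹ x'⁻¹ h' x'`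
  `∈ ⁅lcs (j - 1), lcs (i - 1)⁆` (it is `⁅h'⁻¹, x'⁻¹⁆`) `≤ lcs (j - 1 + (i - 1) + 1) = lcs (j + i - 1)`.
-/

namespace Pool.Agent.NilGeo

variable {Γ : Type*} [Group Γ]

/-- The filtration of `Γ` given by the lower central series and a central subgroup `A`. -/
def Fil (A : Subgroup Γ) (k : ℕ) (j : ℕ) : Subgroup Γ :=
  (⊤ : Subgroup Γ).lowerCentralSeries (j - 1) ⊔ (if j ≤ k then A else ⊥)

theorem comm_lcs (i j : ℕ) :
    ⁅(⊤ : Subgroup Γ).lowerCentralSeries i, (⊤ : Subgroup Γ).lowerCentralSeries j⁆ ≤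
      (⊤ : Subgroup Γ).lowerCentralSeries (i + j + 1) := by
  induction j generalizing i with
  | zero => exact le_rfl
  | succ j ih =>
    set N := (⊤ : Subgroup Γ).lowerCentralSeries (i + (j + 1) + 1) with hN
    have h1 : ⁅⁅(⊤ : Subgroup Γ), (⊤ : Subgroup Γ).lowerCentralSeries i⁆,
        (⊤ : Subgroup Γ).lowerCentralSeries j⁆ ≤ N := by
      rw [Subgroup.commutator_comm ⊤]
      have h := ih (i + 1)
      rw [hN, show i + (j + 1) + 1 = (i + 1) + j + 1 by ring]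
      exact h
    have h2 : ⁅⁅(⊤ : Subgroup Γ).lowerCentralSeries i, (⊤ : Subgroup Γ).lowerCentralSeries j⁆,
        (⊤ : Subgroup Γ)⁆ ≤ N := Subgroup.commutator_mono (ih i) le_rfl
    have key : ∀ A B C : Subgroup Γ, ⁅⁅B, C⁆, A⁆ ≤ N → ⁅⁅C, A⁆, B⁆ ≤ N →
        ⁅⁅A, B⁆, C⁆ ≤ N := by
      intro A B C h1 h2
      have e : ∀ H : Subgroup Γ, H ≤ N ↔ H.map (QuotientGroup.mk' N) = ⊥ := by
        intro H
        rw [Subgroup.map_eq_bot_iff, QuotientGroup.ker_mk']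
      rw [e, Subgroup.map_commutator, Subgroup.map_commutator] at h1 h2 ⊢
      exact Subgroup.commutator_commutator_eq_bot_of_rotate h1 h2
    have h3 := key ((⊤ : Subgroup Γ).lowerCentralSeries j) ⊤
      ((⊤ : Subgroup Γ).lowerCentralSeries i) h1 h2
    rw [Subgroup.commutator_comm]
    exact h3

private theorem central_normal {B : Subgroup Γ} (hB : B ≤ Subgroup.center Γ) : B.Normal := by
  refine ⟨fun n hn g => ?_⟩
  have h := Subgroup.mem_center_iff.mp (hB hn) g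
  rw [h, mul_inv_cancel_right]
  exact hn

private theorem ite_central {A : Subgroup Γ} (hA : A ≤ Subgroup.center Γ) (k j : ℕ) :
    (if j ≤ k then A else ⊥) ≤ Subgroup.center Γ := by
  split_ifs
  · exact hA
  · exact bot_le

private theorem mem_fil {A : Subgroup Γ} (hA : A ≤ Subgroup.center Γ) {k j : ℕ} {x : Γ}
    (hx : x ∈ Fil A k j) : ∃ y ∈ (⊤ : Subgroup Γ).lowerCentralSeries (j - 1),
      ∃ a ∈ Subgroup.center Γ, y * a = x := by
  have hn := central_normal (ite_central hA k j)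
  unfold Fil at hx
  obtain ⟨y, hy, a, ha, rfl⟩ := Subgroup.mem_sup_of_normal_right.mp hx
  exact ⟨y, hy, a, ite_central hA k j ha, rfl⟩

open scoped commutatorElement in
private theorem mem_comm {H K : Subgroup Γ} {h x : Γ} (hh : h ∈ H) (hx : x ∈ K) :
    h⁻¹ * x⁻¹ * h * x ∈ ⁅H, K⁆ := by
  have h1 : ⁅h⁻¹, x⁻¹⁆ ∈ ⁅H, K⁆ := Subgroup.commutator_mem_commutator
    (Subgroup.inv_mem _ hh) (Subgroup.inv_mem _ hx)
  rw [commutatorElement_def, inv_inv, inv_inv] at h1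
  exact h1

theorem filt_lcs (A : Subgroup Γ) (hA : A ≤ Subgroup.center Γ) (k : ℕ) : Filt (Fil A k) := by
  refine ⟨?_, ?_, ?_⟩
  · intro j j' hj
    unfold Fil
    apply sup_le_sup
    · exact Subgroup.lowerCentralSeries_antitone _ (Nat.sub_le_sub_right hj 1)
    · by_cases h : j' ≤ k
      · rw [if_pos h, if_pos (hj.trans h)]
      · rw [if_neg h]
        exact bot_le
  · intro j
    have hn := central_normal (ite_central hA k j)
    unfold Fil
    infer_instance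
  · intro i j hi hj x hx h hh
    obtain ⟨x', hx', a, ha, rfl⟩ := mem_fil hA hx
    obtain ⟨h', hh', b, hb, rfl⟩ := mem_fil hA hh
    have ha' := Subgroup.mem_center_iff.mp ha
    have hb' := Subgroup.mem_center_iff.mp hb
    have ha'' := Subgroup.mem_center_iff.mp (Subgroup.inv_mem _ ha)
    have hb'' := Subgroup.mem_center_iff.mp (Subgroup.inv_mem _ hb)
    have e : (h' * b)⁻¹ * (x' * a)⁻¹ * (h' * b) * (x' * a) = h'⁻¹ * x'⁻¹ * h' * x' := by
      rw [mul_inv_rev, mul_inv_rev]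
      calc b⁻¹ * h'⁻¹ * (a⁻¹ * x'⁻¹) * (h' * b) * (x' * a)
          = b⁻¹ * (h'⁻¹ * (a⁻¹ * x'⁻¹) * h') * b * (x' * a) := by group
        _ = (h'⁻¹ * (a⁻¹ * x'⁻¹) * h') * b⁻¹ * b * (x' * a) := by
            rw [hb'' (h'⁻¹ * (a⁻¹ * x'⁻¹) * h')]
        _ = h'⁻¹ * a⁻¹ * (x'⁻¹ * h' * x') * a := by group
        _ = a⁻¹ * h'⁻¹ * (x'⁻¹ * h' * x') * a := by rw [ha'' h'⁻¹]
        _ = a⁻¹ * (h'⁻¹ * (x'⁻¹ * h' * x')) * a := by group
        _ = (h'⁻¹ * (x'⁻¹ * h' * x')) * a⁻¹ * a := by rw [ha'' (h'⁻¹ * (x'⁻¹ * h' * x'))]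
        _ = h'⁻¹ * x'⁻¹ * h' * x' := by group
    rw [e]
    have h1 : h'⁻¹ * x'⁻¹ * h' * x' ∈
        (⊤ : Subgroup Γ).lowerCentralSeries (j - 1 + (i - 1) + 1) :=
      comm_lcs (j - 1) (i - 1) (mem_comm hh' hx')
    rw [show j - 1 + (i - 1) + 1 = j + i - 1 by omega] at h1
    exact Subgroup.mem_sup_left h1

end Pool.Agent.NilGeo
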