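import Mathlib
import Pool.Agent.NilGeo.FiltLcs
import Pool.Agent.NilGeo.DStep

set_option autoImplicit false

/-!
# Package NG10: Lemma D

`dbound_type`: `A` central in `Γ`, `φ` additive on `A`, `φ = 0` on `A ∩ lcs k` (`k ≥ 1`; lower
central series indexed from 0), `X` finite: there is `C` with `|φ z| ≤ C n^k` for every `n ≥ 1` and
every `z ∈ A` which is a product of at most `n` elements of `X`.
Proof: `F = Fil A k`, `filt_lcs`. `A ≤ F k` and `F (k + 1) = lcs k ⊔ ⊥ = lcs k`. `pb_top` gives
`PB F k A φ k`; `pb_step` and downward induction (for all `i ≤ k` with `1 ≤ i`, e.g.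
`Nat.decreasingInduction` or induction on `k - i`) give `PB F k A φ 1`. Apply it to the family
`fun j => if j = 1 then X else ∅` (`X ⊆ F 1 = ⊤`) and `K = 1`: a list of length `≤ n` of elements
of `X` has a product with a representation of cost `length * n^(k-1) ≤ n^k` (induction on the list
with `Rep.letter`, then `Rep.mono`; `n * n^(k-1) = n^k`).

`dbound_sub`: the same for a subgroup `S` of a group `G`: `A ≤ S`, elements of `A` commute with the
elements of `S`. Apply `dbound_type` to `Γ = ↥S`, `A.subgroupOf S`, `φ ∘ Subtype.val`,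
the preimage of `X`; `Subgroup.top_subtype_lowerCentralSeries` translates membership in
`(⊤ : Subgroup ↥S).lowerCentralSeries k` into membership in `S.lowerCentralSeries k`; a list in
`G` of elements of `X ⊆ S` is lifted to `↥S` by `List.pmap`/`List.attach` (or: induction on the
list to produce the lift: `∃ l' : List ↥S, l'.map Subtype.val = l`, e.g.
`List.map_subtype_val`/`Subtype.exists_list`/`CanLift`: `lift l to List ↥S using h`).
-/

namespace Pool.Agent.NilGeo

theorem dbound_type {Γ : Type*} [Group Γ] (A : Subgroup Γ) (hA : A ≤ Subgroup.center Γ)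
    (φ : Γ → ℝ) (hφ : ∀ a ∈ A, ∀ b ∈ A, φ (a * b) = φ a + φ b) (k : ℕ) (hk : 1 ≤ k)
    (h0 : ∀ a ∈ A, a ∈ (⊤ : Subgroup Γ).lowerCentralSeries k → φ a = 0)
    (X : Set Γ) (hX : X.Finite) :
    ∃ C : ℝ, ∀ n : ℕ, 1 ≤ n → ∀ l : List Γ, l.length ≤ n → (∀ x ∈ l, x ∈ X) → l.prod ∈ A →
      |φ l.prod| ≤ C * (n : ℝ) ^ k := by
  have hF : Filt (Fil A k) := filt_lcs A hA k
  have hAF : A ≤ Fil A k k := by
    unfold Fil
    rw [if_pos le_rfl]
    exact le_sup_right
  have hk1 : Fil A k (k + 1) = (⊤ : Subgroup Γ).lowerCentralSeries k := by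
    unfold Fil
    rw [if_neg (by omega), sup_bot_eq, Nat.add_sub_cancel]
  have h0' : ∀ a ∈ A, a ∈ Fil A k (k + 1) → φ a = 0 := by
    intro a ha h
    rw [hk1] at h
    exact h0 a ha h
  have hPB : ∀ m : ℕ, m < k → PB (Fil A k) k A φ (k - m) := by
    intro m
    induction m with
    | zero => exact fun _ => pb_top hF hk A hAF φ hφ h0'
    | succ m ih =>
      intro hm
      have h1 := ih (by omega)
      rw [show k - m = k - (m + 1) + 1 by omega] at h1
      exact pb_step hF (by omega) (by omega) A hAF φ h1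
  have h1 : PB (Fil A k) k A φ 1 := by
    have h2 := hPB (k - 1) (by omega)
    rwa [show k - (k - 1) = 1 by omega] at h2
  have hX1 : ∀ j : ℕ, ((fun j : ℕ => if j = 1 then X else ∅) j).Finite := by
    intro j
    by_cases hj : j = 1
    · simp only [if_pos hj]
      exact hX
    · simp only [if_neg hj]
      exact Set.finite_empty
  have hX2 : ∀ j ≤ k, (fun j : ℕ => if j = 1 then X else ∅) j ⊆ Fil A k j := by
    intro j _ x hx
    by_cases hj : j = 1
    · subst hj
      unfold Fil
      exact Subgroup.mem_sup_left (Subgroup.mem_top x)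
    · simp only [if_neg hj] at hx
      exact absurd hx (Set.notMem_empty x)
  have hX3 : ∀ j < 1, (fun j : ℕ => if j = 1 then X else ∅) j = ∅ := by
    intro j hj
    simp only [if_neg (show ¬ j = 1 by omega)]
  obtain ⟨C, hC⟩ := h1 _ hX1 hX2 hX3 1
  refine ⟨C, fun n hn l hl hlX hlA => hC n hn _ hlA ?_⟩
  have h2 : ∀ l : List Γ, (∀ x ∈ l, x ∈ X) → Rep (Fil A k (k + 1)) k
      (fun j : ℕ => if j = 1 then X else ∅) n ((l.length : ℝ) * (n : ℝ) ^ (k - 1)) l.prod := by
    intro l
    induction l with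
    | nil =>
      intro _
      exact Rep.one (by simp)
    | cons x l ih =>
      intro h
      have h3 := Rep.letter (D := Fil A k (k + 1)) (X := fun j : ℕ => if j = 1 then X else ∅)
        (n := n) (x := x) hk (by
          simp only [if_pos rfl]
          exact h x List.mem_cons_self) (ih fun y hy => h y (List.mem_cons_of_mem x hy))
      rw [List.prod_cons]
      refine Rep.mono (le_of_eq ?_) h3
      rw [List.length_cons]
      push_cast
      ring
  refine Rep.mono ?_ (h2 l hlX)
  have h4 : (n : ℝ) ^ k = (n : ℝ) * (n : ℝ) ^ (k - 1) := by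
    rw [← pow_succ', Nat.sub_add_cancel hk]
  rw [one_mul, h4]
  exact mul_le_mul_of_nonneg_right (by exact_mod_cast hl) (by positivity)

theorem dbound_sub {G : Type*} [Group G] (S A : Subgroup G) (hAS : A ≤ S)
    (hA : ∀ a ∈ A, ∀ h ∈ S, a * h = h * a)
    (φ : G → ℝ) (hφ : ∀ a ∈ A, ∀ b ∈ A, φ (a * b) = φ a + φ b) (k : ℕ) (hk : 1 ≤ k)
    (h0 : ∀ a ∈ A, a ∈ S.lowerCentralSeries k → φ a = 0)
    (X : Set G) (hX : X.Finite) (hXS : X ⊆ S) :
    ∃ C : ℝ, ∀ n : ℕ, 1 ≤ n → ∀ l : List G, l.length ≤ n → (∀ x ∈ l, x ∈ X) → l.prod ∈ A →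
      |φ l.prod| ≤ C * (n : ℝ) ^ k := by
  obtain ⟨C, hC⟩ := dbound_type (Γ := S) (A.subgroupOf S) (fun a ha => by
      rw [Subgroup.mem_center_iff]
      intro g
      apply Subtype.ext
      exact (hA a (Subgroup.mem_subgroupOf.1 ha) g g.2).symm)
    (fun x => φ x)
    (fun a ha b hb => hφ a (Subgroup.mem_subgroupOf.1 ha) b (Subgroup.mem_subgroupOf.1 hb)) k hk
    (fun a ha h => h0 a (Subgroup.mem_subgroupOf.1 ha) (by
      rw [← Subgroup.top_subtype_lowerCentralSeries]
      exact Subgroup.mem_map_of_mem S.subtype h))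
    (Subtype.val ⁻¹' X) (hX.preimage Subtype.val_injective.injOn)
  refine ⟨C, fun n hn l hl hlX hlA => ?_⟩
  have h1 : ∀ l : List G, (∀ x ∈ l, x ∈ X) → ∃ l' : List S, l'.map Subtype.val = l := by
    intro l
    induction l with
    | nil => exact fun _ => ⟨[], rfl⟩
    | cons x l ih =>
      intro h
      obtain ⟨l', hl'⟩ := ih fun y hy => h y (List.mem_cons_of_mem x hy)
      exact ⟨⟨x, hXS (h x List.mem_cons_self)⟩ :: l', by rw [List.map_cons, hl']⟩
  obtain ⟨l', rfl⟩ := h1 l hlX
  have h2 : (l'.map Subtype.val).prod = (l'.prod : G) := by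
    rw [← Subgroup.coe_subtype, ← map_list_prod]
  rw [h2] at hlA ⊢
  rw [List.length_map] at hl
  exact hC n hn l' hl (fun x hx => hlX x (List.mem_map_of_mem hx)) (Subgroup.mem_subgroupOf.2 hlA)

end Pool.Agent.NilGeo
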