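import Mathlib
import Pool.Agent.NilGeo.Len
import Pool.Agent.NilGeo.DSub

set_option autoImplicit false

/-!
# Package NG15: elements of `A = lcs k` are not too short

`schreier`: `H` has finite index; there is `D` such that every `z ∈ H` is a product of
`len z + 1` elements of `H` of length at most `D`. Proof: choose `D₁` such that every coset `H g`
contains an element of length at most `D₁` (finitely many cosets: `H.FiniteIndex`, e.g. the finite
type of right cosets, or use `Subgroup.exists_right_transversal`/`G ⧸ H` and inverses). Take a word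
`w` with `V w = z`, `|w| = len z` (`len_exists`). For every prefix `p` of `w` choose `r` with
`len r ≤ D₁` and `(V p) r⁻¹ ∈ H`. Claim by induction on the prefix: there are a list `l` of `|p|`
elements of `H` of length `≤ 2 D₁ + 1` and `r` with `len r ≤ D₁`, `V p = l.prod * r`.
Start: `r = 1`.
Step: `V (p ++ [a]) = l.prod * (r * v a)`, `r * v a = h * r'`, `h = r (v a) r'⁻¹ ∈ H`,
`len h ≤ 2 D₁ + 1`. At the end `z = l.prod * r`, so `r ∈ H`: append `r`. `D = 2 D₁ + 1`.

`lower_A`: with `k ≥ 1`, `lcs (k + 1) = ⊥`, `ι` additive on `A = lcs k`: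
`‖ι z‖ ≤ C (len z)^(k+1)` for `z ∈ A`. Proof: `A ≤ H`; elements of `A` commute with elements of
`H` (`⁅a, h⁆ ∈ lcs (k + 1) = ⊥`). For each coordinate `φ z = ι z i`, apply `dbound_sub` with
`S = H`, exponent `k + 1`, `X = {h ∈ H | len h ≤ D}` (finite by `ball_finite`); the hypothesis `h0`:
`a ∈ lcs (k + 1) = ⊥` means `a = 1` and `φ 1 = 0`. With `n = len z + 1`:
`|ι z i| ≤ C_i (len z + 1)^(k+1)`. For `z = 1`, `ι z = 0`; for `z ≠ 1`, `len z ≥ 1`
(`eq_one_of_len_eq_zero`), so `len z + 1 ≤ 2 len z`. Finally `‖x‖ ≤ ∑ |x i|`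
(`EuclideanSpace.norm_eq`, or `‖x‖² = ∑ (x i)²` and `‖x‖ ≤ √r max`).
-/

namespace Pool.Agent.NilGeo

variable {G : Type*} [Group G] {α : Type*}

theorem schreier (v : α → G) (hsym : ∀ a, ∃ b, v b = (v a)⁻¹)
    (hsurj : ∀ g, ∃ w, val v w = g) (H : Subgroup G) [H.FiniteIndex] :
    ∃ D : ℕ, ∀ z ∈ H, ∃ l : List G, l.length = len v z + 1 ∧ l.prod = z ∧
      ∀ x ∈ l, x ∈ H ∧ len v x ≤ D := by
  haveI : Finite (G ⧸ H) := Subgroup.finite_quotient_of_finiteIndex
  obtain ⟨D₁, hD₁⟩ := Finite.exists_le (fun q : G ⧸ H => len v (q.out)⁻¹)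
  have hR : ∀ g : G, ∃ r, len v r ≤ D₁ ∧ g * r⁻¹ ∈ H := by
    intro g
    refine ⟨((g⁻¹ : G) : G ⧸ H).out⁻¹, hD₁ _, ?_⟩
    have h1 : (((g⁻¹ : G) : G ⧸ H).out : G ⧸ H) = ((g⁻¹ : G) : G ⧸ H) := Quotient.out_eq' _
    have h2 := QuotientGroup.eq.1 h1.symm
    simpa using h2
  have hclaim : ∀ w : List α, ∃ l : List G, ∃ r : G, l.length = w.length ∧ len v r ≤ D₁ ∧
      val v w = l.prod * r ∧ ∀ x ∈ l, x ∈ H ∧ len v x ≤ 2 * D₁ + 1 := by
    intro w
    induction w using List.reverseRecOn with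
    | nil => exact ⟨[], 1, rfl, by rw [len_one]; exact Nat.zero_le _, by simp, by simp⟩
    | append_singleton w a ih =>
      obtain ⟨l, r, hl, hr, hval, hx⟩ := ih
      obtain ⟨r', hr', hH⟩ := hR (r * v a)
      refine ⟨l ++ [r * v a * r'⁻¹], r', ?_, hr', ?_, ?_⟩
      · simp [hl]
      · rw [val_append, hval, val_singleton, List.prod_append, List.prod_singleton]
        group
      · intro x hxl
        rcases List.mem_append.1 hxl with h | h
        · exact hx x h
        · rw [List.mem_singleton.1 h]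
          refine ⟨hH, ?_⟩
          have h1 := len_mul_le v hsurj (r * v a) r'⁻¹
          have h2 := len_mul_le v hsurj r (v a)
          have h3 := len_letter v a
          have h4 := len_inv_le v hsym hsurj r'
          omega
  refine ⟨2 * D₁ + 1, fun z hz => ?_⟩
  obtain ⟨w, hw, hwl⟩ := len_exists v hsurj z
  obtain ⟨l, r, hl, hr, hval, hx⟩ := hclaim w
  have hlH : l.prod ∈ H := Subgroup.list_prod_mem H fun x hx' => (hx x hx').1
  have hzr : z = l.prod * r := hw.symm.trans hval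
  have hrH : r ∈ H := by
    have h1 : r = l.prod⁻¹ * z := by rw [hzr]; group
    rw [h1]
    exact H.mul_mem (H.inv_mem hlH) hz
  refine ⟨l ++ [r], ?_, ?_, ?_⟩
  · simp [hl, hwl]
  · rw [List.prod_append, List.prod_singleton, hzr]
  · intro x hxl
    rcases List.mem_append.1 hxl with h | h
    · exact hx x h
    · rw [List.mem_singleton.1 h]
      exact ⟨hrH, by omega⟩

private theorem norm_le_sum_abs {r : ℕ} (x : EuclideanSpace ℝ (Fin r)) :
    ‖x‖ ≤ ∑ i, |x i| := by
  rw [EuclideanSpace.norm_eq]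
  refine Real.sqrt_le_iff.2 ⟨Finset.sum_nonneg fun i _ => abs_nonneg _, ?_⟩
  simp only [Real.norm_eq_abs]
  exact Finset.sum_sq_le_sq_sum_of_nonneg fun i _ => abs_nonneg _

theorem lower_A [Finite α] (v : α → G) (hsym : ∀ a, ∃ b, v b = (v a)⁻¹)
    (hsurj : ∀ g, ∃ w, val v w = g) (H : Subgroup G) [H.Normal] [H.FiniteIndex] (k : ℕ)
    (hk : H.lowerCentralSeries (k + 1) = ⊥) {r : ℕ} (ι : G → EuclideanSpace ℝ (Fin r))
    (hι : ∀ a ∈ H.lowerCentralSeries k, ∀ b ∈ H.lowerCentralSeries k, ι (a * b) = ι a + ι b) :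
    ∃ C : ℝ, ∀ z ∈ H.lowerCentralSeries k, ‖ι z‖ ≤ C * (len v z : ℝ) ^ (k + 1) := by
  obtain ⟨D, hD⟩ := schreier v hsym hsurj H
  have hAH : H.lowerCentralSeries k ≤ H := by
    have h1 := H.lowerCentralSeries_antitone (Nat.zero_le k)
    rwa [Subgroup.lowerCentralSeries_zero] at h1
  have hcomm : ∀ a ∈ H.lowerCentralSeries k, ∀ h ∈ H, a * h = h * a := by
    intro a ha h hh
    have h1 := Subgroup.commutator_mem_commutator ha hh
    rw [← Subgroup.lowerCentralSeries_succ, hk, Subgroup.mem_bot] at h1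
    exact commutatorElement_eq_one_iff_mul_comm.1 h1
  have hι1 : ι 1 = 0 := by
    have h1 := hι 1 (one_mem _) 1 (one_mem _)
    rw [mul_one] at h1
    exact left_eq_add.1 h1
  have hX : {h : G | h ∈ H ∧ len v h ≤ D}.Finite :=
    (ball_finite v hsurj D).subset fun h hh => hh.2
  have hC : ∀ i : Fin r, ∃ C : ℝ, ∀ n : ℕ, 1 ≤ n → ∀ l : List G, l.length ≤ n →
      (∀ x ∈ l, x ∈ {h : G | h ∈ H ∧ len v h ≤ D}) → l.prod ∈ H.lowerCentralSeries k →
      |ι l.prod i| ≤ C * (n : ℝ) ^ (k + 1) := by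
    intro i
    refine dbound_sub H (H.lowerCentralSeries k) hAH hcomm (fun z => ι z i) ?_ (k + 1)
      (Nat.succ_le_succ (Nat.zero_le k)) ?_ _ hX fun h hh => hh.1
    · intro a ha b hb
      simp [hι a ha b hb]
    · intro a _ ha
      rw [hk, Subgroup.mem_bot] at ha
      simp [ha, hι1]
  choose C hC using hC
  refine ⟨2 ^ (k + 1) * ∑ i, |C i|, fun z hz => ?_⟩
  by_cases h1 : z = 1
  · simp [h1, hι1, len_one]
  · have hlen : 1 ≤ len v z := by
      rcases Nat.eq_zero_or_pos (len v z) with h | h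
      · exact absurd (eq_one_of_len_eq_zero v hsurj h) h1
      · exact h
    obtain ⟨l, hl, hlz, hx⟩ := hD z (hAH hz)
    have h2 : ∀ i, |ι z i| ≤ |C i| * ((len v z : ℝ) + 1) ^ (k + 1) := by
      intro i
      have h3 := hC i (len v z + 1) (by omega) l hl.le hx (by rw [hlz]; exact hz)
      rw [hlz] at h3
      push_cast at h3
      exact h3.trans (mul_le_mul_of_nonneg_right (le_abs_self _) (by positivity))
    have h4 : ((len v z : ℝ) + 1) ^ (k + 1) ≤ 2 ^ (k + 1) * (len v z : ℝ) ^ (k + 1) := by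
      rw [← mul_pow]
      refine pow_le_pow_left₀ (by positivity) ?_ _
      have h5 : (1 : ℝ) ≤ len v z := by exact_mod_cast hlen
      linarith
    calc ‖ι z‖ ≤ ∑ i, |ι z i| := norm_le_sum_abs _
      _ ≤ ∑ i, |C i| * ((len v z : ℝ) + 1) ^ (k + 1) := Finset.sum_le_sum fun i _ => h2 i
      _ = (∑ i, |C i|) * ((len v z : ℝ) + 1) ^ (k + 1) := by rw [Finset.sum_mul]
      _ ≤ (∑ i, |C i|) * (2 ^ (k + 1) * (len v z : ℝ) ^ (k + 1)) :=
          mul_le_mul_of_nonneg_left h4 (Finset.sum_nonneg fun i _ => abs_nonneg _)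
      _ = 2 ^ (k + 1) * (∑ i, |C i|) * (len v z : ℝ) ^ (k + 1) := by ring

end Pool.Agent.NilGeo
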