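import Mathlib
import Pool.Agent.NilGeo.Len

set_option autoImplicit false

/-!
# Package NG11: powers of elements of the lower central series are short

`H` is a normal subgroup of `G`, `lcs i = H.lowerCentralSeries i` (indexed from 0: `lcs 0 = H`,
`lcs (i + 1) = ⁅lcs i, H⁆`). `upper`: for every `y ∈ lcs i` there is `C` such that for all `a : ℤ`
there is `g ∈ lcs i` with `g⁻¹ * y ^ a ∈ lcs (i + 1)` and `(len g)^(i+1) ≤ C (|a| + 1)`.

Proof by induction on `i`. `i = 0`: `g = y ^ a`, `len g ≤ |a| len y` (`len_pow_le`, `len_inv_le`).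

Step `i → i + 1`. Call `y ∈ lcs (i + 1)` good if the claim holds for it. By
`Subgroup.closure_induction` (or `Subgroup.commutator_le` for a subgroup of good elements) it
suffices that commutators are good and that good elements are closed under products and inverses
(and `1` is good: `g = 1`).
* Products: `g₁ ≡ y₁^a`, `g₂ ≡ y₂^a` modulo `lcs (i + 2)`; then
  `g₁ g₂ ≡ y₁^a y₂^a ≡ (y₁ y₂)^a`, because `y₁, y₂ ∈ lcs (i + 1)` commute modulo `lcs (i + 2)`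
  (`y₂ ∈ H`). Length: `(len (g₁ g₂))^m ≤ (len g₁ + len g₂)^m ≤ 2^m ((len g₁)^m + (len g₂)^m)`.
* Inverses: `(y⁻¹)^a = y^(-a)`.
* `y = ⁅p, h⁆ = p h p⁻¹ h⁻¹` with `p ∈ lcs i`, `h ∈ H`. Let `a ≥ 0` first. Let `n ≥ 1` be a natural
  number with `a ≤ n^(i+2)` and `n^(i+2) ≤ 2^(i+2) (a + 1)` (for instance the least `n ≥ 1` with
  `a ≤ n^(i+2)`: then `n = 1` or `(n - 1)^(i+2) < a`, and `n ≤ 2 (n - 1)`). Write `a = n q + s`,
  `0 ≤ s < n`, so `q ≤ n^(i+1)`. By induction there are `g₁ ≡ p^q`, `g₂ ≡ p^s` modulo `lcs (i + 1)`,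
  in `lcs i`, with `(len g₁)^(i+1) ≤ C (q + 1) ≤ 2 C n^(i+1)` and
  `(len g₂)^(i+1) ≤ C (s + 1) ≤ 2 C n^(i+1)`, so `len g₁, len g₂ ≤ C' n` where
  `C' = max 1 (2 C)` (as `C'^(i+1) ≥ C'`). Put `g = ⁅g₁, h^n⁆ ⁅g₂, h⁆`. Modulo `N = lcs (i + 2)`
  (work in `G ⧸ N`, bars omitted): elements of `lcs (i + 1)` commute with elements of `H`; with
  `g₁ = p^q c`, `c ∈ lcs (i + 1)`: `⁅g₁, h^n⁆ = ⁅p^q, h^n⁆ = ⁅p, h⁆^(q n)` since `⁅p, h⁆` commutes
  with `p` and `h`; likewise `⁅g₂, h⁆ = ⁅p, h⁆^s`. So `g ≡ y^(qn + s) = y^a`. And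
  `len g ≤ 2 len g₁ + 2 n len h + 2 len g₂ + 2 len h ≤ (4 C' + 4 len h) n`, so
  `(len g)^(i+2) ≤ (4 C' + 4 len h)^(i+2) n^(i+2) ≤ C'' (a + 1)`.
  For `a < 0` take the inverse of the element for `-a` (`N` is normal; `g ≡ y^(-a)` implies
  `g⁻¹ ≡ y^a`).
-/

open scoped commutatorElement

namespace Pool.Agent.NilGeo

variable {G : Type*} [Group G] {α : Type*}

/-- If `z = ⁅p, h⁆` commutes with `p` and `h`, then `⁅p^q, h^n⁆ = z^(q n)`. -/
theorem comm_pow_pow (p h : G) (hp : ⁅p, h⁆ * p = p * ⁅p, h⁆) (hh : ⁅p, h⁆ * h = h * ⁅p, h⁆)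
    (q n : ℕ) : ⁅p ^ q, h ^ n⁆ = ⁅p, h⁆ ^ (q * n) := by
  obtain ⟨z, hz⟩ : ∃ z, z = ⁅p, h⁆ := ⟨_, rfl⟩
  rw [← hz] at hp hh ⊢
  have hph : p * h = z * h * p := by
    rw [hz, commutatorElement_def]; group
  have hcp : Commute z p := hp
  have hch : Commute z h := hh
  have h1 : ∀ n : ℕ, p * h ^ n = z ^ n * h ^ n * p := by
    intro n
    induction n with
    | zero => simp
    | succ n ih =>
      calc p * h ^ (n + 1) = (p * h ^ n) * h := by rw [pow_succ, mul_assoc]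
        _ = z ^ n * h ^ n * (p * h) := by rw [ih]; group
        _ = z ^ n * (h ^ n * z) * h * p := by rw [hph]; group
        _ = z ^ n * (z * h ^ n) * h * p := by rw [((hch.pow_right n).eq)]
        _ = z ^ (n + 1) * h ^ (n + 1) * p := by rw [pow_succ z, pow_succ h]; group
  have h2 : ∀ q : ℕ, p ^ q * h ^ n = z ^ (q * n) * h ^ n * p ^ q := by
    intro q
    induction q with
    | zero => simp
    | succ q ih =>
      calc p ^ (q + 1) * h ^ n = p * (p ^ q * h ^ n) := by rw [pow_succ', mul_assoc]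
        _ = (p * z ^ (q * n)) * h ^ n * p ^ q := by rw [ih]; group
        _ = (z ^ (q * n) * p) * h ^ n * p ^ q := by rw [((hcp.symm.pow_right (q * n)).eq)]
        _ = z ^ (q * n) * (p * h ^ n) * p ^ q := by group
        _ = z ^ (q * n) * (z ^ n * h ^ n * p) * p ^ q := by rw [h1]
        _ = z ^ ((q + 1) * n) * h ^ n * p ^ (q + 1) := by
          rw [add_mul, one_mul, pow_add z, pow_succ' p]; group
  rw [commutatorElement_def, h2 q]
  group

private theorem lcs_normal (H : Subgroup G) [hH : H.Normal] (i : ℕ) :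
    (H.lowerCentralSeries i).Normal := by
  induction i with
  | zero => exact hH
  | succ i ih =>
    rw [Subgroup.lowerCentralSeries_succ]
    have := ih
    infer_instance

private def Good (v : α → G) (H : Subgroup G) (m : ℕ) (y : G) : Prop :=
  ∃ C : ℝ, ∀ a : ℤ, ∃ g ∈ H.lowerCentralSeries m,
      g⁻¹ * y ^ a ∈ H.lowerCentralSeries (m + 1) ∧
      (len v g : ℝ) ^ (m + 1) ≤ C * (|(a : ℝ)| + 1)

private theorem good_of_nat (v : α → G) (hsym : ∀ a, ∃ b, v b = (v a)⁻¹)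
    (hsurj : ∀ g, ∃ w, val v w = g) (H : Subgroup G) [H.Normal] (m : ℕ) (y : G)
    (C : ℝ) (hC : ∀ a : ℕ, ∃ g ∈ H.lowerCentralSeries m,
      g⁻¹ * y ^ a ∈ H.lowerCentralSeries (m + 1) ∧
      (len v g : ℝ) ^ (m + 1) ≤ C * ((a : ℝ) + 1)) : Good v H m y := by
  have : (H.lowerCentralSeries (m + 1)).Normal := lcs_normal H (m + 1)
  refine ⟨C, fun a => ?_⟩
  obtain ⟨n, rfl | rfl⟩ := a.eq_nat_or_neg
  · obtain ⟨g, hg, h1, h2⟩ := hC n
    refine ⟨g, hg, by simpa using h1, ?_⟩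
    simpa using h2
  · obtain ⟨g, hg, h1, h2⟩ := hC n
    refine ⟨g⁻¹, inv_mem hg, ?_, ?_⟩
    · rw [← QuotientGroup.eq] at h1 ⊢
      rw [zpow_neg, zpow_natCast, QuotientGroup.mk_inv, QuotientGroup.mk_inv, h1]
    · have h3 : (len v g⁻¹ : ℝ) ≤ len v g := by exact_mod_cast len_inv_le v hsym hsurj g
      have h4 : (len v g⁻¹ : ℝ) ^ (m + 1) ≤ (len v g : ℝ) ^ (m + 1) :=
        pow_le_pow_left₀ (by positivity) h3 _
      refine h4.trans (h2.trans (le_of_eq ?_))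
      simp

private theorem comm_mod (H : Subgroup G) [H.Normal] (m : ℕ)
    [(H.lowerCentralSeries (m + 1)).Normal] {x y : G} (hx : x ∈ H.lowerCentralSeries m)
    (hy : y ∈ H) : (x : G ⧸ H.lowerCentralSeries (m + 1)) * y = y * x := by
  have h1 : ⁅x, y⁆ ∈ H.lowerCentralSeries (m + 1) := by
    rw [Subgroup.lowerCentralSeries_succ]
    exact Subgroup.commutator_mem_commutator hx hy
  have h2 : ((⁅x, y⁆ : G) : G ⧸ H.lowerCentralSeries (m + 1)) = 1 :=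
    (QuotientGroup.eq_one_iff _).2 h1
  have h3 : x * y = ⁅x, y⁆ * (y * x) := by rw [commutatorElement_def]; group
  rw [← QuotientGroup.mk_mul, h3, QuotientGroup.mk_mul, h2, one_mul, QuotientGroup.mk_mul]

private theorem good_one (v : α → G) (H : Subgroup G) (m : ℕ) : Good v H m 1 := by
  refine ⟨0, fun a => ⟨1, one_mem _, by simp, ?_⟩⟩
  rw [len_one]
  simp

private theorem good_inv (v : α → G) (H : Subgroup G) (m : ℕ) (y : G)
    (h : Good v H m y) : Good v H m y⁻¹ := by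
  obtain ⟨C, hC⟩ := h
  refine ⟨C, fun a => ?_⟩
  obtain ⟨g, hg, h1, h2⟩ := hC (-a)
  refine ⟨g, hg, by simpa using h1, by simpa using h2⟩

private theorem good_mul (v : α → G) (hsurj : ∀ g, ∃ w, val v w = g) (H : Subgroup G)
    [H.Normal] (m : ℕ) (y₁ y₂ : G) (hy₁ : y₁ ∈ H.lowerCentralSeries m)
    (hy₂ : y₂ ∈ H.lowerCentralSeries m)
    (h₁ : Good v H m y₁) (h₂ : Good v H m y₂) : Good v H m (y₁ * y₂) := by
  have : (H.lowerCentralSeries (m + 1)).Normal := lcs_normal H (m + 1)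
  obtain ⟨C₁, hC₁⟩ := h₁
  obtain ⟨C₂, hC₂⟩ := h₂
  refine ⟨2 ^ m * (C₁ + C₂), fun a => ?_⟩
  obtain ⟨g₁, hg₁, h1, h1'⟩ := hC₁ a
  obtain ⟨g₂, hg₂, h2, h2'⟩ := hC₂ a
  refine ⟨g₁ * g₂, mul_mem hg₁ hg₂, ?_, ?_⟩
  · rw [← QuotientGroup.eq] at h1 h2 ⊢
    have hc : Commute (y₁ : G ⧸ H.lowerCentralSeries (m + 1)) y₂ :=
      comm_mod H m hy₁ (H.lowerCentralSeries_le_self m hy₂)
    rw [QuotientGroup.mk_mul, h1, h2, QuotientGroup.mk_zpow, QuotientGroup.mk_zpow,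
      QuotientGroup.mk_zpow, QuotientGroup.mk_mul, hc.mul_zpow]
  · have h3 : (len v (g₁ * g₂) : ℝ) ≤ len v g₁ + len v g₂ := by
      exact_mod_cast len_mul_le v hsurj g₁ g₂
    have h4 : (len v (g₁ * g₂) : ℝ) ^ (m + 1) ≤ ((len v g₁ : ℝ) + len v g₂) ^ (m + 1) :=
      pow_le_pow_left₀ (by positivity) h3 _
    have h5 : ((len v g₁ : ℝ) + len v g₂) ^ (m + 1) ≤
        2 ^ (m + 1 - 1) * ((len v g₁ : ℝ) ^ (m + 1) + (len v g₂ : ℝ) ^ (m + 1)) :=
      add_pow_le (by positivity) (by positivity) _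
    rw [Nat.add_sub_cancel] at h5
    refine h4.trans (h5.trans ?_)
    rw [mul_assoc, add_mul]
    gcongr

/-- A natural number `n ≥ 1` with `a ≤ n ^ k ≤ 2 ^ k (a + 1)`. -/
private theorem exists_root (k a : ℕ) (hk : 1 ≤ k) :
    ∃ n : ℕ, 1 ≤ n ∧ a ≤ n ^ k ∧ n ^ k ≤ 2 ^ k * (a + 1) := by
  have hex : ∃ n : ℕ, 1 ≤ n ∧ a ≤ n ^ k :=
    ⟨a + 1, by omega, (Nat.le_succ a).trans (Nat.le_self_pow (by omega) _)⟩
  classical
  obtain ⟨h1, h2⟩ := Nat.find_spec hex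
  refine ⟨Nat.find hex, h1, h2, ?_⟩
  obtain ⟨n, hn⟩ : ∃ n, n = Nat.find hex := ⟨_, rfl⟩
  rw [← hn] at h1 h2 ⊢
  rcases Nat.lt_or_ge 1 n with h3 | h3
  · have h4 : ¬ (1 ≤ n - 1 ∧ a ≤ (n - 1) ^ k) := Nat.find_min hex (by omega)
    have h5 : (n - 1) ^ k < a := by
      by_contra h6
      exact h4 ⟨by omega, not_lt.1 h6⟩
    calc n ^ k ≤ (2 * (n - 1)) ^ k := Nat.pow_le_pow_left (by omega) k
      _ = 2 ^ k * (n - 1) ^ k := mul_pow _ _ _
      _ ≤ 2 ^ k * (a + 1) := Nat.mul_le_mul_left _ (by omega)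
  · have h4 : n = 1 := by omega
    rw [h4, one_pow]
    exact Nat.one_le_iff_ne_zero.2 (by positivity)

private theorem len_comm_le (v : α → G) (hsym : ∀ a, ∃ b, v b = (v a)⁻¹)
    (hsurj : ∀ g, ∃ w, val v w = g) (x y : G) :
    len v ⁅x, y⁆ ≤ 2 * len v x + 2 * len v y := by
  rw [commutatorElement_def]
  have h1 := len_mul_le v hsurj (x * y * x⁻¹) y⁻¹
  have h2 := len_mul_le v hsurj (x * y) x⁻¹
  have h3 := len_mul_le v hsurj x y
  have h4 := len_inv_le v hsym hsurj x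
  have h5 := len_inv_le v hsym hsurj y
  omega

private theorem good_comm (v : α → G) (hsym : ∀ a, ∃ b, v b = (v a)⁻¹)
    (hsurj : ∀ g, ∃ w, val v w = g) (H : Subgroup G) [H.Normal] (i : ℕ) (p h : G)
    (hp : p ∈ H.lowerCentralSeries i) (hh : h ∈ H) (hgood : Good v H i p) :
    Good v H (i + 1) ⁅p, h⁆ := by
  have : (H.lowerCentralSeries (i + 1)).Normal := lcs_normal H (i + 1)
  have hN : (H.lowerCentralSeries (i + 1 + 1)).Normal := lcs_normal H (i + 1 + 1)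
  obtain ⟨C, hC⟩ := hgood
  obtain ⟨C', hC'⟩ : ∃ C', C' = max 1 (2 * C) := ⟨_, rfl⟩
  have hC1 : 1 ≤ C' := hC' ▸ le_max_left _ _
  have hC2 : 2 * C ≤ C' := hC' ▸ le_max_right _ _
  have hC3 : C' ≤ C' ^ (i + 1) := le_self_pow₀ hC1 (by omega)
  have hC0 : 0 ≤ C := by
    obtain ⟨g, -, -, h2⟩ := hC 0
    have h3 : (0 : ℝ) ≤ (len v g : ℝ) ^ (i + 1) := by positivity
    simpa using h3.trans h2
  have hshort : ∀ n r : ℕ, 1 ≤ n → r ≤ n ^ (i + 1) → ∃ g ∈ H.lowerCentralSeries i,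
      g⁻¹ * p ^ r ∈ H.lowerCentralSeries (i + 1) ∧ (len v g : ℝ) ≤ C' * n := by
    intro n r hn hr
    obtain ⟨g, hg, h1, h2⟩ := hC r
    refine ⟨g, hg, by simpa using h1, ?_⟩
    have hn' : (1 : ℝ) ≤ (n : ℝ) ^ (i + 1) := one_le_pow₀ (by exact_mod_cast hn)
    have hr' : (r : ℝ) ≤ (n : ℝ) ^ (i + 1) := by exact_mod_cast hr
    have h3 : (len v g : ℝ) ^ (i + 1) ≤ (C' * n) ^ (i + 1) := by
      calc (len v g : ℝ) ^ (i + 1) ≤ C * (|((r : ℤ) : ℝ)| + 1) := h2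
        _ = C * ((r : ℝ) + 1) := by simp
        _ ≤ C * ((n : ℝ) ^ (i + 1) + (n : ℝ) ^ (i + 1)) := by gcongr
        _ = (2 * C) * (n : ℝ) ^ (i + 1) := by ring
        _ ≤ C' ^ (i + 1) * (n : ℝ) ^ (i + 1) := by
          gcongr
          exact hC2.trans hC3
        _ = (C' * n) ^ (i + 1) := (mul_pow _ _ _).symm
    exact le_of_pow_le_pow_left₀ (by omega) (by positivity) h3
  have hz : ⁅p, h⁆ ∈ H.lowerCentralSeries (i + 1) := by
    rw [Subgroup.lowerCentralSeries_succ]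
    exact Subgroup.commutator_mem_commutator hp hh
  have hpH : p ∈ H := H.lowerCentralSeries_le_self i hp
  refine good_of_nat v hsym hsurj H (i + 1) ⁅p, h⁆
    ((4 * C' + 4 * len v h) ^ (i + 1 + 1) * 2 ^ (i + 1 + 1)) (fun a => ?_)
  obtain ⟨n, hn1, hn2, hn3⟩ := exists_root (i + 1 + 1) a (by omega)
  obtain ⟨g₁, hg₁, h1, h1'⟩ := hshort n (a / n) hn1 (by
    apply Nat.div_le_of_le_mul
    rw [← pow_succ']
    exact hn2)
  obtain ⟨g₂, hg₂, h2, h2'⟩ := hshort n (a % n) hn1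
    ((Nat.mod_lt a hn1).le.trans (Nat.le_self_pow (by omega) _))
  refine ⟨⁅g₁, h ^ n⁆ * ⁅g₂, h⁆, ?_, ?_, ?_⟩
  · rw [Subgroup.lowerCentralSeries_succ]
    exact mul_mem (Subgroup.commutator_mem_commutator hg₁ (pow_mem hh n))
      (Subgroup.commutator_mem_commutator hg₂ hh)
  · rw [← QuotientGroup.eq]
    have key : ∀ (g : G) (r s : ℕ), g⁻¹ * p ^ r ∈ H.lowerCentralSeries (i + 1) →
        ((⁅g, h ^ s⁆ : G) : G ⧸ H.lowerCentralSeries (i + 1 + 1)) =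
          ((⁅p, h⁆ : G) : G ⧸ H.lowerCentralSeries (i + 1 + 1)) ^ (r * s) := by
      intro g r s hg
      have hc : (g⁻¹ * p ^ r)⁻¹ ∈ H.lowerCentralSeries (i + 1) := inv_mem hg
      obtain ⟨c, hcc⟩ : ∃ c, c = (g⁻¹ * p ^ r)⁻¹ := ⟨_, rfl⟩
      rw [← hcc] at hc
      have hg' : g = p ^ r * c := by rw [hcc]; group
      have hcomm := comm_mod H (i + 1) hc (pow_mem hh s)
      have hzp := comm_mod H (i + 1) hz hpH
      have hzh := comm_mod H (i + 1) hz hh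
      have hmk : ∀ x y : G, ((⁅x, y⁆ : G) : G ⧸ H.lowerCentralSeries (i + 1 + 1)) =
          ⁅(x : G ⧸ H.lowerCentralSeries (i + 1 + 1)), (y : G ⧸ _)⁆ := fun x y => rfl
      have h5 := comm_pow_pow (p : G ⧸ H.lowerCentralSeries (i + 1 + 1)) (h : G ⧸ _)
        (by rw [← hmk]; exact hzp) (by rw [← hmk]; exact hzh) r s
      rw [hmk p h, ← h5, hmk, hg', QuotientGroup.mk_mul, QuotientGroup.mk_pow,
        QuotientGroup.mk_pow, commutatorElement_def, commutatorElement_def]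
      rw [QuotientGroup.mk_pow] at hcomm
      calc (p : G ⧸ H.lowerCentralSeries (i + 1 + 1)) ^ r * (c : G ⧸ _) * (h : G ⧸ _) ^ s *
            ((p : G ⧸ _) ^ r * (c : G ⧸ _))⁻¹ * ((h : G ⧸ _) ^ s)⁻¹
          = (p : G ⧸ H.lowerCentralSeries (i + 1 + 1)) ^ r *
            ((c : G ⧸ _) * (h : G ⧸ _) ^ s) * ((c : G ⧸ _))⁻¹ * ((p : G ⧸ _) ^ r)⁻¹ *
              ((h : G ⧸ _) ^ s)⁻¹ := by group
        _ = (p : G ⧸ H.lowerCentralSeries (i + 1 + 1)) ^ r *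
            ((h : G ⧸ _) ^ s * (c : G ⧸ _)) * ((c : G ⧸ _))⁻¹ * ((p : G ⧸ _) ^ r)⁻¹ *
              ((h : G ⧸ _) ^ s)⁻¹ := by rw [hcomm]
        _ = _ := by group
    have k1 := key g₁ (a / n) n h1
    have k2 := key g₂ (a % n) 1 h2
    rw [pow_one, mul_one] at k2
    rw [QuotientGroup.mk_mul, k1, k2, ← pow_add, QuotientGroup.mk_pow]
    congr 1
    rw [mul_comm]
    exact Nat.div_add_mod a n
  · have hn0 : (1 : ℝ) ≤ (n : ℝ) := by exact_mod_cast hn1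
    have hlh : (0 : ℝ) ≤ (len v h : ℝ) := by positivity
    have e1 : (len v (⁅g₁, h ^ n⁆ * ⁅g₂, h⁆) : ℝ) ≤ (4 * C' + 4 * len v h) * n := by
      have f1 : (len v (⁅g₁, h ^ n⁆ * ⁅g₂, h⁆) : ℝ) ≤ len v ⁅g₁, h ^ n⁆ + len v ⁅g₂, h⁆ := by
        exact_mod_cast len_mul_le v hsurj _ _
      have f2 : (len v ⁅g₁, h ^ n⁆ : ℝ) ≤ 2 * len v g₁ + 2 * len v (h ^ n) := by
        exact_mod_cast len_comm_le v hsym hsurj _ _
      have f3 : (len v ⁅g₂, h⁆ : ℝ) ≤ 2 * len v g₂ + 2 * len v h := by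
        exact_mod_cast len_comm_le v hsym hsurj _ _
      have f4 : (len v (h ^ n) : ℝ) ≤ n * len v h := by
        exact_mod_cast len_pow_le v hsurj h n
      have f5 : (len v h : ℝ) ≤ n * len v h := by nlinarith
      linarith
    calc (len v (⁅g₁, h ^ n⁆ * ⁅g₂, h⁆) : ℝ) ^ (i + 1 + 1)
        ≤ ((4 * C' + 4 * len v h) * n) ^ (i + 1 + 1) := pow_le_pow_left₀ (by positivity) e1 _
      _ = (4 * C' + 4 * len v h) ^ (i + 1 + 1) * (n : ℝ) ^ (i + 1 + 1) := mul_pow _ _ _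
      _ ≤ (4 * C' + 4 * len v h) ^ (i + 1 + 1) * (2 ^ (i + 1 + 1) * ((a : ℝ) + 1)) := by
        gcongr
        exact_mod_cast hn3
      _ = _ := by ring

theorem upper (v : α → G) (hsym : ∀ a, ∃ b, v b = (v a)⁻¹)
    (hsurj : ∀ g, ∃ w, val v w = g) (H : Subgroup G) [H.Normal] (i : ℕ) :
    ∀ y ∈ H.lowerCentralSeries i, ∃ C : ℝ, ∀ a : ℤ, ∃ g ∈ H.lowerCentralSeries i,
      g⁻¹ * y ^ a ∈ H.lowerCentralSeries (i + 1) ∧
      (len v g : ℝ) ^ (i + 1) ≤ C * (|(a : ℝ)| + 1) := by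
  induction i with
  | zero =>
    intro y hy
    refine good_of_nat v hsym hsurj H 0 y (len v y) (fun a => ⟨y ^ a, pow_mem hy a, ?_, ?_⟩)
    · simp
    · have h1 : (len v (y ^ a) : ℝ) ≤ a * len v y := by exact_mod_cast len_pow_le v hsurj y a
      have h2 : (0 : ℝ) ≤ (len v y : ℝ) := by positivity
      rw [zero_add, pow_one]
      nlinarith
  | succ i ih =>
    intro y hy
    suffices hs : y ∈ H.lowerCentralSeries (i + 1) ∧ Good v H (i + 1) y from hs.2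
    rw [Subgroup.mem_lowerCentralSeries_succ_iff] at hy
    induction hy using Subgroup.closure_induction with
    | mem x hx =>
      obtain ⟨p, hp, h, hh, rfl⟩ := hx
      refine ⟨?_, good_comm v hsym hsurj H i p h hp hh (ih p hp)⟩
      rw [Subgroup.lowerCentralSeries_succ]
      exact Subgroup.commutator_mem_commutator hp hh
    | one => exact ⟨one_mem _, good_one v H (i + 1)⟩
    | mul x y _ _ hx hy =>
      exact ⟨mul_mem hx.1 hy.1, good_mul v hsurj H (i + 1) x y hx.1 hy.1 hx.2 hy.2⟩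
    | inv x _ hx => exact ⟨inv_mem hx.1, good_inv v H (i + 1) x hx.2⟩

end Pool.Agent.NilGeo
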