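import Mathlib
import Pool.Agent.NilGeo.Upper

set_option autoImplicit false

/-!
# Package NG14: elements of `A = lcs k` are short

`lcs (k + 1) = ⊥`. By `upper` (with `i = k`), for `y ∈ lcs k` and `a : ℤ` the element `g` given
there is `y ^ a` itself, so `(len (y ^ a))^(k+1) ≤ C_y (|a| + 1)`. Write
`z = ∏ y i ^ m i * τ` as in the hypothesis `hdec`. `len` is subadditive (`len_mul_le`, induction on
the list / `List.ofFn`), so `len z ≤ ∑ len (y i ^ m i) + len τ`, where every term satisfies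
`(term)^(k+1) ≤ C (‖ι z‖ + 1)` with a common `C` (`T` is finite, `Fin r` is finite,
`|m i| ≤ ‖ι z‖`). Let `m₀` be the largest of these `r + 1` terms; then `len z ≤ (r + 1) m₀` and
`(len z)^(k+1) ≤ (r + 1)^(k+1) m₀^(k+1) ≤ (r + 1)^(k+1) C (‖ι z‖ + 1)`.
-/

namespace Pool.Agent.NilGeo

variable {G : Type*} [Group G] {α : Type*}

private theorem len_ofFn (v : α → G) (hsurj : ∀ g, ∃ w, val v w = g) :
    ∀ (r : ℕ) (f : Fin r → G), len v (List.ofFn f).prod ≤ ∑ i, len v (f i)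
  | 0, f => by simp [len_one]
  | r + 1, f => by
    rw [List.ofFn_succ, List.prod_cons, Fin.sum_univ_succ]
    exact (len_mul_le v hsurj _ _).trans
      (Nat.add_le_add_left (len_ofFn v hsurj r fun i => f i.succ) _)

theorem upper_A (v : α → G) (hsym : ∀ a, ∃ b, v b = (v a)⁻¹)
    (hsurj : ∀ g, ∃ w, val v w = g) (H : Subgroup G) [H.Normal] (k : ℕ)
    (hk : H.lowerCentralSeries (k + 1) = ⊥) {r : ℕ} (ι : G → EuclideanSpace ℝ (Fin r))
    (y : Fin r → G) (T : Set G) (hy : ∀ i, y i ∈ H.lowerCentralSeries k) (hT : T.Finite)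
    (hdec : ∀ z ∈ H.lowerCentralSeries k, ∃ m : Fin r → ℤ, ∃ τ ∈ T,
      z = (List.ofFn fun i => y i ^ m i).prod * τ ∧ ∀ i, |(m i : ℝ)| ≤ ‖ι z‖) :
    ∃ C : ℝ, ∀ z ∈ H.lowerCentralSeries k, (len v z : ℝ) ^ (k + 1) ≤ C * (‖ι z‖ + 1) := by
  classical
  have h1 : ∀ i, ∃ C : ℝ, ∀ a : ℤ, (len v (y i ^ a) : ℝ) ^ (k + 1) ≤ C * (|(a : ℝ)| + 1) := by
    intro i
    obtain ⟨C, hC⟩ := upper v hsym hsurj H k (y i) (hy i)
    refine ⟨C, fun a => ?_⟩
    obtain ⟨g, -, hg, hl⟩ := hC a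
    rw [hk, Subgroup.mem_bot] at hg
    have h2 : y i ^ a = g := by
      have h3 := congrArg (fun x => g * x) hg
      simpa using h3
    rw [h2]
    exact hl
  choose C hC using h1
  have hC0 : ∀ i, 0 ≤ C i := by
    intro i
    have h2 := hC i 0
    have h3 : (0 : ℝ) ≤ (len v (y i ^ (0 : ℤ)) : ℝ) ^ (k + 1) := by positivity
    simp only [Int.cast_zero, abs_zero, zero_add, mul_one] at h2
    exact h3.trans h2
  set D : ℝ := ∑ i, C i + ∑ τ ∈ hT.toFinset, (len v τ : ℝ) ^ (k + 1) with hD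
  have hD2 : 0 ≤ ∑ τ ∈ hT.toFinset, (len v τ : ℝ) ^ (k + 1) :=
    Finset.sum_nonneg fun _ _ => by positivity
  have hD1 : 0 ≤ ∑ i, C i := Finset.sum_nonneg fun i _ => hC0 i
  have hDC : ∀ i, C i ≤ D := by
    intro i
    have := Finset.single_le_sum (fun j _ => hC0 j) (Finset.mem_univ i)
    linarith
  have hDT : ∀ τ ∈ T, (len v τ : ℝ) ^ (k + 1) ≤ D := by
    intro τ hτ
    have := Finset.single_le_sum (f := fun τ => (len v τ : ℝ) ^ (k + 1))
      (fun j _ => by positivity) (hT.mem_toFinset.2 hτ)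
    linarith
  have hD0 : 0 ≤ D := by linarith
  refine ⟨(r + 1) ^ (k + 1) * D, fun z hz => ?_⟩
  obtain ⟨m, τ, hτ, hzz, hm⟩ := hdec z hz
  have hι : 0 ≤ ‖ι z‖ := norm_nonneg _
  set M : ℝ := D * (‖ι z‖ + 1) with hM
  have hM0 : 0 ≤ M := by positivity
  set B : ℝ := M ^ (((k + 1 : ℕ) : ℝ)⁻¹) with hB
  have hB0 : 0 ≤ B := Real.rpow_nonneg hM0 _
  have hBM : B ^ (k + 1) = M := Real.rpow_inv_natCast_pow hM0 (Nat.succ_ne_zero k)
  have hle : ∀ x : ℕ, (x : ℝ) ^ (k + 1) ≤ M → (x : ℝ) ≤ B := by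
    intro x hx
    rw [← hBM] at hx
    exact le_of_pow_le_pow_left₀ (Nat.succ_ne_zero k) hB0 hx
  have ht : ∀ i, (len v (y i ^ m i) : ℝ) ≤ B := by
    intro i
    apply hle
    refine (hC i (m i)).trans ?_
    have h3 := hm i
    have h4 := hDC i
    rw [hM]
    gcongr
  have hτB : (len v τ : ℝ) ≤ B := by
    apply hle
    refine (hDT τ hτ).trans ?_
    rw [hM]
    nlinarith
  have hz1 : len v z ≤ ∑ i, len v (y i ^ m i) + len v τ := by
    conv_lhs => rw [hzz]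
    exact (len_mul_le v hsurj _ _).trans
      (Nat.add_le_add_right (len_ofFn v hsurj r fun i => y i ^ m i) _)
  have hz2 : (len v z : ℝ) ≤ (r + 1) * B := by
    have h5 : (len v z : ℝ) ≤ ∑ i, (len v (y i ^ m i) : ℝ) + len v τ := by exact_mod_cast hz1
    have h6 : ∑ i, (len v (y i ^ m i) : ℝ) ≤ ∑ _i : Fin r, B := Finset.sum_le_sum fun i _ => ht i
    rw [Finset.sum_const, Finset.card_univ, Fintype.card_fin, nsmul_eq_mul] at h6
    linarith
  calc (len v z : ℝ) ^ (k + 1) ≤ ((r + 1) * B) ^ (k + 1) := by gcongr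
    _ = (r + 1) ^ (k + 1) * D * (‖ι z‖ + 1) := by rw [mul_pow, hBM, hM]; ring

end Pool.Agent.NilGeo
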