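import Mathlib
import Pool.Agent.NilGeo.Len

set_option autoImplicit false

/-!
# Package NG18: contraction constants for the bad loops

`contract`: for a unit vector `e` and `⟪e, B⟫ < 0` there is `s > 0` with `‖e + s • B‖ < 1`: with
`s = - ⟪e, B⟫ / ‖B‖²`, `‖e + s B‖² = 1 + 2 s ⟪e, B⟫ + s² ‖B‖² = 1 - ⟪e, B⟫² / ‖B‖² < 1`
(`norm_add_sq_real`; `B ≠ 0`).

`unif`: notation `K q y U = q (y⁻¹ U⁻¹ y U) q⁻¹` for `q ∈ G`, `y ∈ Y`, `U ∈ H`; this is in `A`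
(`hYA`, `A` normal). `Y ≤ H`, elements of `A` commute with elements of `H`. `e` a unit vector, `N`
a number. There are `θ < 1`, `θ ≥ 0`, `S, L, B₀ ≥ 0` such that for all `q` and all words `u` with
`|u| ≤ N`, `V u ∈ H` such that `⟪e, ι (K q y (V u))⟫ ≠ 0` for some `y ∈ Y`, there are `y ∈ Y` and
`s ≥ 0` with `s ≤ S`, `len y ≤ L`, `‖ι (K q y (V u))‖ ≤ B₀` and
`‖e + s • ι (K q y (V u))‖ ≤ θ`.
Proof. By `hD` (applied to `g = q⁻¹`) there is `r` with `len r ≤ D0` and `q z q⁻¹ = r⁻¹ z r` for all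
`z ∈ A`; so `K q y U = r⁻¹ (y⁻¹ U⁻¹ y U) r` for all `y ∈ Y`, `U ∈ H`. The pairs `(r, u)` with
`len r ≤ D0`, `|u| ≤ N` form a finite set (`ball_finite`, finitely many words). For each such pair
for which some `y ∈ Y` has `⟪e, ι (r⁻¹ (y⁻¹ U⁻¹ y U) r)⟫ ≠ 0` (`U = V u ∈ H`), we may choose `y`
with `⟪e, ι (…)⟫ < 0`: otherwise replace `y` by `y⁻¹`; with `c = y⁻¹ U⁻¹ y U ∈ A` one has
`y U⁻¹ y⁻¹ U = y c⁻¹ y⁻¹ = c⁻¹` (as `c` commutes with `y ∈ Y ≤ H`; check: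
`c⁻¹ = U⁻¹ y⁻¹ U y`, `y c⁻¹ y⁻¹ = y U⁻¹ y⁻¹ U`), and `ι (r⁻¹ c⁻¹ r) = - ι (r⁻¹ c r)` since `ι` is
additive on `A`. `contract` gives `s > 0` and `‖e + s ι (…)‖ < 1`. Take for `θ` the maximum of `0`
and of these finitely many norms, and similarly for `S`, `L`, `B₀` (`Set.Finite` and
`Finset.exists_le`-type statements: e.g. a function on a finite type is bounded; for `θ` use
`Finset.sup'` or induction; if there are no bad pairs take `θ = 0`).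
-/

open scoped InnerProductSpace

namespace Pool.Agent.NilGeo

private theorem fin_lt {P : Type*} (T : Set P) (hT : T.Finite) (f : P → ℝ)
    (hf : ∀ p ∈ T, f p < 1) : ∃ θ : ℝ, θ < 1 ∧ 0 ≤ θ ∧ ∀ p ∈ T, f p ≤ θ := by
  rcases T.eq_empty_or_nonempty with h | h
  · exact ⟨0, by norm_num, le_refl _, fun p hp => by simp [h] at hp⟩
  · obtain ⟨a, ha, hmax⟩ := Set.exists_max_image T f hT h
    exact ⟨max 0 (f a), max_lt (by norm_num) (hf a ha), le_max_left _ _,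
      fun p hp => le_trans (hmax p hp) (le_max_right _ _)⟩

private theorem fin_bdd {P : Type*} (T : Set P) (hT : T.Finite) (f : P → ℝ) :
    ∃ M : ℝ, 0 ≤ M ∧ ∀ p ∈ T, f p ≤ M := by
  rcases T.eq_empty_or_nonempty with h | h
  · exact ⟨0, le_refl _, fun p hp => by simp [h] at hp⟩
  · obtain ⟨a, ha, hmax⟩ := Set.exists_max_image T f hT h
    exact ⟨max 0 (f a), le_max_left _ _,
      fun p hp => le_trans (hmax p hp) (le_max_right _ _)⟩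

theorem contract {E : Type*} [NormedAddCommGroup E] [InnerProductSpace ℝ E] (e B : E)
    (he : ‖e‖ = 1) (h : ⟪e, B⟫_ℝ < 0) : ∃ s : ℝ, 0 < s ∧ ‖e + s • B‖ < 1 := by
  have hB : B ≠ 0 := by
    rintro rfl
    simp at h
  have hn : 0 < ‖B‖ := norm_pos_iff.mpr hB
  have hn2 : 0 < ‖B‖ ^ 2 := by positivity
  refine ⟨-⟪e, B⟫_ℝ / ‖B‖ ^ 2, div_pos (by linarith) hn2, ?_⟩
  have h1 := norm_add_sq_real e ((-⟪e, B⟫_ℝ / ‖B‖ ^ 2) • B)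
  rw [inner_smul_right, norm_smul, mul_pow, he, Real.norm_eq_abs, sq_abs] at h1
  have h2 : ‖e + (-⟪e, B⟫_ℝ / ‖B‖ ^ 2) • B‖ ^ 2 = 1 - ⟪e, B⟫_ℝ ^ 2 / ‖B‖ ^ 2 := by
    rw [h1]
    field_simp
    ring
  have h3 : 0 < ⟪e, B⟫_ℝ ^ 2 / ‖B‖ ^ 2 := div_pos (by nlinarith) hn2
  have h4 : ‖e + (-⟪e, B⟫_ℝ / ‖B‖ ^ 2) • B‖ ^ 2 < 1 := by rw [h2]; linarith
  have h5 := norm_nonneg (e + (-⟪e, B⟫_ℝ / ‖B‖ ^ 2) • B)
  nlinarith

theorem unif {G : Type*} [Group G] {α : Type*} [Finite α] (v : α → G)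
    (hsurj : ∀ g, ∃ w, val v w = g)
    {E : Type*} [NormedAddCommGroup E] [InnerProductSpace ℝ E] (ι : G → E)
    (H A Y : Subgroup G) [A.Normal]
    (hA : ∀ z ∈ A, ∀ h ∈ H, z * h = h * z) (hYH : Y ≤ H)
    (hYA : ∀ y ∈ Y, ∀ h ∈ H, y⁻¹ * h⁻¹ * y * h ∈ A)
    (hι : ∀ a ∈ A, ∀ b ∈ A, ι (a * b) = ι a + ι b) (D0 : ℕ)
    (hD : ∀ g : G, ∃ r : G, len v r ≤ D0 ∧ ∀ z ∈ A, g⁻¹ * z * g = r⁻¹ * z * r)
    (e : E) (he : ‖e‖ = 1) (N : ℕ) :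
    ∃ θ S L B₀ : ℝ, θ < 1 ∧ 0 ≤ θ ∧ 0 ≤ S ∧ 0 ≤ L ∧ 0 ≤ B₀ ∧ ∀ (q : G) (u : List α),
      u.length ≤ N → val v u ∈ H →
      (∃ y ∈ Y, ⟪e, ι (q * (y⁻¹ * (val v u)⁻¹ * y * val v u) * q⁻¹)⟫_ℝ ≠ 0) →
      ∃ y ∈ Y, ∃ s : ℝ, 0 ≤ s ∧ s ≤ S ∧ (len v y : ℝ) ≤ L ∧
        ‖ι (q * (y⁻¹ * (val v u)⁻¹ * y * val v u) * q⁻¹)‖ ≤ B₀ ∧
        ‖e + s • ι (q * (y⁻¹ * (val v u)⁻¹ * y * val v u) * q⁻¹)‖ ≤ θ := by
  classical
  -- additivity of `ι` on inverses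
  have hι1 : ι 1 = 0 := by
    have h1 := hι 1 A.one_mem 1 A.one_mem
    rw [mul_one] at h1
    simpa using h1
  have hιinv : ∀ a ∈ A, ι a⁻¹ = - ι a := by
    intro a ha
    have h1 := hι a ha a⁻¹ (A.inv_mem ha)
    rw [mul_inv_cancel, hι1] at h1
    exact (neg_eq_of_add_eq_zero_right h1.symm).symm
  -- the finite set of pairs
  have hwords : {u : List α | u.length ≤ N}.Finite := List.finite_length_le α N
  have hball : {r : G | len v r ≤ D0}.Finite := ball_finite v hsurj D0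
  let T : Set (G × List α) := {p | (len v p.1 ≤ D0 ∧ p.2.length ≤ N) ∧ val v p.2 ∈ H ∧
    ∃ y ∈ Y, ⟪e, ι (p.1⁻¹ * (y⁻¹ * (val v p.2)⁻¹ * y * val v p.2) * p.1)⟫_ℝ ≠ 0}
  have hTfin : T.Finite := by
    refine (hball.prod hwords).subset ?_
    rintro ⟨r, u⟩ h
    exact ⟨h.1.1, h.1.2⟩
  have hch : ∀ p : G × List α, ∃ ys : G × ℝ, p ∈ T → ys.1 ∈ Y ∧ 0 < ys.2 ∧
      ‖e + ys.2 • ι (p.1⁻¹ * (ys.1⁻¹ * (val v p.2)⁻¹ * ys.1 * val v p.2) * p.1)‖ < 1 := by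
    rintro ⟨r, u⟩
    by_cases hp : (r, u) ∈ T
    · obtain ⟨-, hU, y, hy, hne⟩ := hp
      simp only at hU hne
      have key : ∃ y' ∈ Y, ⟪e, ι (r⁻¹ * (y'⁻¹ * (val v u)⁻¹ * y' * val v u) * r)⟫_ℝ < 0 := by
        rcases lt_or_gt_of_ne hne with hlt | hgt
        · exact ⟨y, hy, hlt⟩
        · refine ⟨y⁻¹, Y.inv_mem hy, ?_⟩
          have hc : y⁻¹ * (val v u)⁻¹ * y * val v u ∈ A := hYA y hy _ hU
          have hcomm := hA _ (A.inv_mem hc) y (hYH hy)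
          have hc' : y⁻¹⁻¹ * (val v u)⁻¹ * y⁻¹ * val v u =
              (y⁻¹ * (val v u)⁻¹ * y * val v u)⁻¹ := by
            have h1 : y⁻¹⁻¹ * (val v u)⁻¹ * y⁻¹ * val v u =
                y * (y⁻¹ * (val v u)⁻¹ * y * val v u)⁻¹ * y⁻¹ := by
              group
            rw [h1, ← hcomm, mul_inv_cancel_right]
          rw [hc']
          have h2 : r⁻¹ * (y⁻¹ * (val v u)⁻¹ * y * val v u)⁻¹ * r =
              (r⁻¹ * (y⁻¹ * (val v u)⁻¹ * y * val v u) * r)⁻¹ := by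
            group
          have h3 : r⁻¹ * (y⁻¹ * (val v u)⁻¹ * y * val v u) * r ∈ A := by
            have := Subgroup.Normal.conj_mem (inferInstance : A.Normal) _ hc r⁻¹
            simpa using this
          rw [h2, hιinv _ h3, inner_neg_right]
          linarith
      obtain ⟨y', hy', hlt⟩ := key
      obtain ⟨s, hs, hs1⟩ := contract e _ he hlt
      exact ⟨(y', s), fun _ => ⟨hy', hs, hs1⟩⟩
    · exact ⟨(1, 0), fun h => absurd h hp⟩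
  choose F hF using hch
  obtain ⟨θ, hθ1, hθ0, hθ⟩ := fin_lt T hTfin
    (fun p => ‖e + (F p).2 • ι (p.1⁻¹ * ((F p).1⁻¹ * (val v p.2)⁻¹ * (F p).1 * val v p.2) * p.1)‖)
    (fun p hp => (hF p hp).2.2)
  obtain ⟨S, hS0, hS⟩ := fin_bdd T hTfin (fun p => (F p).2)
  obtain ⟨L, hL0, hL⟩ := fin_bdd T hTfin (fun p => (len v (F p).1 : ℝ))
  obtain ⟨B₀, hB0, hB⟩ := fin_bdd T hTfin
    (fun p => ‖ι (p.1⁻¹ * ((F p).1⁻¹ * (val v p.2)⁻¹ * (F p).1 * val v p.2) * p.1)‖)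
  refine ⟨θ, S, L, B₀, hθ1, hθ0, hS0, hL0, hB0, ?_⟩
  intro q u hu hU hbad
  obtain ⟨r, hr, hrq⟩ := hD q⁻¹
  have hconj : ∀ y ∈ Y, q * (y⁻¹ * (val v u)⁻¹ * y * val v u) * q⁻¹ =
      r⁻¹ * (y⁻¹ * (val v u)⁻¹ * y * val v u) * r := by
    intro y hy
    have h1 := hrq _ (hYA y hy _ hU)
    rwa [inv_inv] at h1
  have hpT : (r, u) ∈ T := by
    obtain ⟨y, hy, hne⟩ := hbad
    refine ⟨⟨hr, hu⟩, hU, y, hy, ?_⟩
    rw [hconj y hy] at hne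
    exact hne
  obtain ⟨hy, hs, -⟩ := hF _ hpT
  refine ⟨(F (r, u)).1, hy, (F (r, u)).2, hs.le, hS _ hpT, hL _ hpT, ?_, ?_⟩
  · rw [hconj _ hy]
    exact hB _ hpT
  · rw [hconj _ hy]
    exact hθ _ hpT

end Pool.Agent.NilGeo
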