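import Mathlib

set_option autoImplicit false

/-!
# Package NG19: real inequalities

`ineq`: choice of the constants. Given `c : ℕ`, `M > 0` and `0 ≤ θ < 1` there are `ε ∈ (0, 1/3)`,
`η ∈ (0, 1/2)`, `η < M`, such that for all `C' K B₁ ≥ 0` there is `R` for which the following system
is contradictory:
`R ≤ x`, `(M - η) x ≤ f ^ c`, `0 ≤ f`, `f ≤ 2 ε f + K + f'`, `0 ≤ f'`,
`f' ^ c ≤ (M + η) x' + C'`, `x' ≤ (η + θ) x + B₁`.

Proof. As `ε, η → 0`, `(1 - 3 ε)^c (M - η) - (M + η) (θ + η) → M (1 - θ) > 0` (continuity; or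
Bernoulli: `(1 - 3 ε)^c ≥ 1 - 3 c ε`, `one_add_mul_le_pow`, and choose
`ε = (1 - θ) / (12 (c + 1))`, `η = min (1/4) (min (M/8) …)`; e.g. with `ε` such that
`(1 - 3 ε)^c ≥ 1 - (1 - θ)/4` and `η = M' (1 - θ)` small). Fix `ε, η` with
`δ := (1 - 3 ε)^c (M - η) - (M + η) (θ + η) > 0`. Suppose the system holds. Then
`f ^ c ≥ (M - η) R`, so if `(M - η) R ≥ max 1 (K / ε)^c` … , `f ≥ K / ε` (if `f < K / ε` then
`f ^ c ≤ (K / ε)^c`, `pow_le_pow_left₀`; choose `R` with `(M - η) R > (K / ε)^c`). Hence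
`f' ≥ (1 - 2 ε) f - K ≥ (1 - 3 ε) f ≥ 0` and
`(1 - 3 ε)^c (M - η) x ≤ (1 - 3 ε)^c f ^ c ≤ f' ^ c ≤ (M + η) ((η + θ) x + B₁) + C'`, i.e.
`δ x ≤ (M + η) B₁ + C'`; this is false if `x ≥ R > ((M + η) B₁ + C') / δ`.

`ineq2`: the final contradiction: for `k : ℕ` and `C, C₁` there is `R` such that
`R ≤ x`, `f ^ (k + 1) ≤ C (x + 1)`, `0 ≤ f`, `x / 2 ≤ C₁ (f + 1) ^ k` is contradictory.
Proof: we may assume `C, C₁ ≥ 0` (replace by `|C|`, `|C₁|`; here `x + 1 ≥ 0` if `R ≥ 0`). Then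
`f ^ (k+1) ≤ C (2 C₁ (f + 1)^k + 1) ≤ C (2 C₁ + 1) (f + 1)^k`. If `f ≥ 1` then
`(f + 1)^k ≤ 2^k f^k`, so `f ≤ C (2 C₁ + 1) 2^k`. So `f ≤ F₀ := 1 + C (2 C₁ + 1) 2^k` in all cases,
and `x ≤ 2 C₁ (F₀ + 1)^k`; take `R` larger than this.
-/

namespace Pool.Agent.NilGeo

theorem ineq (c : ℕ) (M θ : ℝ) (hM : 0 < M) (hθ0 : 0 ≤ θ) (hθ : θ < 1) :
    ∃ ε η : ℝ, 0 < ε ∧ ε < 1 / 3 ∧ 0 < η ∧ η < 1 / 2 ∧ η < M ∧
      ∀ C' K B₁ : ℝ, 0 ≤ C' → 0 ≤ K → 0 ≤ B₁ → ∃ R : ℝ, 0 < R ∧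
        ∀ x f f' x' : ℝ, R ≤ x → (M - η) * x ≤ f ^ c → 0 ≤ f → f ≤ 2 * ε * f + K + f' →
          0 ≤ f' → f' ^ c ≤ (M + η) * x' + C' → x' ≤ (η + θ) * x + B₁ → False := by
  have hcont : Continuous fun u : ℝ => (1 - 3 * u) ^ c * (M - u) - (M + u) * (θ + u) := by
    fun_prop
  have h0 : (0 : ℝ) < (fun u : ℝ => (1 - 3 * u) ^ c * (M - u) - (M + u) * (θ + u)) 0 := by
    simp only [mul_zero, sub_zero, one_pow, one_mul, add_zero]
    nlinarith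
  have hev : ∀ᶠ u in nhdsWithin (0 : ℝ) (Set.Ioi 0),
      0 < (fun u : ℝ => (1 - 3 * u) ^ c * (M - u) - (M + u) * (θ + u)) u :=
    (hcont.continuousAt.eventually (lt_mem_nhds h0)).filter_mono nhdsWithin_le_nhds
  have hev2 : ∀ᶠ u in nhdsWithin (0 : ℝ) (Set.Ioi 0), u ∈ Set.Ioo (0 : ℝ) (min (1 / 3) M) :=
    Ioo_mem_nhdsGT (lt_min (by norm_num) hM)
  obtain ⟨u, hg, hu0, hu1⟩ := (hev.and hev2).exists
  have hu3 : u < 1 / 3 := hu1.trans_le (min_le_left _ _)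
  have huM : u < M := hu1.trans_le (min_le_right _ _)
  refine ⟨u, u, hu0, hu3, hu0, by linarith, huM, fun C' K B₁ hC hK hB => ?_⟩
  set δ : ℝ := (1 - 3 * u) ^ c * (M - u) - (M + u) * (θ + u) with hδ
  have hδ0 : 0 < δ := hg
  have hMu : 0 < M - u := by linarith
  have hA : 0 ≤ (K / u) ^ c / (M - u) := by positivity
  have hB' : 0 ≤ ((M + u) * B₁ + C') / δ := by positivity
  refine ⟨1 + (K / u) ^ c / (M - u) + ((M + u) * B₁ + C') / δ, by linarith, ?_⟩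
  intro x f f' x' hx h1 hf h2 hf' h3 h4
  have hfK : K / u ≤ f := by
    by_contra hlt
    push Not at hlt
    have h5 : f ^ c ≤ (K / u) ^ c := pow_le_pow_left₀ hf hlt.le c
    have h6 : (K / u) ^ c / (M - u) < x := by linarith
    rw [div_lt_iff₀ hMu] at h6
    linarith
  have hK' : K ≤ u * f := by
    rw [div_le_iff₀ hu0] at hfK
    linarith
  have h5 : (1 - 3 * u) * f ≤ f' := by linarith
  have h13 : 0 ≤ 1 - 3 * u := by linarith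
  have h6 : (1 - 3 * u) ^ c * f ^ c ≤ f' ^ c := by
    rw [← mul_pow]
    exact pow_le_pow_left₀ (mul_nonneg h13 hf) h5 c
  have h7 : (1 - 3 * u) ^ c * ((M - u) * x) ≤ (1 - 3 * u) ^ c * f ^ c :=
    mul_le_mul_of_nonneg_left h1 (pow_nonneg h13 c)
  have h8 : (M + u) * x' ≤ (M + u) * ((u + θ) * x + B₁) :=
    mul_le_mul_of_nonneg_left h4 (by linarith)
  have h9 : δ * x ≤ (M + u) * B₁ + C' := by
    rw [hδ]
    nlinarith
  have h10 : ((M + u) * B₁ + C') / δ < x := by linarith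
  rw [div_lt_iff₀ hδ0] at h10
  linarith

theorem ineq2 (k : ℕ) (C C₁ : ℝ) :
    ∃ R : ℝ, 0 < R ∧ ∀ x f : ℝ, R ≤ x → f ^ (k + 1) ≤ C * (x + 1) → 0 ≤ f →
      x / 2 ≤ C₁ * (f + 1) ^ k → False := by
  set D : ℝ := |C| with hD
  set D₁ : ℝ := |C₁| with hD₁
  have hD0 : 0 ≤ D := abs_nonneg C
  have hD₁0 : 0 ≤ D₁ := abs_nonneg C₁
  set F₀ : ℝ := 1 + D * (2 * D₁ + 1) * 2 ^ k with hF₀
  have hF1 : 1 ≤ F₀ := by
    rw [hF₀]
    have : 0 ≤ D * (2 * D₁ + 1) * 2 ^ k := by positivity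
    linarith
  have hR : 0 ≤ 2 * D₁ * (F₀ + 1) ^ k := by positivity
  refine ⟨1 + 2 * D₁ * (F₀ + 1) ^ k, by linarith, ?_⟩
  intro x f hx h1 hf h2
  have hx0 : 0 < x := by linarith
  have hp : (1 : ℝ) ≤ (f + 1) ^ k := one_le_pow₀ (by linarith)
  have h3 : x / 2 ≤ D₁ * (f + 1) ^ k :=
    h2.trans (mul_le_mul_of_nonneg_right (le_abs_self C₁) (by linarith))
  have h4 : f ^ (k + 1) ≤ D * (x + 1) :=
    h1.trans (mul_le_mul_of_nonneg_right (le_abs_self C) (by linarith))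
  have h5 : f ^ (k + 1) ≤ D * (2 * D₁ + 1) * (f + 1) ^ k := by
    have h6 : x + 1 ≤ (2 * D₁ + 1) * (f + 1) ^ k := by linarith
    calc f ^ (k + 1) ≤ D * (x + 1) := h4
      _ ≤ D * ((2 * D₁ + 1) * (f + 1) ^ k) := mul_le_mul_of_nonneg_left h6 hD0
      _ = D * (2 * D₁ + 1) * (f + 1) ^ k := by ring
  have hfF : f ≤ F₀ := by
    rcases le_or_gt f 1 with h | h
    · linarith
    · have h6 : (f + 1) ^ k ≤ 2 ^ k * f ^ k := by
        rw [← mul_pow]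
        exact pow_le_pow_left₀ (by linarith) (by linarith) k
      have h7 : f ^ k * f ≤ f ^ k * (D * (2 * D₁ + 1) * 2 ^ k) := by
        calc f ^ k * f = f ^ (k + 1) := (pow_succ f k).symm
          _ ≤ D * (2 * D₁ + 1) * (f + 1) ^ k := h5
          _ ≤ D * (2 * D₁ + 1) * (2 ^ k * f ^ k) :=
            mul_le_mul_of_nonneg_left h6 (by positivity)
          _ = f ^ k * (D * (2 * D₁ + 1) * 2 ^ k) := by ring
      have h8 : f ≤ D * (2 * D₁ + 1) * 2 ^ k :=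
        le_of_mul_le_mul_left h7 (pow_pos (by linarith) k)
      linarith
  have h9 : (f + 1) ^ k ≤ (F₀ + 1) ^ k := pow_le_pow_left₀ (by linarith) (by linarith) k
  have h10 : D₁ * (f + 1) ^ k ≤ D₁ * (F₀ + 1) ^ k := mul_le_mul_of_nonneg_left h9 hD₁0
  linarith

end Pool.Agent.NilGeo
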