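import Mathlib

set_option autoImplicit false

/-!
# Package NG22: a normal nilpotent subgroup of finite index and minimal class

`G` finitely generated and virtually nilpotent. Either `G` has an abelian subgroup of finite index,
or there are a normal subgroup `H` of finite index, finitely generated, and `k ≥ 1` with
`H.lowerCentralSeries (k + 1) = ⊥` and `H.lowerCentralSeries k` infinite (series indexed from 0).

Proof. Let `n` be minimal such that some normal subgroup `H` of finite index has
`H.lowerCentralSeries n = ⊥` (`Nat.find`). Existence: `G` has a nilpotent subgroup `N₀` of finite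
index; its normal core `H` has finite index (`Subgroup.normalCore`, `Subgroup.finiteIndex_normalCore`)
and `H.lcs n ≤ N₀.lcs n = ⊥` (`Subgroup.lowerCentralSeries_mono`,
`Subgroup.isNilpotent_iff_lowerCentralSeries`). If `n = 0`, `H = ⊥` is abelian of finite index; if
`n = 1`, `⁅H, H⁆ = ⊥` and `H` is abelian (`Subgroup.commutator_eq_bot_iff_le_centralizer`). So let
`n = k + 1`, `k ≥ 1`; write `A = H.lcs k`, `Y = H.lcs (k - 1)`, so `A = ⁅Y, H⁆` and
`⁅A, H⁆ = ⊥`: elements of `A` commute with elements of `H`. `H` is finitely generated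
(`Subgroup.fg_of_index_ne_zero`). Suppose `A` is finite, and let `e ≥ 1` be its order, `a ^ e = 1`
for `a ∈ A`. Let `K = closure ({h ^ e | h ∈ H} ∪ {⁅h, h'⁆ | h, h' ∈ H})`.
* `K ≤ H` and `K` is normal in `G` (the generating set is invariant under conjugation, as `H` is
  normal; `Subgroup.Normal` of a closure: `Subgroup.closure_le`/`Subgroup.normalClosure`, e.g. define
  `K` as a normal closure, which lies in `H`; then the next point needs: generators of the normal
  closure are conjugates, again of the same form).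
* `K` has finite index in `G`: `H` has finite index in `G` and `K.relIndex H` is finite, because
  `↥H ⧸ K.subgroupOf H` is a finitely generated abelian torsion group, hence finite
  (`CommGroup.finite_of_fg_isMulTorsion`, `Group.FG` of a quotient); then `Subgroup.relIndex_mul_index`.
* For `y ∈ Y` the elements of `H` commuting with `y` form a subgroup containing `K`: for
  `y ∈ Y`, the map `b : H → A`, `h ↦ y⁻¹ h⁻¹ y h` satisfies `b (h h') = b h' * b h` (`b h ∈ A`
  commutes with `h'`), and `A` is commutative, so `b (h ^ e) = (b h)^e = 1` and `b ⁅h, h'⁆ = 1`.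
  So `⁅Y, K⁆ = ⊥`.
* Hence `K.lcs k = ⁅K.lcs (k - 1), K⁆ ≤ ⁅Y, K⁆ = ⊥` (`lowerCentralSeries_mono`), contradicting the
  minimality of `n = k + 1`.
-/

namespace Pool.Agent.NilGeo

open scoped commutatorElement

/-- The series of a normal subgroup consists of normal subgroups. -/
private theorem lcs_normal {G : Type*} [Group G] (H : Subgroup G) (hH : H.Normal) (n : ℕ) :
    (H.lowerCentralSeries n).Normal := by
  induction n with
  | zero => exact hH
  | succ n ih =>
    rw [Subgroup.lowerCentralSeries_succ]
    have := ih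
    have := hH
    infer_instance

/-- If the last term of the series is finite, a normal subgroup of finite index of smaller class
exists. -/
private theorem smaller {G : Type*} [Group G] (hfg : Group.FG G) (H : Subgroup G) (hH : H.Normal)
    (hfi : H.FiniteIndex) (k : ℕ) (hbot : H.lowerCentralSeries (k + 2) = ⊥)
    (hfin : (H.lowerCentralSeries (k + 1) : Set G).Finite) :
    ∃ K : Subgroup G, K.Normal ∧ K.FiniteIndex ∧ K.lowerCentralSeries (k + 1) = ⊥ := by
  set Y := H.lowerCentralSeries k with hY
  set A := H.lowerCentralSeries (k + 1) with hA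
  have hAdef : A = ⁅Y, H⁆ := rfl
  have hYn : Y.Normal := lcs_normal H hH k
  have hAH : A ≤ H := H.lowerCentralSeries_le_self (k + 1)
  have hAc : ∀ a ∈ A, ∀ h ∈ H, a * h = h * a := by
    intro a ha h hh
    have h1 : ⁅a, h⁆ ∈ H.lowerCentralSeries (k + 2) := by
      rw [Subgroup.lowerCentralSeries_succ]
      exact Subgroup.commutator_mem_commutator ha hh
    rw [hbot, Subgroup.mem_bot] at h1
    exact commutatorElement_eq_one_iff_mul_comm.mp h1
  have hb : ∀ y ∈ Y, ∀ h ∈ H, ⁅y, h⁆ ∈ A := fun y hy h hh =>
    Subgroup.commutator_mem_commutator hy hh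
  -- the homomorphism
  have hbm : ∀ y ∈ Y, ∀ h ∈ H, ∀ h' ∈ H, ⁅y, h * h'⁆ = ⁅y, h⁆ * ⁅y, h'⁆ := by
    intro y hy h hh h' hh'
    have h1 : ⁅y, h * h'⁆ = ⁅y, h⁆ * (h * ⁅y, h'⁆ * h⁻¹) := by
      simp only [commutatorElement_def]; group
    rw [h1, ← hAc _ (hb y hy h' hh') h hh]
    group
  let b : ∀ y ∈ Y, ↥H →* ↥A := fun y hy =>
    { toFun := fun h => ⟨⁅y, (h : G)⁆, hb y hy h h.2⟩
      map_one' := by ext; simp
      map_mul' := by
        intro h h'
        ext
        exact hbm y hy h h.2 h' h'.2 }
  have hAcomm : ∀ a b : ↥A, a * b = b * a := by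
    intro a b
    ext
    exact hAc a a.2 b (hAH b.2)
  have hAfin : Finite ↥A := hfin
  let K : Subgroup G := H ⊓ Subgroup.centralizer (Y : Set G)
  have hKn : K.Normal := by
    have := hH
    have := hYn
    infer_instance
  have hKmem : ∀ h : ↥H, h ∈ K.subgroupOf H ↔ ∀ y, ∀ hy : y ∈ Y, b y hy h = 1 := by
    intro h
    rw [Subgroup.mem_subgroupOf]
    constructor
    · intro hk y hy
      ext
      show ⁅y, (h : G)⁆ = 1
      rw [commutatorElement_eq_one_iff_mul_comm]
      exact (Subgroup.mem_centralizer_iff.mp hk.2) y hy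
    · intro hk
      refine ⟨h.2, Subgroup.mem_centralizer_iff.mpr ?_⟩
      intro y hy
      have h1 := congrArg (Subtype.val) (hk y hy)
      have h2 : ⁅y, (h : G)⁆ = 1 := h1
      exact commutatorElement_eq_one_iff_mul_comm.mp h2
  refine ⟨K, hKn, ?_, ?_⟩
  · -- finite index
    have hKHn : (K.subgroupOf H).Normal := by
      have := hKn
      infer_instance
    have : Group.FG ↥H := Subgroup.fg_of_index_ne_zero H
    have hQc : ∀ x y : ↥H ⧸ K.subgroupOf H, x * y = y * x := by
      intro x y
      induction x using QuotientGroup.induction_on with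
      | H x =>
        induction y using QuotientGroup.induction_on with
        | H y =>
          rw [← QuotientGroup.mk_mul, ← QuotientGroup.mk_mul, QuotientGroup.eq, hKmem]
          intro z hz
          rw [map_mul, map_inv, map_mul, map_mul, hAcomm (b z hz y)]
          group
    let inst : CommGroup (↥H ⧸ K.subgroupOf H) :=
      { (inferInstance : Group (↥H ⧸ K.subgroupOf H)) with mul_comm := hQc }
    have htor : IsMulTorsion (↥H ⧸ K.subgroupOf H) := by
      intro x
      induction x using QuotientGroup.induction_on with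
      | H x =>
        rw [isOfFinOrder_iff_pow_eq_one]
        refine ⟨Nat.card ↥A, Nat.card_pos, ?_⟩
        have h1 : ((x ^ Nat.card ↥A : ↥H) : ↥H ⧸ K.subgroupOf H) = 1 := by
          rw [QuotientGroup.eq_one_iff, hKmem]
          intro z hz
          rw [map_pow]
          exact pow_card_eq_one'
        rw [← QuotientGroup.mk_pow]
        exact h1
    have hQf : Finite (↥H ⧸ K.subgroupOf H) :=
      @CommGroup.finite_of_fg_isMulTorsion (↥H ⧸ K.subgroupOf H) inst inferInstance htor
    have h1 : (K.subgroupOf H).index ≠ 0 := by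
      have : (K.subgroupOf H).FiniteIndex := Subgroup.finiteIndex_of_finite_quotient
      exact Subgroup.FiniteIndex.index_ne_zero
    have h2 : K.relIndex H * H.index = K.index := Subgroup.relIndex_mul_index inf_le_left
    refine ⟨?_⟩
    rw [← h2]
    exact mul_ne_zero h1 hfi.index_ne_zero
  · rw [Subgroup.lowerCentralSeries_succ, Subgroup.commutator_eq_bot_iff_le_centralizer]
    have h1 : K.lowerCentralSeries k ≤ Y := Subgroup.lowerCentralSeries_mono k inf_le_left
    have h2 : Subgroup.centralizer (K : Set G) ≥ Y := by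
      intro y hy
      rw [Subgroup.mem_centralizer_iff]
      intro h hh
      exact ((Subgroup.mem_centralizer_iff.mp hh.2) y hy).symm
    exact h1.trans h2

theorem setup (G : Type*) [Group G] (hfg : Group.FG G) (hvn : Group.IsVirtuallyNilpotent G) :
    (∃ A : Subgroup G, A.FiniteIndex ∧ ∀ a ∈ A, ∀ b ∈ A, a * b = b * a) ∨
    ∃ (H : Subgroup G) (k : ℕ), H.Normal ∧ H.FiniteIndex ∧ H.FG ∧ 1 ≤ k ∧
      H.lowerCentralSeries (k + 1) = ⊥ ∧ ¬ (H.lowerCentralSeries k : Set G).Finite := by
  classical
  obtain ⟨N₀, hN₀, hfi⟩ := hvn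
  have hex : ∃ n, ∃ H : Subgroup G, H.Normal ∧ H.FiniteIndex ∧ H.lowerCentralSeries n = ⊥ := by
    obtain ⟨n, hn⟩ := (Subgroup.isNilpotent_iff_lowerCentralSeries N₀).mp hN₀
    refine ⟨n, N₀.normalCore, inferInstance, inferInstance, ?_⟩
    rw [eq_bot_iff, ← hn]
    exact Subgroup.lowerCentralSeries_mono n (Subgroup.normalCore_le N₀)
  obtain ⟨H, hHn, hHf, hHb⟩ := Nat.find_spec hex
  have hmin := fun m (hm : m < Nat.find hex) => Nat.find_min hex hm
  generalize Nat.find hex = n at hHb hmin
  match n with
  | 0 =>
    left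
    refine ⟨H, hHf, ?_⟩
    intro a ha b hb
    have h1 : H = ⊥ := hHb
    rw [h1, Subgroup.mem_bot] at ha hb
    rw [ha, hb]
  | 1 =>
    left
    refine ⟨H, hHf, ?_⟩
    intro a ha b hb
    have h1 : ⁅a, b⁆ ∈ H.lowerCentralSeries 1 := Subgroup.commutator_mem_commutator ha hb
    rw [hHb, Subgroup.mem_bot] at h1
    exact commutatorElement_eq_one_iff_mul_comm.mp h1
  | k + 2 =>
    right
    refine ⟨H, k + 1, hHn, hHf, ?_, Nat.le_add_left 1 k, hHb, ?_⟩
    · have := hHf
      have := hfg
      exact (Group.fg_iff_subgroup_fg H).mp (Subgroup.fg_of_index_ne_zero H)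
    · intro hfin
      obtain ⟨K, hK1, hK2, hK3⟩ := smaller hfg H hHn hHf k hHb hfin
      exact hmin (k + 1) (Nat.lt_succ_self _) ⟨K, hK1, hK2, hK3⟩

end Pool.Agent.NilGeo
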