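import Mathlib

set_option autoImplicit false

/-!
# Package NG13: coordinates on a finitely generated infinite abelian subgroup

Proof. Turn `↥A` into a commutative group (`{ (inferInstance : Group ↥A) with mul_comm := … }`) and
apply `AddCommGroup.equiv_free_prod_directSum_zmod` to `Additive ↥A` (finitely generated, since
`A.FG`; `Group.fg_iff_subgroup_fg`): an isomorphism `f` onto `(Fin r →₀ ℤ) × T₀` where
`T₀ = ⨁ i, ZMod (p i ^ e i)` is finite (`p i` prime, so `ZMod (p i ^ e i)` is finite; `Fintype ι`;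
`DirectSum.addEquivProd` or `Module.finite_…`). Alternatively use
`CommGroup.equiv_free_prod_prod_multiplicative_zmod`, where finiteness of the second factor is
immediate (a finite product of finite types; `NeZero (p i ^ e i)`). Define, for `z ∈ A`, `ι z` the
vector of the integer coordinates of the first component of `f z` (as reals,
`WithLp.toLp 2 fun i => ((f z).1 i : ℝ)`), and `ι z = 0` for `z ∉ A`. It is additive on `A`. Let
`y i ∈ A` be the element with first component the `i`-th unit vector and second component `0`, and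
`T` the finite set of the elements with first component `0`. For `z ∈ A` with first component `m`:
`z = ∏ y i ^ m i * τ` with `τ ∈ T`, and `|m i| ≤ ‖ι z‖` (`EuclideanSpace.norm_eq`,
`PiLp.norm_apply_le`). As `A` is infinite and `T` finite, `r ≥ 1`, and the element `y 0 ^ n` has
`‖ι‖ = n`, so `‖ι‖` is unbounded on `A`. (Or: if `‖ι z‖ < R` for all `z ∈ A` then all `|m i| < R`,
so there are finitely many `z`.)
-/

namespace Pool.Agent.NilGeo

/-- the coordinates of a finitely generated commutative group -/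
theorem coord_comm (H : Type*) [CommGroup H] [Group.FG H] :
    ∃ (r : ℕ) (φ : H → Fin r → ℤ) (y : Fin r → H), (∀ a b, φ (a * b) = φ a + φ b) ∧
      (∀ i, φ (y i) = Pi.single i 1) ∧ {z : H | φ z = 0}.Finite := by
  classical
  obtain ⟨ι, j, _, _, p, hp, e, ⟨F⟩⟩ := CommGroup.equiv_free_prod_prod_multiplicative_zmod H
  let E : Fin (Fintype.card j) ≃ j := (Fintype.equivFin j).symm
  refine ⟨Fintype.card j, fun z i => Multiplicative.toAdd ((F z).1 (E i)),
    fun i => F.symm (fun k => Multiplicative.ofAdd (if E i = k then 1 else 0), 1), ?_, ?_, ?_⟩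
  · intro a b
    funext i
    change Multiplicative.toAdd ((F (a * b)).1 (E i)) = _
    rw [map_mul]
    rfl
  · intro i
    funext k
    change Multiplicative.toAdd ((F (F.symm (fun k => Multiplicative.ofAdd
      (if E i = k then (1 : ℤ) else 0), 1))).1 (E k)) = _
    rw [MulEquiv.apply_symm_apply]
    change (if E i = E k then (1 : ℤ) else 0) = _
    rw [Pi.single_apply]
    by_cases h : k = i
    · rw [h, if_pos rfl, if_pos rfl]
    · rw [if_neg h, if_neg (fun h' => h (E.injective h').symm)]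
  · have : ∀ i, NeZero (p i ^ e i) := fun i => ⟨pow_ne_zero _ (hp i).ne_zero⟩
    have : ∀ i, Finite (Multiplicative (ZMod (p i ^ e i))) := fun i =>
      Finite.of_equiv (ZMod (p i ^ e i)) Multiplicative.ofAdd
    refine Set.Finite.of_injOn (f := fun z => (F z).2) (t := Set.univ) (fun _ _ => Set.mem_univ _)
      ?_ Set.finite_univ
    intro a ha b hb hab
    refine F.injective (Prod.ext ?_ hab)
    funext k
    have h1 := congrFun ha (E.symm k)
    have h2 := congrFun hb (E.symm k)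
    simp only [Equiv.apply_symm_apply] at h1 h2
    exact h1.trans h2.symm

theorem coord {G : Type*} [Group G] (A : Subgroup G) (hcomm : ∀ a ∈ A, ∀ b ∈ A, a * b = b * a)
    (hfg : A.FG) (hinf : ¬ (A : Set G).Finite) :
    ∃ (r : ℕ) (ι : G → EuclideanSpace ℝ (Fin r)),
      (∀ a ∈ A, ∀ b ∈ A, ι (a * b) = ι a + ι b) ∧
      (∃ (y : Fin r → G) (T : Set G), (∀ i, y i ∈ A) ∧ T.Finite ∧ T ⊆ A ∧
        ∀ z ∈ A, ∃ m : Fin r → ℤ, ∃ τ ∈ T, z = (List.ofFn fun i => y i ^ m i).prod * τ ∧
          ∀ i, |(m i : ℝ)| ≤ ‖ι z‖) ∧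
      ∀ R : ℝ, ∃ z ∈ A, R ≤ ‖ι z‖ := by
  classical
  let : CommGroup ↥A := { (inferInstance : Group ↥A) with
    mul_comm := fun a b => Subtype.ext (hcomm a a.2 b b.2) }
  have : Group.FG ↥A := (Group.fg_iff_subgroup_fg A).2 hfg
  obtain ⟨r, φ, y, hφ, hy, hT⟩ := coord_comm ↥A
  let ι : G → EuclideanSpace ℝ (Fin r) := fun z =>
    if h : z ∈ A then WithLp.toLp 2 (fun i => (φ ⟨z, h⟩ i : ℝ)) else 0
  have hι : ∀ z : ↥A, ∀ i, ι (z : G) i = (φ z i : ℝ) := by
    intro z i
    simp only [ι, dif_pos z.2]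
  have hle : ∀ z : ↥A, ∀ i, |(φ z i : ℝ)| ≤ ‖ι (z : G)‖ := by
    intro z i
    have h := PiLp.norm_apply_le (ι (z : G)) i
    rwa [hι, Real.norm_eq_abs] at h
  have hφ1 : φ 1 = 0 := by
    have h := hφ 1 1
    rw [mul_one] at h
    exact left_eq_add.1 h
  have hinv : ∀ a, φ a⁻¹ = -φ a := by
    intro a
    have h := hφ a⁻¹ a
    rw [inv_mul_cancel, hφ1] at h
    exact (neg_eq_of_add_eq_zero_left h.symm).symm
  have hpow : ∀ (a : ↥A) (m : ℤ), φ (a ^ m) = m • φ a := by
    intro a m
    let Φ : ↥A →* Multiplicative (Fin r → ℤ) :=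
      { toFun := fun a => Multiplicative.ofAdd (φ a)
        map_one' := by rw [hφ1]; rfl
        map_mul' := fun a b => by rw [hφ]; rfl }
    have h : Φ (a ^ m) = Φ a ^ m := map_zpow Φ a m
    exact h
  have hprod : ∀ m : Fin r → ℤ, φ (∏ i, y i ^ m i) = m := by
    intro m
    let Φ : ↥A →* Multiplicative (Fin r → ℤ) :=
      { toFun := fun a => Multiplicative.ofAdd (φ a)
        map_one' := by rw [hφ1]; rfl
        map_mul' := fun a b => by rw [hφ]; rfl }
    have h : Φ (∏ i, y i ^ m i) = ∏ i, Φ (y i ^ m i) := map_prod Φ _ _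
    have h2 : φ (∏ i, y i ^ m i) = ∑ i, φ (y i ^ m i) := h
    rw [h2]
    funext k
    rw [Finset.sum_apply, Finset.sum_eq_single k]
    · rw [hpow, hy]
      simp
    · intro i _ hik
      rw [hpow, hy]
      simp [Ne.symm hik]
    · intro h
      exact absurd (Finset.mem_univ k) h
  refine ⟨r, ι, ?_, ⟨fun i => y i, Subtype.val '' {z : ↥A | φ z = 0}, fun i => (y i).2,
    hT.image _, ?_, ?_⟩, ?_⟩
  · intro a ha b hb
    ext i
    rw [PiLp.add_apply]
    have h1 := hι ⟨a, ha⟩ i
    have h2 := hι ⟨b, hb⟩ i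
    have h3 := hι (⟨a, ha⟩ * ⟨b, hb⟩) i
    rw [hφ, Pi.add_apply, Int.cast_add, ← h1, ← h2] at h3
    exact h3
  · rintro _ ⟨z, _, rfl⟩
    exact z.2
  · intro z hz
    refine ⟨φ ⟨z, hz⟩, (((∏ i, y i ^ φ ⟨z, hz⟩ i)⁻¹ * ⟨z, hz⟩ : ↥A) : G), ⟨_, ?_, rfl⟩, ?_,
      hle ⟨z, hz⟩⟩
    · change φ _ = 0
      rw [hφ, hinv, hprod, neg_add_cancel]
    · have h1 : ((∏ i, y i ^ φ ⟨z, hz⟩ i : ↥A) : G) =
          (List.ofFn fun i => (y i : G) ^ φ ⟨z, hz⟩ i).prod := by
        rw [← List.prod_ofFn]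
        have h := map_list_prod A.subtype (List.ofFn fun i => y i ^ φ ⟨z, hz⟩ i)
        rw [List.map_ofFn] at h
        exact h
      rw [← h1]
      have h2 : (∏ i, y i ^ φ ⟨z, hz⟩ i) * ((∏ i, y i ^ φ ⟨z, hz⟩ i)⁻¹ * ⟨z, hz⟩) =
          (⟨z, hz⟩ : ↥A) := mul_inv_cancel_left _ _
      exact (congrArg Subtype.val h2).symm
  · intro R
    by_contra hcon
    push Not at hcon
    refine hinf ?_
    have hfin : (Set.univ : Set ↥A).Finite := by
      have hS : {m : Fin r → ℤ | ∀ i, m i ∈ Set.Icc (-⌈R⌉) ⌈R⌉}.Finite :=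
        Set.Finite.pi' fun _ => Set.finite_Icc _ _
      have hS2 := (hS.prod hT).image (fun q : (Fin r → ℤ) × ↥A => (∏ i, y i ^ q.1 i) * q.2)
      refine hS2.subset ?_
      intro z _
      refine ⟨(φ z, (∏ i, y i ^ φ z i)⁻¹ * z), ⟨?_, ?_⟩, mul_inv_cancel_left _ _⟩
      · intro i
        have h1 := (hle z i).trans_lt (hcon z z.2)
        rw [abs_lt] at h1
        have h2 := Int.le_ceil R
        constructor
        · have : (-(⌈R⌉ : ℝ)) ≤ (φ z i : ℝ) := by linarith [h1.1]
          exact_mod_cast this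
        · have : (φ z i : ℝ) ≤ (⌈R⌉ : ℝ) := by linarith [h1.2]
          exact_mod_cast this
      · change φ _ = 0
        rw [hφ, hinv, hprod, neg_add_cancel]
    have h := hfin.image (Subtype.val : ↥A → G)
    rwa [Set.image_univ, Subtype.range_coe] at h

end Pool.Agent.NilGeo
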