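import Mathlib

set_option autoImplicit false

/-!
# Package NG20: the subgroup `Γ'`

`H`, `A`, `Y` subgroups with `A ≤ H` normal in `G`, `Y ≤ H` normal, `H` normal, elements of `A`
commute with the elements of `H`, `y⁻¹ h⁻¹ y h ∈ A` for `y ∈ Y`, `h ∈ H`; `φ : G → ℝ` additive on `A`.
Write `b y h = y⁻¹ h⁻¹ y h`.

`gam`: `S = {g ∈ H | ∀ y ∈ Y, φ (b y g) = 0}` is a subgroup, normalised by `H`, containing `A`.
Proof: `b y (g g') = (b y g') (g'⁻¹ (b y g) g') = (b y g') (b y g)` for `g, g' ∈ H`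
(`y⁻¹ g'⁻¹ g⁻¹ y g g' = (y⁻¹ g'⁻¹ y g') (g'⁻¹ (y⁻¹ g⁻¹ y g) g')`), so `φ (b y (g g')) = 0`;
`b y g⁻¹ = (b y g)⁻¹` (from the previous formula with `g' = g⁻¹` and `b y 1 = 1`), `φ 1 = 0`,
`φ a⁻¹ = - φ a`. Conjugation: for `h ∈ H` and `g ∈ S`, `b y (h g h⁻¹) = h (b (h⁻¹ y h) g) h⁻¹
= b (h⁻¹ y h) g` and `h⁻¹ y h ∈ Y`. For `a ∈ A`: `b y a = 1`, since `a` commutes with `y ∈ H`.

`gam_loop`: if `U ∈ H` and `φ (q (y⁻¹ U⁻¹ y U) q⁻¹) = 0` for all `y ∈ Y` then `q U q⁻¹ ∈ H` and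
`φ (b y (q U q⁻¹)) = 0` for all `y ∈ Y`: `b y (q U q⁻¹) = q (b (q⁻¹ y q) U) q⁻¹`, `q⁻¹ y q ∈ Y`.

`gam_lcs`: for `k ≥ 1`, `Y = H.lowerCentralSeries (k - 1)`, `A = H.lowerCentralSeries k` and a
subgroup `S ≤ H` with `φ (b y g) = 0` for `y ∈ Y`, `g ∈ S`: `φ a = 0` for all
`a ∈ S.lowerCentralSeries k`. Write `k = k' + 1`. `S.lcs k = ⁅S.lcs k', S⁆` is the closure of the
elements `⁅p, g⁆ = p g p⁻¹ g⁻¹ = b p⁻¹ g⁻¹`, `p ∈ S.lcs k' ≤ H.lcs k' = Y`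
(`Subgroup.lowerCentralSeries_mono`), `g ∈ S`; they lie in `A` and `φ` is `0` on them; the set of
`a ∈ A` with `φ a = 0` is a subgroup.
-/

open scoped commutatorElement

namespace Pool.Agent.NilGeo

variable {G : Type*} [Group G]

theorem gam (H A Y : Subgroup G) [H.Normal] [A.Normal] [Y.Normal] (hAH : A ≤ H)
    (hA : ∀ z ∈ A, ∀ h ∈ H, z * h = h * z) (hYH : Y ≤ H)
    (hYA : ∀ y ∈ Y, ∀ h ∈ H, y⁻¹ * h⁻¹ * y * h ∈ A)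
    (φ : G → ℝ) (hφ : ∀ a ∈ A, ∀ b ∈ A, φ (a * b) = φ a + φ b) :
    ∃ S : Subgroup G, (∀ g, g ∈ S ↔ g ∈ H ∧ ∀ y ∈ Y, φ (y⁻¹ * g⁻¹ * y * g) = 0) ∧
      (∀ h ∈ H, ∀ g ∈ S, h * g * h⁻¹ ∈ S) ∧ A ≤ S := by
  have h1 : φ 1 = 0 := by
    have h2 := hφ 1 A.one_mem 1 A.one_mem
    rw [one_mul] at h2
    linarith
  have hinv : ∀ a ∈ A, φ a⁻¹ = - φ a := by
    intro a ha
    have h2 := hφ a ha a⁻¹ (A.inv_mem ha)
    rw [mul_inv_cancel, h1] at h2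
    linarith
  have key : ∀ y ∈ Y, ∀ g ∈ H, ∀ g' ∈ H, y⁻¹ * (g * g')⁻¹ * y * (g * g') =
      (y⁻¹ * g'⁻¹ * y * g') * (y⁻¹ * g⁻¹ * y * g) := by
    intro y hy g hg g' hg'
    have h2 := hA _ (hYA y hy g hg) g' hg'
    calc y⁻¹ * (g * g')⁻¹ * y * (g * g')
        = y⁻¹ * g'⁻¹ * y * ((y⁻¹ * g⁻¹ * y * g) * g') := by group
      _ = (y⁻¹ * g'⁻¹ * y * g') * (y⁻¹ * g⁻¹ * y * g) := by
        rw [h2]
        group
  refine ⟨{ carrier := {g | g ∈ H ∧ ∀ y ∈ Y, φ (y⁻¹ * g⁻¹ * y * g) = 0}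
            mul_mem' := ?_
            one_mem' := ?_
            inv_mem' := ?_ }, fun g => Iff.rfl, ?_, ?_⟩
  · rintro a b ⟨ha, ha'⟩ ⟨hb, hb'⟩
    refine ⟨H.mul_mem ha hb, fun y hy => ?_⟩
    rw [key y hy a ha b hb, hφ _ (hYA y hy b hb) _ (hYA y hy a ha), ha' y hy, hb' y hy, add_zero]
  · refine ⟨H.one_mem, fun y _ => ?_⟩
    have h2 : y⁻¹ * (1 : G)⁻¹ * y * 1 = 1 := by group
    rw [h2, h1]
  · rintro a ⟨ha, ha'⟩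
    refine ⟨H.inv_mem ha, fun y hy => ?_⟩
    have h2 := key y hy a ha a⁻¹ (H.inv_mem ha)
    have h3 : y⁻¹ * (a * a⁻¹)⁻¹ * y * (a * a⁻¹) = 1 := by group
    rw [h3] at h2
    have h4 : y⁻¹ * a⁻¹⁻¹ * y * a⁻¹ = (y⁻¹ * a⁻¹ * y * a)⁻¹ := eq_inv_of_mul_eq_one_left h2.symm
    rw [h4, hinv _ (hYA y hy a ha), ha' y hy, neg_zero]
  · rintro h hh g ⟨hg, hg'⟩
    refine ⟨H.mul_mem (H.mul_mem hh hg) (H.inv_mem hh), fun y hy => ?_⟩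
    have hy' : h⁻¹ * y * h ∈ Y := Subgroup.Normal.conj_mem' inferInstance y hy h
    have h2 := hA _ (hYA _ hy' g hg) h hh
    have h3 : y⁻¹ * (h * g * h⁻¹)⁻¹ * y * (h * g * h⁻¹) =
        h * ((h⁻¹ * y * h)⁻¹ * g⁻¹ * (h⁻¹ * y * h) * g) * h⁻¹ := by group
    rw [h3, ← h2, mul_inv_cancel_right]
    exact hg' _ hy'
  · intro a ha
    refine ⟨hAH ha, fun y hy => ?_⟩
    have h2 := hA a ha y (hYH hy)
    have h3 : y⁻¹ * a⁻¹ * y * a = 1 := by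
      rw [mul_assoc, ← h2]
      group
    rw [h3, h1]

theorem gam_loop (H Y : Subgroup G) [H.Normal] [Y.Normal] (φ : G → ℝ) (q U : G) (hU : U ∈ H)
    (h : ∀ y ∈ Y, φ (q * (y⁻¹ * U⁻¹ * y * U) * q⁻¹) = 0) :
    q * U * q⁻¹ ∈ H ∧ ∀ y ∈ Y, φ (y⁻¹ * (q * U * q⁻¹)⁻¹ * y * (q * U * q⁻¹)) = 0 := by
  refine ⟨Subgroup.Normal.conj_mem inferInstance U hU q, fun y hy => ?_⟩
  have hy' : q⁻¹ * y * q ∈ Y := Subgroup.Normal.conj_mem' inferInstance y hy q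
  have h3 : y⁻¹ * (q * U * q⁻¹)⁻¹ * y * (q * U * q⁻¹) =
      q * ((q⁻¹ * y * q)⁻¹ * U⁻¹ * (q⁻¹ * y * q) * U) * q⁻¹ := by group
  rw [h3]
  exact h _ hy'

theorem gam_lcs (H S : Subgroup G) (hSH : S ≤ H) (k : ℕ) (hk : 1 ≤ k) (φ : G → ℝ)
    (hφ : ∀ a ∈ H.lowerCentralSeries k, ∀ b ∈ H.lowerCentralSeries k, φ (a * b) = φ a + φ b)
    (h : ∀ y ∈ H.lowerCentralSeries (k - 1), ∀ g ∈ S, φ (y⁻¹ * g⁻¹ * y * g) = 0) :
    ∀ a ∈ S.lowerCentralSeries k, φ a = 0 := by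
  obtain ⟨k', rfl⟩ : ∃ k', k = k' + 1 := ⟨k - 1, by omega⟩
  have h1 : φ 1 = 0 := by
    have h2 := hφ 1 (Subgroup.one_mem _) 1 (Subgroup.one_mem _)
    rw [one_mul] at h2
    linarith
  rw [Nat.add_sub_cancel] at h
  let B : Subgroup G :=
    { carrier := {a | a ∈ H.lowerCentralSeries (k' + 1) ∧ φ a = 0}
      mul_mem' := by
        rintro a b ⟨ha, ha'⟩ ⟨hb, hb'⟩
        exact ⟨Subgroup.mul_mem _ ha hb, by rw [hφ a ha b hb, ha', hb', add_zero]⟩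
      one_mem' := ⟨Subgroup.one_mem _, h1⟩
      inv_mem' := by
        rintro a ⟨ha, ha'⟩
        refine ⟨Subgroup.inv_mem _ ha, ?_⟩
        have h2 := hφ a ha a⁻¹ (Subgroup.inv_mem _ ha)
        rw [mul_inv_cancel, h1] at h2
        linarith }
  have hle : S.lowerCentralSeries (k' + 1) ≤ B := by
    rw [Subgroup.lowerCentralSeries_succ, Subgroup.commutator_le]
    intro p hp g hg
    have hpH : p ∈ H.lowerCentralSeries k' := Subgroup.lowerCentralSeries_mono k' hSH hp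
    refine ⟨?_, ?_⟩
    · rw [Subgroup.lowerCentralSeries_succ]
      exact Subgroup.commutator_mem_commutator hpH (hSH hg)
    · have h2 := h p⁻¹ (Subgroup.inv_mem _ hpH) g⁻¹ (S.inv_mem hg)
      rw [inv_inv, inv_inv] at h2
      exact h2
  intro a ha
  exact (hle ha).2

end Pool.Agent.NilGeo
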