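import Mathlib

set_option autoImplicit false

/-!
# Package NG17: near-maximisers

`w : I → E` is unbounded, `t ≥ 0`, `t i ≤ C (‖w i‖ + 1)`, `‖w i‖ ≤ C t i`. Then there are a unit
vector `e` and `M > 0` such that `t i ≤ (M + η) ‖w i‖ + C'` for all `i` (with `C'` depending on
`η > 0`), and for all `η > 0`, `R` there is `i` with `‖w i‖ ≥ R`, `t i ≥ (M - η) ‖w i‖` and
`‖w i - ‖w i‖ • e‖ ≤ η ‖w i‖`.

Proof. `C > 0` (take `i` with `‖w i‖ ≥ 1`: `1 ≤ C t i` and `t i ≥ 0`). For a natural number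
`n ≥ 1` let `S n = sup {t i / ‖w i‖ : ‖w i‖ ≥ n}`: the set is nonempty, its elements lie in
`[1/C, 2 C]` (`t i ≤ C (‖w i‖ + 1) ≤ 2 C ‖w i‖`). Let `M = inf_n S n ∈ [1/C, 2 C]`, so `M > 0`.
* Upper bound: for `η > 0` there is `n` with `S n < M + η`, so `t i ≤ (M + η) ‖w i‖` if
  `‖w i‖ ≥ n`, and `t i ≤ C (n + 1) =: C'` if `‖w i‖ < n` (and `(M + η) ‖w i‖ ≥ 0`).
* Since `S n ≥ M` there is, for every `n ≥ 1`, `i n` with `‖w (i n)‖ ≥ n` and
  `t (i n) / ‖w (i n)‖ > M - 1/n` (`exists_lt_of_lt_csSup`). The unit vectors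
  `u n = ‖w (i n)‖⁻¹ • w (i n)` lie in the compact sphere (`isCompact_sphere`, `E` is finite
  dimensional, hence proper: `FiniteDimensional.proper_real`); a subsequence converges to a unit
  vector `e` (`IsCompact.tendsto_subseq`). For `η`, `R` choose a large index `n` of the subsequence:
  `‖w - ‖w‖ • e‖ = ‖w‖ ‖u n - e‖ ≤ η ‖w‖`, `1/n ≤ η`, `n ≥ R`.
(Alternatively choose `e` as a cluster point by a filter argument.)
-/

namespace Pool.Agent.NilGeo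

theorem near_max {E : Type*} [NormedAddCommGroup E] [InnerProductSpace ℝ E]
    [FiniteDimensional ℝ E] {I : Type*} (w : I → E) (t : I → ℝ) (C : ℝ) (h0 : ∀ i, 0 ≤ t i)
    (h1 : ∀ i, t i ≤ C * (‖w i‖ + 1)) (h2 : ∀ i, ‖w i‖ ≤ C * t i)
    (hu : ∀ R : ℝ, ∃ i, R ≤ ‖w i‖) :
    ∃ (e : E) (M : ℝ), ‖e‖ = 1 ∧ 0 < M ∧
      (∀ η : ℝ, 0 < η → ∃ C' : ℝ, ∀ i, t i ≤ (M + η) * ‖w i‖ + C') ∧
      (∀ η : ℝ, 0 < η → ∀ R : ℝ, ∃ i, R ≤ ‖w i‖ ∧ (M - η) * ‖w i‖ ≤ t i ∧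
        ‖w i - ‖w i‖ • e‖ ≤ η * ‖w i‖) := by
  classical
  have hC : 0 < C := by
    obtain ⟨i, hi⟩ := hu 1
    by_contra h
    have h3 : C * t i ≤ 0 := mul_nonpos_of_nonpos_of_nonneg (not_lt.1 h) (h0 i)
    linarith [h2 i]
  let S : ℕ → Set ℝ := fun n => {x | ∃ i, (n : ℝ) + 1 ≤ ‖w i‖ ∧ x = t i / ‖w i‖}
  have hne : ∀ n, (S n).Nonempty := fun n => by
    obtain ⟨i, hi⟩ := hu ((n : ℝ) + 1)
    exact ⟨_, i, hi, rfl⟩
  have hup : ∀ n, ∀ x ∈ S n, x ≤ 2 * C := by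
    rintro n x ⟨i, hi, rfl⟩
    have hn : (0 : ℝ) ≤ n := Nat.cast_nonneg n
    have hw : 0 < ‖w i‖ := by linarith
    rw [div_le_iff₀ hw]
    have h3 := h1 i
    nlinarith [mul_nonneg hC.le (show (0 : ℝ) ≤ ‖w i‖ - 1 by linarith)]
  have hlow : ∀ n, ∀ x ∈ S n, 1 / C ≤ x := by
    rintro n x ⟨i, hi, rfl⟩
    have hn : (0 : ℝ) ≤ n := Nat.cast_nonneg n
    have hw : 0 < ‖w i‖ := by linarith
    rw [div_le_div_iff₀ hC hw]
    linarith [h2 i]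
  have hbd : ∀ n, BddAbove (S n) := fun n => ⟨2 * C, fun x hx => hup n x hx⟩
  have hs : ∀ n, 1 / C ≤ sSup (S n) := fun n => by
    obtain ⟨x, hx⟩ := hne n
    exact (hlow n x hx).trans (le_csSup (hbd n) hx)
  have hbb : BddBelow (Set.range fun n => sSup (S n)) :=
    ⟨1 / C, by rintro _ ⟨n, rfl⟩; exact hs n⟩
  obtain ⟨M, hM⟩ : ∃ M : ℝ, M = ⨅ n, sSup (S n) := ⟨_, rfl⟩
  have hM1 : 1 / C ≤ M := hM ▸ le_ciInf hs
  have hMpos : 0 < M := lt_of_lt_of_le (by positivity) hM1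
  have hMn : ∀ n, M ≤ sSup (S n) := fun n => hM ▸ ciInf_le hbb n
  have hex : ∀ n : ℕ, ∃ i, (n : ℝ) + 1 ≤ ‖w i‖ ∧ M - 1 / ((n : ℝ) + 1) < t i / ‖w i‖ := by
    intro n
    have h4 : (0 : ℝ) < 1 / ((n : ℝ) + 1) := by positivity
    have h3 : M - 1 / ((n : ℝ) + 1) < sSup (S n) := lt_of_lt_of_le (by linarith) (hMn n)
    obtain ⟨x, ⟨i, hi, rfl⟩, hx⟩ := exists_lt_of_lt_csSup (hne n) h3
    exact ⟨i, hi, hx⟩
  choose i hi hti using hex
  let u : ℕ → E := fun n => ‖w (i n)‖⁻¹ • w (i n)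
  have hwpos : ∀ n, 0 < ‖w (i n)‖ := fun n => by
    have h3 : (0 : ℝ) ≤ n := Nat.cast_nonneg n
    linarith [hi n]
  have hun : ∀ n, u n ∈ Metric.sphere (0 : E) 1 := fun n => by
    rw [mem_sphere_zero_iff_norm]
    change ‖‖w (i n)‖⁻¹ • w (i n)‖ = 1
    rw [norm_smul, norm_inv, norm_norm, inv_mul_cancel₀ (hwpos n).ne']
  haveI : ProperSpace E := FiniteDimensional.proper_real E
  obtain ⟨e, he, φ, hφ, hlim⟩ := (isCompact_sphere (0 : E) 1).tendsto_subseq hun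
  refine ⟨e, M, by simpa using he, hMpos, ?_, ?_⟩
  · intro η hη
    obtain ⟨n, hn⟩ := exists_lt_of_ciInf_lt
      (show ⨅ n, sSup (S n) < M + η by rw [← hM]; linarith)
    have hn0 : (0 : ℝ) ≤ n := Nat.cast_nonneg n
    refine ⟨C * (n + 2), fun j => ?_⟩
    by_cases hj : (n : ℝ) + 1 ≤ ‖w j‖
    · have h3 : t j / ‖w j‖ ≤ M + η := (le_csSup (hbd n) ⟨j, hj, rfl⟩).trans hn.le
      have hw : 0 < ‖w j‖ := by linarith
      rw [div_le_iff₀ hw] at h3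
      have h4 : 0 ≤ C * ((n : ℝ) + 2) := by positivity
      linarith
    · have h3 : 0 ≤ (M + η) * ‖w j‖ := by positivity
      have h4 : C * (‖w j‖ + 1) ≤ C * ((n : ℝ) + 2) :=
        mul_le_mul_of_nonneg_left (by linarith [not_le.1 hj]) hC.le
      linarith [h1 j]
  · intro η hη R
    obtain ⟨N₁, hN₁⟩ := (Metric.tendsto_atTop.1 hlim) η hη
    obtain ⟨N₂, hN₂⟩ := exists_nat_gt (max R (1 / η))
    let n := max N₁ N₂
    have hn1 : N₁ ≤ n := le_max_left _ _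
    have hn2 : N₂ ≤ n := le_max_right _ _
    have hφn : n ≤ φ n := hφ.id_le n
    have h3 : (N₂ : ℝ) ≤ (φ n : ℝ) := by exact_mod_cast hn2.trans hφn
    have h4 : R < N₂ := lt_of_le_of_lt (le_max_left _ _) hN₂
    have h5 : 1 / η < N₂ := lt_of_le_of_lt (le_max_right _ _) hN₂
    have hw := hwpos (φ n)
    refine ⟨i (φ n), ?_, ?_, ?_⟩
    · linarith [hi (φ n)]
    · have h6 := hti (φ n)
      have h7 : 1 / ((φ n : ℝ) + 1) ≤ η := by
        have h8 : (0 : ℝ) < (φ n : ℝ) + 1 := by positivity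
        rw [div_le_iff₀ h8]
        have h9 : 1 / η < (φ n : ℝ) + 1 := by linarith
        rw [div_lt_iff₀ hη] at h9
        linarith
      have h8 : M - η < t (i (φ n)) / ‖w (i (φ n))‖ := by linarith
      rw [lt_div_iff₀ hw] at h8
      exact h8.le
    · have h6 : ‖u (φ n) - e‖ < η := by
        have h7 := hN₁ n hn1
        rwa [dist_eq_norm] at h7
      have h7 : w (i (φ n)) - ‖w (i (φ n))‖ • e = ‖w (i (φ n))‖ • (u (φ n) - e) := by
        rw [smul_sub]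
        change _ = ‖w (i (φ n))‖ • (‖w (i (φ n))‖⁻¹ • w (i (φ n))) - _
        rw [smul_smul, mul_inv_cancel₀ hw.ne', one_smul]
      rw [h7, norm_smul, norm_norm, mul_comm]
      exact mul_le_mul_of_nonneg_right h6.le hw.le

end Pool.Agent.NilGeo
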