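import Mathlib
import Pool.Agent.NilGeo.Len

set_option autoImplicit false

/-!
# Package NG3: loop erasure in the product automaton

`S` is a subgroup of `H` (called `Γ'` in the paper proof) normalised by `H`; `P` is a group
element; `s` a word such that for every prefix `a` of `s` and every loop `u` of the automaton `M`
at the state `M.eval a`, of length at most `N` and with value in `H`, the conjugate
`(P V a) (V u) (P V a)⁻¹` is in `S`. If `N` is larger than the number of states of the product
automaton `σ × G/H`, then `P * V s = k * (P * V s₀)` with `k ∈ S` and `|s₀| ≤ N`.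

Proof. Write `V = val v`. For a word `x` let `st x = (M.eval x, (V x : G ⧸ H))`. Claim, by
induction on the prefix `s'` of `s` (reverse list induction, `List.reverseRecOn`; use that a prefix
of a prefix of `s` is a prefix of `s`): there are `s₀`, `k ∈ S` with `|s₀| ≤ N`,
`P * V s' = k * (P * V s₀)`, `st s₀ = st s'`, and every prefix `x` of `s₀` has `st x = st a` for
some prefix `a` of `s`.
* `s' = []`: `s₀ = []`, `k = 1`.
* `s' = s'' ++ [l]`: take `s₀`, `k` for `s''` and put `s₁ = s₀ ++ [l]`. Then
  `P V s' = k (P V s₁)`, `st s₁ = st s'` (`st (x ++ [l])` depends only on `st x` and `l`: for the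
  second component `H` is normal, `(V x * v l : G ⧸ H) = (V x : G ⧸ H) * (v l : G ⧸ H)`), and all
  prefixes of `s₁` (they are the prefixes of `s₀`, and `s₁`) have their states among the states of
  prefixes of `s`. If `|s₁| ≤ N` we are done. Otherwise `|s₁| = N + 1 > card (σ × G ⧸ H)`; the
  prefixes of `s₁` of lengths `0, …, N` are `N + 1 > card` many, so two of them have the same state
  (`Fintype.exists_ne_map_eq_of_card_lt` for the map `Fin (N + 1) → σ × G ⧸ H`,
  `i ↦ st (s₁.take i)`): `s₁ = c ++ u ++ d` with `u ≠ []`, `|u| ≤ N`,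
  `M.eval (c ++ u) = M.eval c`, `(V c * V u : G ⧸ H) = V c`, i.e. `V u ∈ H`. Replace `s₁` by
  `c ++ d` (shorter, so of length at most `N`). Prefixes of `c ++ d` have the states of prefixes of
  `c ++ u ++ d` (the state of `c ++ d'` is the state of `c ++ u ++ d'`).
  Let `a` be a prefix of `s` with `st a = st c`: then `u` is a loop at `M.eval a`, so
  `(P V a) (V u) (P V a)⁻¹ ∈ S`; `V c = V a * h` with `h ∈ H`, and
  `(P V c) (V u) (P V c)⁻¹ = h' * (P V a) (V u') (P V a)⁻¹ * h'⁻¹`; more precisely, with
  `h' = (P V c) (P V a)⁻¹ = (P V a) h (P V a)⁻¹ ∈ H` (normality of `H`), one has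
  `P V c = h' * (P V a)`, so `(P V c) (V u) (P V c)⁻¹ = h' ((P V a) (V u) (P V a)⁻¹) h'⁻¹ ∈ S`.
  Finally `P V (c ++ u ++ d) = ((P V c) (V u) (P V c)⁻¹) * (P V (c ++ d))`.
-/

namespace Pool.Agent.NilGeo

variable {G : Type*} [Group G] {α : Type*}

private def st {σ : Type*} (v : α → G) (M : DFA α σ) (H : Subgroup G) (x : List α) :
    σ × (G ⧸ H) := (M.eval x, ((val v x : G) : G ⧸ H))

private theorem st_append {σ : Type*} (v : α → G) (M : DFA α σ) (H : Subgroup G) [H.Normal]
    {x y : List α} (h : st v M H x = st v M H y) (z : List α) :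
    st v M H (x ++ z) = st v M H (y ++ z) := by
  simp only [st, Prod.mk.injEq] at h ⊢
  refine ⟨?_, ?_⟩
  · have h1 : M.evalFrom (M.eval x) z = M.evalFrom (M.eval y) z := by rw [h.1]
    simpa [DFA.eval, DFA.evalFrom_of_append] using h1
  · rw [val_append, val_append, QuotientGroup.mk_mul, QuotientGroup.mk_mul, h.2]

theorem chunk {σ : Type*} [Fintype σ] (v : α → G) (M : DFA α σ)
    (H S : Subgroup G) [H.Normal] [H.FiniteIndex]
    (hSH : ∀ h ∈ H, ∀ g ∈ S, h * g * h⁻¹ ∈ S) (N : ℕ)
    (hN : Fintype.card σ * H.index ≤ N) (P : G) (s : List α)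
    (hgood : ∀ a b : List α, a ++ b = s → ∀ u : List α, u.length ≤ N →
      M.evalFrom (M.eval a) u = M.eval a → val v u ∈ H →
      (P * val v a) * val v u * (P * val v a)⁻¹ ∈ S) :
    ∃ s₀ : List α, ∃ k ∈ S, s₀.length ≤ N ∧ P * val v s = k * (P * val v s₀) := by
  have main : ∀ s' r : List α, s' ++ r = s → ∃ s₀ : List α, ∃ k ∈ S, s₀.length ≤ N ∧
      P * val v s' = k * (P * val v s₀) ∧ st v M H s₀ = st v M H s' ∧
      ∀ x y : List α, x ++ y = s₀ → ∃ a b : List α, a ++ b = s ∧ st v M H a = st v M H x := by
    intro s'
    induction s' using List.reverseRecOn with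
    | nil =>
      intro r hr
      refine ⟨[], 1, S.one_mem, Nat.zero_le _, by simp, rfl, ?_⟩
      intro x y hxy
      have hx : x = [] := (List.append_eq_nil_iff.1 hxy).1
      exact ⟨[], s, rfl, by rw [hx]⟩
    | append_singleton s'' l ih =>
      intro r hr
      obtain ⟨s₀, k, hk, hlen, hval, hst, hpre⟩ := ih (l :: r) (by rw [← hr]; simp)
      have hst1 : st v M H (s₀ ++ [l]) = st v M H (s'' ++ [l]) := st_append v M H hst [l]
      have hval1 : P * val v (s'' ++ [l]) = k * (P * val v (s₀ ++ [l])) := by
        rw [val_append, val_append, ← mul_assoc, hval]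
        group
      have hpre1 : ∀ x y : List α, x ++ y = s₀ ++ [l] →
          ∃ a b : List α, a ++ b = s ∧ st v M H a = st v M H x := by
        intro x y hxy
        rcases List.eq_nil_or_concat y with hy | ⟨y', l', hy⟩
        · subst hy
          rw [List.append_nil] at hxy
          exact ⟨s'' ++ [l], r, hr, by rw [hxy, hst1]⟩
        · subst hy
          rw [List.concat_eq_append, ← List.append_assoc] at hxy
          have h2 := List.append_inj' hxy rfl
          exact hpre x y' h2.1
      by_cases hle : (s₀ ++ [l]).length ≤ N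
      · exact ⟨s₀ ++ [l], k, hk, hle, hval1, hst1, hpre1⟩
      · have hlen1 : (s₀ ++ [l]).length = N + 1 := by
          rw [List.length_append, List.length_singleton] at hle ⊢
          omega
        generalize s₀ ++ [l] = s₁ at hst1 hval1 hpre1 hle hlen1
        have : Fintype (G ⧸ H) := H.fintypeQuotientOfFiniteIndex
        have hcard : Fintype.card (σ × (G ⧸ H)) < Fintype.card (Fin (N + 1)) := by
          rw [Fintype.card_prod, Fintype.card_fin, ← Nat.card_eq_fintype_card (α := G ⧸ H)]
          have : Nat.card (G ⧸ H) = H.index := rfl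
          rw [this]
          omega
        obtain ⟨i0, j0, hij0, hf0⟩ := Fintype.exists_ne_map_eq_of_card_lt
          (fun i : Fin (N + 1) => st v M H (s₁.take i)) hcard
        have hex : ∃ i j : ℕ, i < j ∧ j ≤ N ∧
            st v M H (s₁.take i) = st v M H (s₁.take j) := by
          have hi := i0.2
          have hj := j0.2
          have hne : (i0 : ℕ) ≠ (j0 : ℕ) := fun h => hij0 (Fin.ext h)
          rcases Nat.lt_or_gt_of_ne hne with h | h
          · exact ⟨i0, j0, h, by omega, hf0⟩
          · exact ⟨j0, i0, h, by omega, hf0.symm⟩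
        obtain ⟨i, j, hij, hjN, hf⟩ := hex
        obtain ⟨c, u, d, hs₁, hc, hcu, hul, hul1⟩ : ∃ c u d : List α, s₁ = c ++ u ++ d ∧
            s₁.take i = c ∧ s₁.take j = c ++ u ∧ u.length ≤ N ∧ 1 ≤ u.length := by
          refine ⟨s₁.take i, (s₁.take j).drop i, s₁.drop j, ?_, rfl, ?_, ?_, ?_⟩
          · have h1 : s₁.take i ++ (s₁.take j).drop i = s₁.take j := by
              have h2 : s₁.take i = (s₁.take j).take i := by
                rw [List.take_take, min_eq_left hij.le]
              rw [h2, List.take_append_drop]
            rw [h1, List.take_append_drop]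
          · have h2 : s₁.take i = (s₁.take j).take i := by
              rw [List.take_take, min_eq_left hij.le]
            rw [h2, List.take_append_drop]
          · rw [List.length_drop, List.length_take]
            omega
          · rw [List.length_drop, List.length_take]
            omega
        rw [hc, hcu] at hf
        have hpc : ∃ a b : List α, a ++ b = s ∧ st v M H a = st v M H c :=
          hpre1 c (u ++ d) (by rw [hs₁]; simp)
        obtain ⟨a, b, hab, hac⟩ := hpc
        have hac1 : M.eval a = M.eval c := congrArg Prod.fst hac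
        have hac2 : ((val v a : G) : G ⧸ H) = ((val v c : G) : G ⧸ H) := congrArg Prod.snd hac
        have hf1 : M.eval c = M.eval (c ++ u) := congrArg Prod.fst hf
        have hf2 : ((val v c : G) : G ⧸ H) = ((val v (c ++ u) : G) : G ⧸ H) := congrArg Prod.snd hf
        have hloop : M.evalFrom (M.eval a) u = M.eval a := by
          rw [hac1]
          have h1 : M.eval (c ++ u) = M.evalFrom (M.eval c) u := by
            simp [DFA.eval, DFA.evalFrom_of_append]
          rw [← h1, ← hf1]
        have huH : val v u ∈ H := by
          have h1 := QuotientGroup.eq.1 hf2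
          rw [val_append] at h1
          simpa using h1
        have hg := hgood a b hab u hul hloop huH
        have hhH : (val v a)⁻¹ * val v c ∈ H := QuotientGroup.eq.1 hac2
        have hh' : (P * val v a) * ((val v a)⁻¹ * val v c) * (P * val v a)⁻¹ ∈ H :=
          Subgroup.Normal.conj_mem inferInstance _ hhH _
        have hk2 := hSH _ hh' _ hg
        have heq : (P * val v a) * ((val v a)⁻¹ * val v c) * (P * val v a)⁻¹ *
            (P * val v a * val v u * (P * val v a)⁻¹) *
            ((P * val v a) * ((val v a)⁻¹ * val v c) * (P * val v a)⁻¹)⁻¹ =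
            (P * val v c) * val v u * (P * val v c)⁻¹ := by
          group
        rw [heq] at hk2
        refine ⟨c ++ d, k * ((P * val v c) * val v u * (P * val v c)⁻¹), S.mul_mem hk hk2,
          ?_, ?_, ?_, ?_⟩
        · have h1 : s₁.length = c.length + u.length + d.length := by
            rw [hs₁]; simp [add_assoc]
          rw [List.length_append]
          omega
        · rw [hval1, hs₁]
          simp only [val_append]
          group
        · rw [← hst1, hs₁]
          exact st_append v M H hf d
        · intro x y hxy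
          rcases List.append_eq_append_iff.1 hxy with ⟨a', h1, h2⟩ | ⟨c', h1, h2⟩
          · refine hpre1 x (a' ++ u ++ d) ?_
            rw [hs₁, h1]
            simp
          · obtain ⟨a₂, b₂, h3, h4⟩ := hpre1 (c ++ u ++ c') y (by rw [hs₁, h2]; simp)
            refine ⟨a₂, b₂, h3, h4.trans ?_⟩
            rw [h1]
            exact (st_append v M H hf c').symm
  obtain ⟨s₀, k, hk, hlen, hval, -, -⟩ := main s [] (List.append_nil s)
  exact ⟨s₀, k, hk, hlen, hval⟩

end Pool.Agent.NilGeo
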