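import Mathlib
import Pool.Agent.NilGeo.Chunk

set_option autoImplicit false

/-!
# Package NG4: a long word without bad loops is a product of few short elements of `S`

Let `w` be a word with `V w = r⁻¹ z r`, `z ∈ S`, cut into at most `J` chunks of length at most `m`
(`w.length ≤ J * m`), and suppose that for all decompositions `w = w1 ++ a ++ w3` with `|a| ≤ m`
every loop `u` at `M.eval a` of length at most `N`, with value in `H`, has
`(r V w1 V a) (V u) (r V w1 V a)⁻¹ ∈ S`. Then `z` is a product of `|w| + 1` elements of `S` of
length at most `2 * len r + 2 * (J * N) + 1`.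

Proof (`V = val v`). Claim: for every `j ≤ J` and every prefix `p` of `w` with `|p| ≤ j * m` there
are `k ∈ S` and `f` with `len f ≤ j * N` and `r * V p = k * r * f`. Induction on `j`: for `j = 0`,
`p = []`, `k = f = 1`. Step: if `|p| ≤ j * m` use the induction hypothesis (and
`j * N ≤ (j + 1) * N`). Otherwise `p = p' ++ s` with `|p'| = j * m` and `|s| ≤ m`
(`p' = p.take (j * m)`). Induction hypothesis: `r V p' = k' r f'`. Apply `chunk` to `P = r * V p'`
and `s`: the hypothesis `hgood` of `chunk` follows from the hypothesis here with `w1 = p'`, `a` the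
prefix of `s` (`|a| ≤ |s| ≤ m`). So `r V p = P V s = k (P V s₀) = k k' r f' V s₀`, and
`len (f' V s₀) ≤ j * N + N`.

So for every prefix `p` of `w` there are `k ∈ S`, `f` with `len f ≤ J * N`, `r V p = k r f`.
For consecutive prefixes `p` and `p ++ [l]`: with `r V p = k r f` and `r V (p ++ [l]) = k' r f'`,
`k⁻¹ k' = r f (v l) f'⁻¹ r⁻¹ ∈ S` has length at most `2 len r + 2 J N + 1`
(`len_mul_le`, `len_inv_le`, `len_letter`). By induction on the prefix (`List.reverseRecOn`, or on
the length of the prefix): for every prefix `p` of `w` there are a list `l` of `|p|` elements of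
`S` of length at most `2 len r + 2 J N + 1` and `k`, `f` as above with `l.prod = k` (start:
`k = f = 1`). For `p = w`: `z r = r V w = k r f`, so `k⁻¹ z = r f r⁻¹ ∈ S` (as `k, z ∈ S`), of
length at most `2 len r + J N`: append it to the list.
-/

namespace Pool.Agent.NilGeo

variable {G : Type*} [Group G] {α : Type*}

theorem chain {σ : Type*} [Fintype σ] (v : α → G) (hsym : ∀ a, ∃ b, v b = (v a)⁻¹)
    (hsurj : ∀ g, ∃ w, val v w = g) (M : DFA α σ)
    (H S : Subgroup G) [H.Normal] [H.FiniteIndex]
    (hSH : ∀ h ∈ H, ∀ g ∈ S, h * g * h⁻¹ ∈ S) (N : ℕ)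
    (hN : Fintype.card σ * H.index ≤ N) (r z : G) (hz : z ∈ S) (w : List α)
    (hw : val v w = r⁻¹ * z * r) (m J : ℕ) (hJ : w.length ≤ J * m)
    (hgood : ∀ w1 a w3 : List α, w1 ++ a ++ w3 = w → a.length ≤ m →
      ∀ u : List α, u.length ≤ N → M.evalFrom (M.eval a) u = M.eval a → val v u ∈ H →
      (r * val v w1 * val v a) * val v u * (r * val v w1 * val v a)⁻¹ ∈ S) :
    ∃ l : List G, l.length = w.length + 1 ∧ l.prod = z ∧
      ∀ x ∈ l, x ∈ S ∧ len v x ≤ 2 * len v r + 2 * (J * N) + 1 := by
  have claim : ∀ j : ℕ, ∀ p q : List α, p ++ q = w → p.length ≤ j * m →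
      ∃ k ∈ S, ∃ f : G, len v f ≤ j * N ∧ r * val v p = k * r * f := by
    intro j
    induction j with
    | zero =>
      intro p q _ hl
      have h0 : p = [] := by
        rw [Nat.zero_mul] at hl
        exact List.length_eq_zero_iff.1 (Nat.le_zero.1 hl)
      subst h0
      exact ⟨1, S.one_mem, 1, by rw [len_one]; exact Nat.zero_le _, by simp⟩
    | succ j ih =>
      intro p q hp hl
      by_cases h : p.length ≤ j * m
      · obtain ⟨k, hk, f, hf, he⟩ := ih p q hp h
        exact ⟨k, hk, f, hf.trans (Nat.mul_le_mul_right N (Nat.le_succ j)), he⟩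
      · obtain ⟨p', s, hps, hp', hs⟩ : ∃ p' s : List α, p' ++ s = p ∧ p'.length ≤ j * m ∧
            s.length ≤ m := by
          refine ⟨p.take (j * m), p.drop (j * m), List.take_append_drop _ _, ?_, ?_⟩
          · rw [List.length_take]
            exact min_le_left _ _
          · rw [List.length_drop]
            rw [Nat.succ_mul] at hl
            omega
        obtain ⟨k', hk', f', hf', he'⟩ := ih p' (s ++ q)
          (by rw [← List.append_assoc, hps, hp]) hp'
        have hc : ∀ a b : List α, a ++ b = s → ∀ u : List α, u.length ≤ N →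
            M.evalFrom (M.eval a) u = M.eval a → val v u ∈ H →
            (r * val v p' * val v a) * val v u * (r * val v p' * val v a)⁻¹ ∈ S := by
          intro a b hab u hu hloop huH
          have hal : a.length ≤ m := by
            rw [← hab, List.length_append] at hs
            omega
          exact hgood p' a (b ++ q) (by rw [← hp, ← hps, ← hab]; simp) hal u hu hloop huH
        obtain ⟨s₀, k, hk, hs0, hval⟩ := chunk v M H S hSH N hN (r * val v p') s hc
        refine ⟨k * k', S.mul_mem hk hk', f' * val v s₀, ?_, ?_⟩
        · calc len v (f' * val v s₀) ≤ len v f' + len v (val v s₀) := len_mul_le v hsurj _ _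
            _ ≤ j * N + N := add_le_add hf' ((len_le v rfl).trans hs0)
            _ = (j + 1) * N := by ring
        · have h1 : r * val v p = r * val v p' * val v s := by
            rw [← hps, val_append, mul_assoc]
          rw [h1, hval, he']
          group
  have claim2 : ∀ p q : List α, p ++ q = w → ∃ l : List G, ∃ k ∈ S, ∃ f : G,
      l.length = p.length ∧ l.prod = k ∧ len v f ≤ J * N ∧ r * val v p = k * r * f ∧
      ∀ x ∈ l, x ∈ S ∧ len v x ≤ 2 * len v r + 2 * (J * N) + 1 := by
    intro p
    induction p using List.reverseRecOn with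
    | nil =>
      intro q _
      exact ⟨[], 1, S.one_mem, 1, rfl, rfl, by rw [len_one]; exact Nat.zero_le _, by simp,
        by simp⟩
    | append_singleton p c ih =>
      intro q hq
      obtain ⟨l, k, hk, f, hl, hlk, hf, he, hx⟩ := ih (c :: q) (by rw [← hq]; simp)
      have hlen : (p ++ [c]).length ≤ J * m := by
        refine le_trans ?_ hJ
        rw [← hq, List.length_append (as := p ++ [c])]
        exact Nat.le_add_right _ _
      obtain ⟨k', hk', f', hf', he'⟩ := claim J (p ++ [c]) q hq hlen
      have hvc : val v (p ++ [c]) = val v p * v c := by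
        rw [val_append]
        simp [val]
      have hkk : k⁻¹ * k' = r * f * v c * f'⁻¹ * r⁻¹ := by
        have h1 : k' * r * f' = k * r * f * v c := by
          rw [← he', hvc, ← mul_assoc, he]
        have h2 : k' = k * r * f * v c * f'⁻¹ * r⁻¹ := by
          rw [← h1]
          group
        rw [h2]
        group
      refine ⟨l ++ [k⁻¹ * k'], k', hk', f', ?_, ?_, hf', he', ?_⟩
      · rw [List.length_append, List.length_append, hl]
        rfl
      · rw [List.prod_append, hlk, List.prod_singleton, mul_inv_cancel_left]
      · intro x hxl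
        rcases List.mem_append.1 hxl with h | h
        · exact hx x h
        · rw [List.mem_singleton] at h
          subst h
          refine ⟨S.mul_mem (S.inv_mem hk) hk', ?_⟩
          rw [hkk]
          have a1 := len_mul_le v hsurj (r * f * v c * f'⁻¹) r⁻¹
          have a2 := len_mul_le v hsurj (r * f * v c) f'⁻¹
          have a3 := len_mul_le v hsurj (r * f) (v c)
          have a4 := len_mul_le v hsurj r f
          have a5 := len_inv_le v hsym hsurj r
          have a6 := len_inv_le v hsym hsurj f'
          have a7 := len_letter v c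
          omega
  obtain ⟨l, k, hk, f, hl, hlk, hf, he, hx⟩ := claim2 w [] (List.append_nil w)
  have hkz : k⁻¹ * z = r * f * r⁻¹ := by
    have h1 : z * r = k * r * f := by
      rw [← he, hw]
      group
    have h2 : z = k * r * f * r⁻¹ := by
      rw [← h1]
      group
    rw [h2]
    group
  refine ⟨l ++ [k⁻¹ * z], ?_, ?_, ?_⟩
  · rw [List.length_append, hl]
    rfl
  · rw [List.prod_append, hlk, List.prod_singleton, mul_inv_cancel_left]
  · intro x hxl
    rcases List.mem_append.1 hxl with h | h
    · exact hx x h
    · rw [List.mem_singleton] at h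
      subst h
      refine ⟨S.mul_mem (S.inv_mem hk) hz, ?_⟩
      rw [hkz]
      have a1 := len_mul_le v hsurj (r * f) r⁻¹
      have a4 := len_mul_le v hsurj r f
      have a5 := len_inv_le v hsym hsurj r
      omega

end Pool.Agent.NilGeo
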