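import Mathlib
import Pool.Agent.NilGeo.Len

set_option autoImplicit false

/-!
# Package NG16: conjugates of elements of `A` and the minimal length in a conjugacy class

`H` is normal of finite index, the elements of `A` commute with the elements of `H`.

* `conj_A`: there is `D0` such that for all `g` there is `r` with `len r ≤ D0` and
  `g⁻¹ z g = r⁻¹ z r` for all `z ∈ A`. Proof: every `g` is `h r` with `h ∈ H` and `r` in a finite
  set of representatives (finite index), and `g⁻¹ z g = r⁻¹ h⁻¹ z h r = r⁻¹ z r`.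
* `fmin v z` is the minimal length of a conjugate of `z`. `fmin_le`: `Nat.sInf_le`. `fmin_exists`:
  `Nat.sInf_mem`.
* `fmin_rep`: for `z ∈ A` the minimum is attained with `len r ≤ D0` (combine).
* `le_fmin`: every conjugate of `z ∈ A` has length at most `fmin v z + 2 * D0`: let
  `len (r₀⁻¹ z r₀) = fmin v z` and `z' = r₀⁻¹ z r₀ ∈ A` (`A` normal). Then
  `g⁻¹ z g = (r₀⁻¹ g)⁻¹ z' (r₀⁻¹ g) = r⁻¹ z' r` with `len r ≤ D0`; `len_conj_le`.
* `fmin_pos`: if `fmin v z = 0` then a conjugate of `z` is `1`, so `z = 1`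
  (`eq_one_of_len_eq_zero`).
-/

namespace Pool.Agent.NilGeo

variable {G : Type*} [Group G] {α : Type*}

/-- The minimal word length of a conjugate of `z`. -/
noncomputable def fmin (v : α → G) (z : G) : ℕ :=
  sInf {n | ∃ g : G, len v (g⁻¹ * z * g) = n}

theorem conj_A (v : α → G) (H A : Subgroup G) [H.FiniteIndex]
    (hA : ∀ z ∈ A, ∀ h ∈ H, z * h = h * z) :
    ∃ D0 : ℕ, ∀ g : G, ∃ r : G, len v r ≤ D0 ∧ ∀ z ∈ A, g⁻¹ * z * g = r⁻¹ * z * r := by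
  classical
  have : Finite (G ⧸ H) := inferInstance
  let _ : Fintype (G ⧸ H) := Fintype.ofFinite _
  -- `g⁻¹ = r' * h'` with `r'` a left coset representative, `h' ∈ H`
  refine ⟨∑ c : G ⧸ H, len v (Quotient.out c)⁻¹, fun g => ?_⟩
  refine ⟨(Quotient.out (QuotientGroup.mk g⁻¹ : G ⧸ H))⁻¹, ?_, ?_⟩
  · exact Finset.single_le_sum (f := fun c : G ⧸ H => len v (Quotient.out c)⁻¹)
      (fun _ _ => Nat.zero_le _) (Finset.mem_univ _)
  · intro z hz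
    set r' : G := Quotient.out (QuotientGroup.mk g⁻¹ : G ⧸ H) with hr'
    have h1 : (QuotientGroup.mk r' : G ⧸ H) = QuotientGroup.mk g⁻¹ := by
      rw [hr']; exact Quotient.out_eq' _
    have h2 : r'⁻¹ * g⁻¹ ∈ H := QuotientGroup.eq.mp h1
    have h3 := hA z hz _ h2
    have h4 : g⁻¹ = r' * (r'⁻¹ * g⁻¹) := by group
    have h5 : g = (r'⁻¹ * g⁻¹)⁻¹ * r'⁻¹ := by group
    have h6 : (r'⁻¹ * g⁻¹) * z * (r'⁻¹ * g⁻¹)⁻¹ = z := by
      rw [← h3]; group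
    calc g⁻¹ * z * g = r' * ((r'⁻¹ * g⁻¹) * z * (r'⁻¹ * g⁻¹)⁻¹) * r'⁻¹ := by group
      _ = r' * z * r'⁻¹ := by rw [h6]
      _ = r'⁻¹⁻¹ * z * r'⁻¹ := by rw [inv_inv]

theorem fmin_le (v : α → G) (z g : G) : fmin v z ≤ len v (g⁻¹ * z * g) :=
  Nat.sInf_le ⟨g, rfl⟩

theorem fmin_exists (v : α → G) (z : G) : ∃ g : G, len v (g⁻¹ * z * g) = fmin v z :=
  Nat.sInf_mem (s := {n | ∃ g : G, len v (g⁻¹ * z * g) = n}) ⟨_, 1, rfl⟩

theorem fmin_rep (v : α → G) (A : Subgroup G) (D0 : ℕ)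
    (hD : ∀ g : G, ∃ r : G, len v r ≤ D0 ∧ ∀ z ∈ A, g⁻¹ * z * g = r⁻¹ * z * r)
    (z : G) (hz : z ∈ A) : ∃ r : G, len v r ≤ D0 ∧ len v (r⁻¹ * z * r) = fmin v z := by
  obtain ⟨g, hg⟩ := fmin_exists v z
  obtain ⟨r, hr, hr2⟩ := hD g
  exact ⟨r, hr, by rw [← hr2 z hz, hg]⟩

theorem le_fmin (v : α → G) (hsym : ∀ a, ∃ b, v b = (v a)⁻¹)
    (hsurj : ∀ g, ∃ w, val v w = g) (A : Subgroup G) [A.Normal] (D0 : ℕ)
    (hD : ∀ g : G, ∃ r : G, len v r ≤ D0 ∧ ∀ z ∈ A, g⁻¹ * z * g = r⁻¹ * z * r)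
    (z : G) (hz : z ∈ A) (g : G) : len v (g⁻¹ * z * g) ≤ fmin v z + 2 * D0 := by
  obtain ⟨r₀, _, hr₀⟩ := fmin_rep v A D0 hD z hz
  have hz' : r₀⁻¹ * z * r₀ ∈ A := by
    have := Subgroup.Normal.conj_mem (H := A) inferInstance z hz r₀⁻¹
    simpa using this
  obtain ⟨r, hr, hr2⟩ := hD (r₀⁻¹ * g)
  have h1 : g⁻¹ * z * g = r⁻¹ * (r₀⁻¹ * z * r₀) * r := by
    rw [← hr2 _ hz']; group
  rw [h1]
  have h2 := len_conj_le v hsym hsurj r (r₀⁻¹ * z * r₀)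
  rw [hr₀] at h2
  omega

theorem fmin_pos (v : α → G) (hsurj : ∀ g, ∃ w, val v w = g) {z : G} (hz : z ≠ 1) :
    1 ≤ fmin v z := by
  by_contra hcon
  have h0 : fmin v z = 0 := by omega
  obtain ⟨g, hg⟩ := fmin_exists v z
  rw [h0] at hg
  have h1 := eq_one_of_len_eq_zero v hsurj hg
  apply hz
  have h2 : z = g * (g⁻¹ * z * g) * g⁻¹ := by group
  rw [h2, h1]; group

end Pool.Agent.NilGeo
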