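import Mathlib
import Pool.Agent.NilGeo.Len

set_option autoImplicit false

/-!
# Package NG2: pumping a rotation of a geodesic word of a central element

Statement: `w1 ++ a ++ w3` is a word for `r⁻¹ z r` (`z ∈ A`) whose length is at most the length of
every conjugate of `z`; `u` is a loop of the automaton `M` (which recognises the geodesic words) at
the state reached by the word `a`, with value in `H`. Then, with `P = r * V w1`, `q = P * V a`,
`B = q (y⁻¹ (V u)⁻¹ y (V u)) q⁻¹`, the length of the word is at most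
`2 |a| + 2 |y| + |P⁻¹ z B ^ t P|`.

Proof. Write `Va = val v a`, `U = val v u`, `b = w3 ++ w1`. The rotation `a ++ b` has the value
`(V w1)⁻¹ (V w) (V w1) = P⁻¹ z P` and the length of `w`, which is at most `len (P⁻¹ z P)` by
`hmin`; so (`geo_iff`, `len_le`) `a ++ b` is geodesic and `M.eval (a ++ b) ∈ M.accept`. For the
word `a ++ u^t ++ b` (`u^t = (List.replicate t u).flatten`) the automaton returns to `M.eval a`
after every copy of `u` (`DFA.evalFrom_of_append`, induction on `t`), so
`M.eval (a ++ u^t ++ b) = M.eval (a ++ b)` is accepted and the word is geodesic: its length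
`|a| + t |u| + |b|` is at most (here: equal to) `len` of its value `Va U^t Vb`.
Put `c = y⁻¹ U⁻¹ y U ∈ A`. As `c` is central in `H`, `y⁻¹ U⁻¹ y = c U⁻¹`, so `y⁻¹ U y = U c⁻¹` and
`U^t = y⁻¹ U^t y c^t`. Since `Va Vb = P⁻¹ z P ∈ A`,
`Va U^t Vb = (Va y⁻¹) U^t (y Va⁻¹) * ((Va c^t Va⁻¹) (P⁻¹ z P))`, and
`(Va c^t Va⁻¹) (P⁻¹ z P) = P⁻¹ (B^t z) P = P⁻¹ (z B^t) P` (`B ∈ A` since `A` is normal; elements
of `A` commute). Hence `|a| + t |u| + |b| ≤ |a| + |y| + t |u| + |y| + |a| + len (P⁻¹ z B^t P)`
(`len_mul_le`, `len_inv_le`, `len_le` for the words `a` and `u^t`), which is the claim, because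
`|a| + |b| = |w|`.
-/

namespace Pool.Agent.NilGeo

variable {G : Type*} [Group G] {α : Type*}

private theorem val_replicate (v : α → G) (u : List α) (t : ℕ) :
    val v (List.replicate t u).flatten = val v u ^ t := by
  induction t with
  | zero => simp [val]
  | succ t ih =>
    rw [List.replicate_succ, List.flatten_cons, val_append, ih, pow_succ']

private theorem length_replicate_flatten (u : List α) (t : ℕ) :
    (List.replicate t u).flatten.length = t * u.length := by
  induction t with
  | zero => simp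
  | succ t ih =>
    rw [List.replicate_succ, List.flatten_cons, List.length_append, ih]
    ring

private theorem evalFrom_replicate {σ : Type*} (M : DFA α σ) (s : σ) (u : List α)
    (h : M.evalFrom s u = s) (t : ℕ) : M.evalFrom s (List.replicate t u).flatten = s := by
  induction t with
  | zero => simp
  | succ t ih =>
    rw [List.replicate_succ, List.flatten_cons, DFA.evalFrom_of_append, h, ih]

theorem pump {σ : Type*} (v : α → G) (hsym : ∀ a, ∃ b, v b = (v a)⁻¹)
    (hsurj : ∀ g, ∃ w, val v w = g) (M : DFA α σ)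
    (hM : ∀ w, M.eval w ∈ M.accept ↔ Geo v w)
    (H A Y : Subgroup G) [A.Normal] (hAH : A ≤ H)
    (hA : ∀ z ∈ A, ∀ h ∈ H, z * h = h * z) (hYH : Y ≤ H)
    (hYA : ∀ y ∈ Y, ∀ h ∈ H, y⁻¹ * h⁻¹ * y * h ∈ A)
    (z r : G) (hz : z ∈ A) (w1 a w3 : List α)
    (hw : val v (w1 ++ a ++ w3) = r⁻¹ * z * r)
    (hmin : ∀ g : G, (w1 ++ a ++ w3).length ≤ len v (g⁻¹ * z * g))
    (u : List α) (hloop : M.evalFrom (M.eval a) u = M.eval a) (huH : val v u ∈ H)
    (y : G) (hy : y ∈ Y) (t : ℕ) :
    (w1 ++ a ++ w3).length ≤ 2 * a.length + 2 * len v y +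
      len v ((r * val v w1)⁻¹ * (z * ((r * val v w1 * val v a) *
        (y⁻¹ * (val v u)⁻¹ * y * val v u) * (r * val v w1 * val v a)⁻¹) ^ t) *
        (r * val v w1)) := by
  set V1 := val v w1 with hV1
  set Va := val v a with hVa
  set U := val v u with hU
  set V3 := val v w3 with hV3
  set P := r * V1 with hP
  have hw' : V1 * Va * V3 = r⁻¹ * z * r := by
    rw [← hw, val_append, val_append]
  have hVb : Va * (V3 * V1) = P⁻¹ * z * P := by
    have h1 : Va * (V3 * V1) = V1⁻¹ * (V1 * Va * V3) * V1 := by group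
    rw [h1, hw', hP]
    group
  -- the rotation is geodesic
  have hlen1 : (a ++ (w3 ++ w1)).length = (w1 ++ a ++ w3).length := by
    simp only [List.length_append]
    omega
  have hval1 : val v (a ++ (w3 ++ w1)) = P⁻¹ * z * P := by
    rw [val_append, val_append]
    exact hVb
  have hgeo1 : Geo v (a ++ (w3 ++ w1)) := by
    rw [geo_iff v hsurj]
    apply le_antisymm (len_le v rfl)
    rw [hval1, hlen1]
    exact hmin P
  have hacc : M.eval (a ++ (w3 ++ w1)) ∈ M.accept := (hM _).2 hgeo1
  -- the pumped word is geodesic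
  have heval : M.eval (a ++ ((List.replicate t u).flatten ++ (w3 ++ w1))) =
      M.eval (a ++ (w3 ++ w1)) := by
    have hev : ∀ x y : List α, M.eval (x ++ y) = M.evalFrom (M.eval x) y :=
      fun x y => DFA.evalFrom_of_append M _ x y
    rw [hev, hev, M.evalFrom_of_append (M.eval a) (List.replicate t u).flatten,
      evalFrom_replicate M _ u hloop t]
  have hgeo2 : Geo v (a ++ ((List.replicate t u).flatten ++ (w3 ++ w1))) := by
    rw [← hM, heval]
    exact hacc
  have hval2 : val v (a ++ ((List.replicate t u).flatten ++ (w3 ++ w1))) =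
      Va * (U ^ t * (V3 * V1)) := by
    rw [val_append, val_append, val_append, val_replicate]
  have hlen2 := (geo_iff v hsurj _).1 hgeo2
  rw [hval2] at hlen2
  -- the central element
  set c := y⁻¹ * U⁻¹ * y * U with hc
  have hcA : c ∈ A := hYA y hy U huH
  have hcU : c * U = U * c := hA c hcA U huH
  have hyU : y⁻¹ * U * y = U * c⁻¹ := by
    rw [hc]
    group
  have hpow : y⁻¹ * U ^ t * y * c ^ t = U ^ t := by
    have h1 : y⁻¹ * U ^ t * y = (y⁻¹ * U * y) ^ t := by
      have h2 := conj_pow (i := t) (a := y⁻¹) (b := U)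
      rw [inv_inv] at h2
      exact h2.symm
    have h3 : Commute U c⁻¹ := by
      have h4 : Commute U c := hcU.symm
      exact h4.inv_right
    rw [h1, hyU, h3.mul_pow, inv_pow, inv_mul_cancel_right]
  set q := P * Va with hq
  have hBA : q * c * q⁻¹ ∈ A := Subgroup.Normal.conj_mem inferInstance c hcA q
  have hBt : (q * c * q⁻¹) ^ t ∈ A := A.pow_mem hBA t
  have hzB : z * (q * c * q⁻¹) ^ t = (q * c * q⁻¹) ^ t * z := hA z hz _ (hAH hBt)
  have hlast : P⁻¹ * (z * (q * c * q⁻¹) ^ t) * P = Va * c ^ t * (V3 * V1) := by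
    rw [hzB, conj_pow]
    have h1 : P⁻¹ * (q * c ^ t * q⁻¹ * z) * P = P⁻¹ * q * c ^ t * q⁻¹ * P * (P⁻¹ * z * P) := by
      group
    rw [h1, ← hVb, hq]
    group
  have hmain : Va * (U ^ t * (V3 * V1)) =
      Va * (y⁻¹ * (U ^ t * (y * (Va⁻¹ * (P⁻¹ * (z * (q * c * q⁻¹) ^ t) * P))))) := by
    rw [hlast]
    have h1 : Va * (y⁻¹ * (U ^ t * (y * (Va⁻¹ * (Va * c ^ t * (V3 * V1)))))) =
        Va * (y⁻¹ * U ^ t * y * c ^ t) * (V3 * V1) := by
      group
    rw [h1, hpow]
    group
  have e1 : len v Va ≤ a.length := len_le v rfl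
  have e2 : len v y⁻¹ ≤ len v y := len_inv_le v hsym hsurj y
  have e3 : len v (U ^ t) ≤ t * u.length := by
    rw [← length_replicate_flatten]
    exact len_le v (val_replicate v u t)
  have e4 : len v Va⁻¹ ≤ len v Va := len_inv_le v hsym hsurj Va
  have hfin : len v (Va * (U ^ t * (V3 * V1))) ≤ len v Va + (len v y⁻¹ + (len v (U ^ t) +
      (len v y + (len v Va⁻¹ + len v (P⁻¹ * (z * (q * c * q⁻¹) ^ t) * P))))) := by
    rw [hmain]
    refine (len_mul_le v hsurj _ _).trans (Nat.add_le_add_left ?_ _)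
    refine (len_mul_le v hsurj _ _).trans (Nat.add_le_add_left ?_ _)
    refine (len_mul_le v hsurj _ _).trans (Nat.add_le_add_left ?_ _)
    refine (len_mul_le v hsurj _ _).trans (Nat.add_le_add_left ?_ _)
    exact len_mul_le v hsurj _ _
  rw [hlen2] at hfin
  simp only [List.length_append, length_replicate_flatten] at hfin hlen1 ⊢
  omega

end Pool.Agent.NilGeo
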